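import Pool.Agent.H629Chowla.Main

/-! From random signs to the modified Liouville function. -/

set_option autoImplicit false

open MeasureTheory ProbabilityTheory Finset Filter Topology

namespace Pool.Agent.H629Chowla

open Classical in
/-- the completely multiplicative function with the value `1` at the primes of `Q` and `-1` at the
other primes -/
noncomputable def lam (Q : Set ℕ) (n : ℕ) : ℝ :=
  (n.primeFactorsList.map (fun p => if p ∈ Q then (1 : ℝ) else -1)).prod

lemma lam_mul (Q : Set ℕ) {a b : ℕ} (ha : a ≠ 0) (hb : b ≠ 0) :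
    lam Q (a * b) = lam Q a * lam Q b := by
  unfold lam
  rw [((Nat.perm_primeFactorsList_mul ha hb).map _).prod_eq, List.map_append, List.prod_append]

lemma lam_one (Q : Set ℕ) : lam Q 1 = 1 := by
  unfold lam; simp

lemma lam_prod (Q : Set ℕ) {ι : Type*} (s : Finset ι) (f : ι → ℕ) (hf : ∀ i ∈ s, f i ≠ 0) :
    lam Q (∏ i ∈ s, f i) = ∏ i ∈ s, lam Q (f i) := by
  classical
  induction s using Finset.induction_on with
  | empty => simp [lam_one]
  | insert a s ha ih =>
    rw [prod_insert ha, prod_insert ha, lam_mul Q (hf a (mem_insert_self a s))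
      (prod_ne_zero_iff.2 (fun i hi => hf i (mem_insert_of_mem hi))),
      ih (fun i hi => hf i (mem_insert_of_mem hi))]

open Classical in
/-- the sign change at `p` -/
noncomputable def sg (Q : Set ℕ) (p : ℕ) : ℝ := if p ∈ Q then -1 else 1

lemma sg_eq (Q : Set ℕ) (p : ℕ) : sg Q p = 1 ∨ sg Q p = -1 := by
  unfold sg; split_ifs <;> simp

lemma list_prod_eq (f : ℕ → ℝ) (hf : ∀ p, f p = 1 ∨ f p = -1) (m : ℕ) :
    (m.primeFactorsList.map f).prod = ∏ p ∈ odds m, f p := by
  rw [Finset.prod_list_map_count]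
  have e1 : m.primeFactorsList.toFinset = m.primeFactors := rfl
  rw [e1]
  unfold odds
  rw [Finset.prod_filter]
  refine prod_congr rfl (fun p _ => ?_)
  rw [Nat.primeFactorsList_count_eq]
  rcases hf p with h | h
  · rw [h]; simp
  · rw [h]
    split_ifs with ho
    · exact ho.neg_one_pow
    · exact (Nat.not_odd_iff_even.1 ho).neg_one_pow

lemma lam_eq (Q : Set ℕ) (m : ℕ) :
    lam Q m = (-1) ^ (m.primeFactorsList.length) * ∏ p ∈ odds m, sg Q p := by
  classical
  rw [← list_prod_eq (sg Q) (sg_eq Q)]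
  unfold lam
  have : ∀ l : List ℕ, (l.map (fun p => if p ∈ Q then (1 : ℝ) else -1)).prod =
      (-1) ^ l.length * (l.map (sg Q)).prod := by
    intro l
    induction l with
    | nil => simp
    | cons a l ih =>
      rw [List.map_cons, List.prod_cons, List.map_cons, List.prod_cons, ih, List.length_cons]
      by_cases h : a ∈ Q
      · have h2 : sg Q a = -1 := by unfold sg; rw [if_pos h]
        rw [if_pos h, h2]; ring
      · have h2 : sg Q a = 1 := by unfold sg; rw [if_neg h]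
        rw [if_neg h, h2]; ring
  exact this _

lemma lam_sign (Q : Set ℕ) (m : ℕ) : lam Q m = 1 ∨ lam Q m = -1 := by
  have h : |lam Q m| = 1 := by
    rw [lam_eq, abs_mul, abs_pow, abs_neg, abs_one, one_pow, one_mul, Finset.abs_prod]
    apply Finset.prod_eq_one
    intro p _
    rcases sg_eq Q p with h | h <;> rw [h] <;> norm_num
  exact eq_or_eq_neg_of_abs_eq h

variable {Ω : Type*} [MeasurableSpace Ω] {μ : Measure Ω}

lemma signs_of_set [IsProbabilityMeasure μ] (Q : Ω → Set ℕ)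
    (hm : ∀ p, MeasurableSet {ω | p ∈ Q ω}) (hi : iIndepSet (fun p => {ω | p ∈ Q ω}) μ) :
    Signs μ (fun p ω => sg (Q ω) p) := by
  have e : (fun p ω => sg (Q ω) p) =
      fun p => (fun x : ℝ => 1 - 2 * x) ∘ ({ω | p ∈ Q ω}.indicator fun _ => (1 : ℝ)) := by
    ext p ω
    unfold sg
    simp only [Function.comp]
    by_cases h : p ∈ Q ω
    · have h2 : ω ∈ {ω | p ∈ Q ω} := h
      rw [if_pos h, Set.indicator_of_mem h2]; norm_num
    · have h2 : ω ∉ {ω | p ∈ Q ω} := h
      rw [if_neg h, Set.indicator_of_notMem h2]; norm_num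
  refine ⟨?_, ?_, fun p ω => sg_eq (Q ω) p⟩
  · rw [e]
    exact (hi.iIndepFun_indicator (β := ℝ)).comp _ (fun _ => by fun_prop)
  · intro p
    have e2 : (fun ω => sg (Q ω) p) =
        (fun x : ℝ => 1 - 2 * x) ∘ ({ω | p ∈ Q ω}.indicator fun _ => (1 : ℝ)) := congrFun e p
    change Measurable (fun ω => sg (Q ω) p)
    rw [e2]
    exact (by fun_prop : Measurable (fun x : ℝ => 1 - 2 * x)).comp
      (measurable_const.indicator (hm p))

lemma th_eq [IsProbabilityMeasure μ] (Q : Ω → Set ℕ) (hm : ∀ p, MeasurableSet {ω | p ∈ Q ω})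
    (p : ℕ) : th μ (fun p ω => sg (Q ω) p) p = 1 - 2 * μ.real {ω | p ∈ Q ω} := by
  unfold th
  have e : ∀ ω, sg (Q ω) p = 1 - 2 * ({ω | p ∈ Q ω}.indicator (fun _ => (1 : ℝ)) ω) := by
    intro ω
    unfold sg
    by_cases h : p ∈ Q ω
    · have h2 : ω ∈ {ω | p ∈ Q ω} := h
      rw [if_pos h, Set.indicator_of_mem h2]; norm_num
    · have h2 : ω ∉ {ω | p ∈ Q ω} := h
      rw [if_neg h, Set.indicator_of_notMem h2]; norm_num
  simp_rw [e]
  have hint : Integrable (fun ω => ({ω | p ∈ Q ω}.indicator (fun _ => (1 : ℝ)) ω)) μ :=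
    (integrable_const 1).indicator (hm p)
  rw [integral_sub (integrable_const 1) (hint.const_mul 2), integral_const_mul,
    integral_indicator (hm p)]
  simp

lemma one_sub_abs (ε : ℝ) : 1 - |1 - 2 * ε| = 2 * min ε (1 - ε) := by
  rcases le_total ε (1 - ε) with h | h
  · rw [min_eq_left h, abs_of_nonneg (by linarith)]; ring
  · rw [min_eq_right h, abs_of_nonpos (by linarith)]; ring

/-- the window of primes, again -/
lemma MM_eq [IsProbabilityMeasure μ] (Q : Ω → Set ℕ) (hm : ∀ p, MeasurableSet {ω | p ∈ Q ω})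
    (N : ℕ) : MM (win N) (fun p => 1 - |th μ (fun p ω => sg (Q ω) p) p|) =
      2 * ∑ p ∈ win N, min (μ.real {ω | p ∈ Q ω}) (1 - μ.real {ω | p ∈ Q ω}) / p := by
  unfold MM
  rw [mul_sum]
  refine sum_congr rfl (fun p _ => ?_)
  dsimp only
  rw [th_eq Q hm, one_sub_abs]
  ring

/-- correlations over finite sets of shifts -/
theorem corr_ae [IsProbabilityMeasure μ] (Q : Ω → Set ℕ)
    (hm : ∀ p, MeasurableSet {ω | p ∈ Q ω}) (hi : iIndepSet (fun p => {ω | p ∈ Q ω}) μ)
    (hD : Tendsto (fun N => ∑ p ∈ win N,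
      min (μ.real {ω | p ∈ Q ω}) (1 - μ.real {ω | p ∈ Q ω}) / p) atTop atTop)
    (w : ℕ → ℝ) (hw : ∀ n, |w n| ≤ 1) :
    ∀ᵐ ω ∂μ, ∀ H : Finset ℕ, H.Nonempty →
      Tendsto (fun N : ℕ => (∑ n ∈ Icc 1 N, w n * ∏ a ∈ H, lam (Q ω) (n + a)) / N) atTop (𝓝 0) := by
  rw [ae_all_iff]
  intro H
  by_cases hH : H.Nonempty
  swap
  · exact Filter.Eventually.of_forall (fun ω h => absurd h hH)
  obtain ⟨k, hk⟩ : ∃ k, H.card = k + 1 := ⟨H.card - 1, by
    have := hH.card_pos; omega⟩
  set e : Fin (k + 1) ≃ H := (finCongr hk.symm).trans H.equivFin.symm with he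
  set h : Fin (k + 1) → ℕ := fun i => (e i : ℕ) with hh
  have hinj : Function.Injective h := fun i j hij => e.injective (Subtype.ext hij)
  have hFF : ∀ n, FF h n = ∏ a ∈ H, (n + a) := by
    intro n
    unfold FF
    rw [← Finset.prod_coe_sort H (fun a => n + a), ← e.prod_comp]
  set ξ : ℕ → Ω → ℝ := fun p ω => sg (Q ω) p with hξ
  have hs : Signs μ ξ := signs_of_set Q hm hi
  have hD' : Tendsto (fun N => MM (win N) (fun p => 1 - |th μ ξ p|)) atTop atTop := by
    have : (fun N => MM (win N) (fun p => 1 - |th μ ξ p|)) = fun N => 2 * ∑ p ∈ win N,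
        min (μ.real {ω | p ∈ Q ω}) (1 - μ.real {ω | p ∈ Q ω}) / p := by
      ext N
      exact MM_eq Q hm N
    rw [this]
    exact hD.const_mul_atTop (by norm_num)
  set b : ℕ → ℝ := fun n => w n * (-1) ^ ((FF h n).primeFactorsList.length) with hb
  have hb1 : ∀ n, |b n| ≤ 1 := by
    intro n
    rw [hb]
    dsimp only
    rw [abs_mul, abs_pow, abs_neg, abs_one, one_pow, mul_one]
    exact hw n
  filter_upwards [main_ae hs hD' b hb1 h hinj] with ω hω _
  refine hω.congr (fun N => ?_)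
  congr 1
  unfold SS
  refine sum_congr rfl (fun n hn => ?_)
  rw [mem_Icc] at hn
  rw [← lam_prod (Q ω) H (fun a => n + a) (fun a _ => by omega), ← hFF, lam_eq, hb]
  dsimp only
  unfold mono
  rw [hξ]
  ring

/-- all sign patterns have the expected frequency -/
theorem patterns_ae [IsProbabilityMeasure μ] (Q : Ω → Set ℕ)
    (hm : ∀ p, MeasurableSet {ω | p ∈ Q ω}) (hi : iIndepSet (fun p => {ω | p ∈ Q ω}) μ)
    (hD : Tendsto (fun N => ∑ p ∈ win N,
      min (μ.real {ω | p ∈ Q ω}) (1 - μ.real {ω | p ∈ Q ω}) / p) atTop atTop) :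
    ∀ᵐ ω ∂μ, ∀ H : Finset ℕ, ∀ s : ℕ → ℝ, (∀ a, s a = 1 ∨ s a = -1) →
      Tendsto (fun N : ℕ => (((Icc 1 N).filter
        (fun n => ∀ a ∈ H, lam (Q ω) (n + a) = s a)).card : ℝ) / N) atTop (𝓝 ((1 / 2) ^ H.card)) := by
  filter_upwards [corr_ae Q hm hi hD (fun _ => 1) (fun _ => by simp)] with ω hω
  intro H s hs
  classical
  -- the indicator as a product
  have hind : ∀ n, (if ∀ a ∈ H, lam (Q ω) (n + a) = s a then (1 : ℝ) else 0) =
      ∑ T ∈ H.powerset, ((1 / 2) ^ H.card * ∏ a ∈ T, s a) * ∏ a ∈ T, lam (Q ω) (n + a) := by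
    intro n
    have h1 : ∏ a ∈ H, ((1 / 2) * (1 + s a * lam (Q ω) (n + a))) =
        if ∀ a ∈ H, lam (Q ω) (n + a) = s a then (1 : ℝ) else 0 := by
      split_ifs with hc
      · apply prod_eq_one
        intro a ha
        rw [hc a ha]
        rcases hs a with h | h <;> rw [h] <;> norm_num
      · push Not at hc
        obtain ⟨a, ha, hne⟩ := hc
        apply prod_eq_zero ha
        rcases hs a with h | h <;> rcases lam_sign (Q ω) (n + a) with h' | h' <;>
          rw [h, h'] at hne ⊢ <;> first | exact absurd rfl hne | norm_num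
    rw [← h1, prod_mul_distrib, prod_const, Finset.prod_one_add, mul_sum]
    refine sum_congr rfl (fun T _ => ?_)
    rw [prod_mul_distrib]
    ring
  have hcount : ∀ N : ℕ, (((Icc 1 N).filter
      (fun n => ∀ a ∈ H, lam (Q ω) (n + a) = s a)).card : ℝ) / N =
      ∑ T ∈ H.powerset, ((1 / 2) ^ H.card * ∏ a ∈ T, s a) *
        ((∑ n ∈ Icc 1 N, 1 * ∏ a ∈ T, lam (Q ω) (n + a)) / N) := by
    intro N
    have h1 : (((Icc 1 N).filter
        (fun n => ∀ a ∈ H, lam (Q ω) (n + a) = s a)).card : ℝ) =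
        ∑ n ∈ Icc 1 N, if ∀ a ∈ H, lam (Q ω) (n + a) = s a then (1 : ℝ) else 0 := by
      rw [← sum_filter, sum_const, nsmul_eq_mul, mul_one]
    rw [h1]
    simp_rw [hind]
    rw [sum_comm, sum_div]
    refine sum_congr rfl (fun T _ => ?_)
    rw [← mul_sum, mul_div_assoc]
    simp
  have hlim : Tendsto (fun N : ℕ => ∑ T ∈ H.powerset, ((1 / 2) ^ H.card * ∏ a ∈ T, s a) *
        ((∑ n ∈ Icc 1 N, 1 * ∏ a ∈ T, lam (Q ω) (n + a)) / N)) atTop
      (𝓝 (∑ T ∈ H.powerset, if T = ∅ then (1 / 2 : ℝ) ^ H.card else 0)) := by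
    refine tendsto_finsetSum _ (fun T _ => ?_)
    by_cases hT : T = ∅
    · rw [if_pos hT, hT]
      simp only [prod_empty, mul_one, sum_const, Nat.card_Icc, add_tsub_cancel_right,
        nsmul_eq_mul]
      have : Tendsto (fun N : ℕ => (1 / 2 : ℝ) ^ H.card * ((N : ℝ) / N)) atTop
          (𝓝 ((1 / 2 : ℝ) ^ H.card * 1)) := by
        refine Tendsto.const_mul _ ?_
        refine tendsto_const_nhds.congr' ?_
        filter_upwards [eventually_ge_atTop 1] with N hN
        have hN0 : (N : ℝ) ≠ 0 := by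
          have : (0 : ℝ) < (N : ℝ) := by exact_mod_cast hN
          exact this.ne'
        rw [div_self hN0]
      simpa using this
    · rw [if_neg hT]
      have := (hω T (Finset.nonempty_iff_ne_empty.2 hT)).const_mul
        ((1 / 2) ^ H.card * ∏ a ∈ T, s a)
      rw [mul_zero] at this
      exact this
  have hval : (∑ T ∈ H.powerset, if T = ∅ then (1 / 2 : ℝ) ^ H.card else 0) = (1 / 2) ^ H.card := by
    rw [Finset.sum_ite_eq' H.powerset]
    simp
  rw [hval] at hlim
  exact hlim.congr (fun N => (hcount N).symm)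

end Pool.Agent.H629Chowla
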