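import Pool.Agent.H629Chowla.Lam
import Pool.Agent.Helper601.Mertens

/-! The window sum is at least half of `log log N` (Mertens). -/

set_option autoImplicit false

open Finset Filter Topology

namespace Pool.Agent.H629Chowla

lemma window_sum : ∀ᶠ N : ℕ in atTop,
    (1 / 2) * Real.log (Real.log N) ≤ ∑ p ∈ win N, (1 : ℝ) / p := by
  obtain ⟨C, hC⟩ := Pool.Agent.Helper601.Mertens.mertens_inv
  have hl2 : 0 < Real.log 2 := Real.log_pos (by norm_num)
  have hlit : Tendsto (fun L : ℕ => Real.log (L : ℝ)) atTop atTop :=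
    Real.tendsto_log_atTop.comp tendsto_natCast_atTop_atTop
  -- 2 log L ≤ L^(1/4)
  have hlo : ∀ᶠ L : ℕ in atTop, 2 * Real.log (L : ℝ) ≤ (L : ℝ) ^ (1 / 4 : ℝ) := by
    have h := (isLittleO_log_rpow_atTop (r := 1 / 4) (by norm_num)).def
      (c := 1 / 2) (by norm_num)
    have h2 := tendsto_natCast_atTop_atTop (R := ℝ) |>.eventually h
    filter_upwards [h2, eventually_ge_atTop 1] with L hL hL1
    have hL1' : (1 : ℝ) ≤ L := by exact_mod_cast hL1
    rw [Real.norm_of_nonneg (Real.log_nonneg hL1'),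
      Real.norm_of_nonneg (Real.rpow_nonneg (by linarith) _)] at hL
    linarith
  have hbig : ∀ᶠ L : ℕ in atTop, 4 * (Real.log 8 - Real.log (Real.log 2) + 2 * C +
      Real.log 2) ≤ Real.log (L : ℝ) := hlit.eventually_ge_atTop _
  have hL := log_tendsto.eventually (hlo.and (hbig.and (eventually_ge_atTop 16)))
  filter_upwards [hL, eventually_ge_atTop 16] with N hN hN16
  obtain ⟨h1, h2, h3⟩ := hN
  set L := Nat.log 2 N with hLdef
  have hLr : (16 : ℝ) ≤ L := by exact_mod_cast h3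
  have hLpos : (0 : ℝ) < L := by linarith
  have hlogL : 1 < Real.log (L : ℝ) := by
    rw [Real.lt_log_iff_exp_lt hLpos]
    have := Real.exp_one_lt_d9
    linarith
  set R := 2 ^ (L / 4) with hR
  have hR4 : R ^ 4 ≤ N := by
    calc R ^ 4 = 2 ^ (L / 4 * 4) := by rw [hR, ← pow_mul]
      _ ≤ 2 ^ L := Nat.pow_le_pow_right (by norm_num) (Nat.div_mul_le_self L 4)
      _ ≤ N := Nat.pow_log_le_self 2 (by omega)
  have hR3 : 3 ≤ R := by
    rw [hR]
    calc 3 ≤ 2 ^ 4 := by norm_num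
      _ ≤ 2 ^ (L / 4) := Nat.pow_le_pow_right (by norm_num) (by omega)
  have hY3 : 3 ≤ L ^ 2 := by nlinarith
  have hsub : ((Icc 1 R).filter Nat.Prime) \ ((Icc 1 (L ^ 2)).filter Nat.Prime) ⊆ win N := by
    intro p hp
    rw [Finset.mem_sdiff, mem_filter, mem_Icc, mem_filter, mem_Icc] at hp
    obtain ⟨⟨⟨a1, a2⟩, a3⟩, a4⟩ := hp
    rw [mem_win]
    have hp4 : p ^ 4 ≤ N := (Nat.pow_le_pow_left a2 4).trans hR4
    refine ⟨⟨a1, ?_⟩, a3, ?_, hp4⟩
    · calc p = p ^ 1 := (pow_one p).symm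
        _ ≤ p ^ 4 := Nat.pow_le_pow_right a1 (by norm_num)
        _ ≤ N := hp4
    · by_contra hcon
      exact a4 ⟨⟨a1, not_lt.1 hcon⟩, a3⟩
  have hge : ∑ p ∈ (Icc 1 R).filter Nat.Prime, (1 : ℝ) / p -
      ∑ p ∈ (Icc 1 (L ^ 2)).filter Nat.Prime, (1 : ℝ) / p ≤ ∑ p ∈ win N, (1 : ℝ) / p := by
    have hx := sum_le_sum_of_subset_of_nonneg (f := fun p : ℕ => (1 : ℝ) / p) hsub
      (fun p _ _ => by positivity)
    have hy : ∑ p ∈ (Icc 1 R).filter Nat.Prime, (1 : ℝ) / p ≤
        ∑ p ∈ ((Icc 1 R).filter Nat.Prime) \ ((Icc 1 (L ^ 2)).filter Nat.Prime), (1 : ℝ) / p +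
          ∑ p ∈ (Icc 1 (L ^ 2)).filter Nat.Prime, (1 : ℝ) / p := by
      rw [← sum_union (sdiff_disjoint)]
      refine sum_le_sum_of_subset_of_nonneg ?_ (fun p _ _ => by positivity)
      intro p hp
      by_cases hq : p ∈ (Icc 1 (L ^ 2)).filter Nat.Prime
      · exact mem_union_right _ hq
      · exact mem_union_left _ (Finset.mem_sdiff.2 ⟨hp, hq⟩)
    linarith
  have m1 := (abs_le.1 (hC R hR3)).1
  have m2 := (abs_le.1 (hC (L ^ 2) hY3)).2
  -- log log R
  have e1 : Real.log ((R : ℕ) : ℝ) = ((L / 4 : ℕ) : ℝ) * Real.log 2 := by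
    rw [hR]; push_cast; rw [Real.log_pow]
  have e2 : Real.log (((L ^ 2 : ℕ)) : ℝ) = 2 * Real.log L := by
    push_cast; rw [Real.log_pow]; norm_num
  have hq : (L : ℝ) / 8 ≤ ((L / 4 : ℕ) : ℝ) := by
    have h4 : L ≤ 8 * (L / 4) := by omega
    have : (L : ℝ) ≤ 8 * ((L / 4 : ℕ) : ℝ) := by exact_mod_cast h4
    linarith
  have l1 : Real.log L - Real.log 8 + Real.log (Real.log 2) ≤ Real.log (Real.log (R : ℕ)) := by
    rw [e1]
    have : Real.log ((L : ℝ) / 8 * Real.log 2) ≤ Real.log (((L / 4 : ℕ) : ℝ) * Real.log 2) :=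
      Real.log_le_log (by positivity) (mul_le_mul_of_nonneg_right hq hl2.le)
    rw [Real.log_mul (by positivity) hl2.ne', Real.log_div hLpos.ne' (by norm_num)] at this
    exact this
  have l2 : Real.log (Real.log ((L ^ 2 : ℕ) : ℝ)) ≤ (1 / 4) * Real.log L := by
    rw [e2]
    calc Real.log (2 * Real.log L) ≤ Real.log ((L : ℝ) ^ (1 / 4 : ℝ)) :=
          Real.log_le_log (by linarith) h1
      _ = (1 / 4) * Real.log L := Real.log_rpow hLpos _
  -- log log N
  have hN0 : (0 : ℝ) < N := by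
    have : 0 < N := by omega
    exact_mod_cast this
  have l3 : Real.log N ≤ 2 * L := by
    have h5 : (N : ℝ) < 2 ^ (L + 1) := by
      exact_mod_cast Nat.lt_pow_succ_log_self (by norm_num) N
    have h6 := Real.log_le_log hN0 h5.le
    rw [Real.log_pow] at h6
    push_cast at h6
    have h7 : Real.log 2 < 0.6931471808 := Real.log_two_lt_d9
    nlinarith
  have hlogN : 0 < Real.log N := Real.log_pos (by
    have : 1 < N := by omega
    exact_mod_cast this)
  have l4 : Real.log (Real.log N) ≤ Real.log 2 + Real.log L := by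
    rw [← Real.log_mul (by norm_num) hLpos.ne']
    exact Real.log_le_log hlogN l3
  have hl2' : Real.log 2 < 0.6931471808 := Real.log_two_lt_d9
  linarith

/-- a simple sufficient condition -/
theorem window_tendsto (δ : ℕ → ℝ) (hδ : Antitone δ) (h0 : ∀ n, 0 ≤ δ n)
    (hlim : Tendsto (fun N : ℕ => δ N * Real.log (Real.log N)) atTop atTop) (e : ℕ → ℝ)
    (he : ∀ p : ℕ, p.Prime → δ p ≤ e p) :
    Tendsto (fun N => ∑ p ∈ win N, e p / p) atTop atTop := by
  have h1 : Tendsto (fun N : ℕ => (1 / 2) * (δ N * Real.log (Real.log N))) atTop atTop :=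
    hlim.const_mul_atTop (by norm_num)
  refine tendsto_atTop_mono' _ ?_ h1
  filter_upwards [window_sum] with N hN
  calc (1 / 2) * (δ N * Real.log (Real.log N)) = δ N * ((1 / 2) * Real.log (Real.log N)) := by ring
    _ ≤ δ N * ∑ p ∈ win N, (1 : ℝ) / p := mul_le_mul_of_nonneg_left hN (h0 N)
    _ = ∑ p ∈ win N, δ N * (1 / p) := by rw [mul_sum]
    _ ≤ ∑ p ∈ win N, e p / p := by
        refine sum_le_sum (fun p hp => ?_)
        have hm := mem_win.1 hp
        have hp0 : (0 : ℝ) < p := by exact_mod_cast hm.2.1.pos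
        have h2 : δ N ≤ e p := (hδ hm.1.2).trans (he p hm.2.1)
        rw [mul_one_div]
        exact div_le_div_of_nonneg_right h2 hp0.le

end Pool.Agent.H629Chowla
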