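import Pool.Agent.H629Chowla.Sieve
import Pool.Agent.H629Chowla.Suff

/-! Choice of the parameters and asymptotics. -/

set_option autoImplicit false

open Finset Filter Topology

namespace Pool.Agent.H629Chowla

/-- lower end of the window -/
def Yf (k N : ℕ) : ℕ := (Nat.log 2 N) ^ (3 * k + 5)
/-- level of the pure sieve -/
def rf (k N : ℕ) : ℕ := 2 * (8 * (k + 1) * Nat.log 2 (Nat.log 2 N)) + 1
/-- upper end of the window -/
def yf (k N : ℕ) : ℕ := 2 ^ (Nat.log 2 N / (8 * rf k N))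
/-- the sifting primes -/
def Tf (k P0 N : ℕ) : Finset ℕ := (Icc 1 (yf k N)).filter (fun p => p.Prime ∧ P0 < p)
/-- the window -/
def Pf (k P0 N : ℕ) : Finset ℕ := (Icc 1 (yf k N)).filter (fun p => p.Prime ∧ P0 < p ∧ Yf k N < p)

/-- `⌊log₂ N⌋` as a real number -/
noncomputable def l1 (N : ℕ) : ℝ := (Nat.log 2 N : ℕ)

lemma l1_tendsto : Tendsto l1 atTop atTop := tendsto_natCast_atTop_atTop.comp log_tendsto

lemma l2_tendsto : Tendsto (fun N => Real.log (l1 N)) atTop atTop :=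
  Real.tendsto_log_atTop.comp l1_tendsto

lemma l3_tendsto : Tendsto (fun N => Real.log (Real.log (l1 N))) atTop atTop :=
  Real.tendsto_log_atTop.comp l2_tendsto

lemma rf_pos (k N : ℕ) : 0 < rf k N := by unfold rf; omega

lemma yf_pos (k N : ℕ) : 1 ≤ yf k N := Nat.one_le_two_pow

lemma yf_pow (k N : ℕ) : (yf k N) ^ (2 * rf k N) ≤ 2 ^ (Nat.log 2 N / 4) := by
  unfold yf
  rw [← pow_mul]
  apply Nat.pow_le_pow_right (by norm_num)
  rw [Nat.le_div_iff_mul_le (by norm_num)]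
  calc Nat.log 2 N / (8 * rf k N) * (2 * rf k N) * 4
      = Nat.log 2 N / (8 * rf k N) * (8 * rf k N) := by ring
    _ ≤ Nat.log 2 N := Nat.div_mul_le_self _ _

lemma yf_le (k N : ℕ) : yf k N ≤ 2 ^ (Nat.log 2 N / 4) := by
  calc yf k N = (yf k N) ^ 1 := (pow_one _).symm
    _ ≤ (yf k N) ^ (2 * rf k N) := Nat.pow_le_pow_right (yf_pos k N) (by have := rf_pos k N; omega)
    _ ≤ _ := yf_pow k N

/-- size of `r` -/
lemma rf_bounds (k : ℕ) : ∀ᶠ N : ℕ in atTop,
    16 * ((k : ℝ) + 1) * (Real.log (l1 N) - 1) ≤ rf k N ∧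
      (rf k N : ℝ) ≤ 32 * ((k : ℝ) + 1) * Real.log (l1 N) := by
  filter_upwards [log_tendsto.eventually_ge_atTop 2, l2_tendsto.eventually_ge_atTop 1] with N hN h1
  set L := Nat.log 2 N with hL
  have hl : l1 N = (L : ℝ) := rfl
  have hL0 : (0 : ℝ) < L := by
    have : 0 < L := by omega
    exact_mod_cast this
  have hl2 : (0 : ℝ) < Real.log 2 := Real.log_pos (by norm_num)
  have hl2' : Real.log 2 < 0.6931471808 := Real.log_two_lt_d9
  have hl2'' : 0.6931471803 < Real.log 2 := Real.log_two_gt_d9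
  rw [hl] at h1 ⊢
  have a1 : Real.log L ≤ ((Nat.log 2 L : ℕ) + 1) * Real.log 2 := by
    have : (L : ℝ) ≤ 2 ^ (Nat.log 2 L + 1) := by
      exact_mod_cast (Nat.lt_pow_succ_log_self (by norm_num) L).le
    have h := Real.log_le_log hL0 this
    rw [Real.log_pow] at h
    push_cast at h
    exact h
  have a2 : ((Nat.log 2 L : ℕ) : ℝ) * Real.log 2 ≤ Real.log L := by
    have : (2 : ℝ) ^ (Nat.log 2 L) ≤ L := by
      exact_mod_cast Nat.pow_log_le_self 2 (by omega)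
    have h := Real.log_le_log (by positivity) this
    rw [Real.log_pow] at h
    exact h
  have hk : (0 : ℝ) ≤ k := Nat.cast_nonneg k
  have e : (rf k N : ℝ) = 16 * ((k : ℝ) + 1) * (Nat.log 2 L : ℕ) + 1 := by
    unfold rf
    rw [← hL]
    push_cast
    ring
  rw [e]
  set m : ℝ := ((Nat.log 2 L : ℕ) : ℝ) with hm
  have hm0 : 0 ≤ m := Nat.cast_nonneg _
  have b1 : Real.log L - 1 ≤ m := by nlinarith
  have b2 : m ≤ 1.5 * Real.log L := by nlinarith
  constructor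
  · nlinarith [mul_le_mul_of_nonneg_left b1 (show (0 : ℝ) ≤ 16 * ((k : ℝ) + 1) by positivity)]
  · nlinarith [mul_le_mul_of_nonneg_left b2 (show (0 : ℝ) ≤ 16 * ((k : ℝ) + 1) by positivity),
      mul_nonneg hk (by linarith : (0 : ℝ) ≤ Real.log L)]

/-- size of `y` -/
lemma yf_bounds (k : ℕ) : ∃ C : ℝ, ∀ᶠ N : ℕ in atTop, 3 ≤ yf k N ∧
    Real.log (l1 N) - Real.log (Real.log (l1 N)) - C ≤ Real.log (Real.log (yf k N)) ∧
      Real.log (Real.log (yf k N)) ≤ Real.log (l1 N) := by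
  set c : ℝ := Real.log 2 / (512 * ((k : ℝ) + 1)) with hc
  have hl2 : (0 : ℝ) < Real.log 2 := Real.log_pos (by norm_num)
  have hl2' : Real.log 2 < 0.6931471808 := Real.log_two_lt_d9
  have hc0 : 0 < c := by rw [hc]; positivity
  refine ⟨-Real.log c, ?_⟩
  -- log l = o(l)
  have hlo : ∀ᶠ N : ℕ in atTop, 1024 * ((k : ℝ) + 1) * Real.log (l1 N) ≤ l1 N := by
    have h := (Real.isLittleO_log_id_atTop).def
      (c := 1 / (1024 * ((k : ℝ) + 1))) (by positivity)
    have h2 := l1_tendsto.eventually h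
    filter_upwards [h2, l1_tendsto.eventually_ge_atTop 1, l2_tendsto.eventually_ge_atTop 1]
      with N hN h1 h3
    rw [Real.norm_of_nonneg (by linarith), id, Real.norm_of_nonneg (by linarith),
      one_div, inv_mul_eq_div, le_div_iff₀ (by positivity)] at hN
    linarith
  filter_upwards [rf_bounds k, hlo, l2_tendsto.eventually_ge_atTop 1,
    l1_tendsto.eventually_ge_atTop 1] with N hr hlo h1 h0
  obtain ⟨-, hr⟩ := hr
  set L := Nat.log 2 N with hL
  have hl : l1 N = (L : ℝ) := rfl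
  rw [hl] at hr hlo h1 h0 ⊢
  have hlL : 0 < Real.log (L : ℝ) := by linarith
  have hr0 : (0 : ℝ) < rf k N := by exact_mod_cast rf_pos k N
  have ey : Real.log (yf k N : ℕ) = ((L / (8 * rf k N) : ℕ) : ℝ) * Real.log 2 := by
    unfold yf
    push_cast
    rw [Real.log_pow]
  have d1 := div_ge L (8 * rf k N) (by have := rf_pos k N; omega)
  push_cast at d1
  have d2 : (L : ℝ) / (256 * ((k : ℝ) + 1) * Real.log L) ≤ (L : ℝ) / (8 * rf k N) := by
    apply div_le_div_of_nonneg_left (by linarith) (by positivity)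
    linarith
  have d3 : (4 : ℝ) ≤ (L : ℝ) / (256 * ((k : ℝ) + 1) * Real.log L) := by
    rw [le_div_iff₀ (by positivity)]
    linarith
  have d4 : (L : ℝ) / (512 * ((k : ℝ) + 1) * Real.log L) =
      (L : ℝ) / (256 * ((k : ℝ) + 1) * Real.log L) / 2 := by
    field_simp
    norm_num
  have d5 : (L : ℝ) / (512 * ((k : ℝ) + 1) * Real.log L) ≤ ((L / (8 * rf k N) : ℕ) : ℝ) := by
    rw [d4]; linarith
  have d6 : 2 ≤ L / (8 * rf k N) := by
    have : (2 : ℝ) ≤ ((L / (8 * rf k N) : ℕ) : ℝ) := by rw [d4] at d5; linarith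
    exact_mod_cast this
  refine ⟨?_, ?_, ?_⟩
  · unfold yf
    calc 3 ≤ 2 ^ 2 := by norm_num
      _ ≤ 2 ^ (Nat.log 2 N / (8 * rf k N)) := Nat.pow_le_pow_right (by norm_num) d6
  · rw [ey]
    have h2 : c * L / Real.log L ≤ ((L / (8 * rf k N) : ℕ) : ℝ) * Real.log 2 := by
      have e2 : c * L / Real.log L =
          (L : ℝ) / (512 * ((k : ℝ) + 1) * Real.log L) * Real.log 2 := by
        rw [hc]; field_simp
      rw [e2]
      exact mul_le_mul_of_nonneg_right d5 hl2.le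
    have h3 := Real.log_le_log (by positivity) h2
    rw [Real.log_div (by positivity) hlL.ne', Real.log_mul hc0.ne' (by linarith)] at h3
    linarith
  · rw [ey]
    apply Real.log_le_log
    · have : (0 : ℝ) < ((L / (8 * rf k N) : ℕ) : ℝ) := by
        have : 0 < L / (8 * rf k N) := by omega
        exact_mod_cast this
      positivity
    · have h3 : ((L / (8 * rf k N) : ℕ) : ℝ) ≤ L := by
        exact_mod_cast Nat.div_le_self _ _
      have h4 : (0 : ℝ) ≤ ((L / (8 * rf k N) : ℕ) : ℝ) := Nat.cast_nonneg _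
      nlinarith

/-- the Mertens sums over `Tf` and `Pf` -/
lemma sums (k P0 : ℕ) : ∃ C : ℝ, ∀ᶠ N : ℕ in atTop,
    (∑ p ∈ Tf k P0 N, (1 : ℝ) / p ≤ Real.log (l1 N) + C) ∧
    (Real.log (l1 N) - Real.log (Real.log (l1 N)) - C ≤ ∑ p ∈ Tf k P0 N, (1 : ℝ) / p) ∧
    (Real.log (l1 N) - 2 * Real.log (Real.log (l1 N)) - C ≤ ∑ p ∈ Pf k P0 N, (1 : ℝ) / p) := by
  obtain ⟨C, hC⟩ := Pool.Agent.Helper601.Mertens.mertens_inv
  obtain ⟨C1, hC1⟩ := yf_bounds k
  set S0 : ℝ := ∑ p ∈ (Icc 1 P0).filter Nat.Prime, (1 : ℝ) / p with hS0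
  have hS0p : 0 ≤ S0 := sum_nonneg (fun p _ => by positivity)
  have hCp : 0 ≤ C := (abs_nonneg _).trans (hC 3 le_rfl)
  refine ⟨|C1| + 2 * C + S0 + Real.log (3 * k + 5), ?_⟩
  have hk5 : (0 : ℝ) ≤ Real.log (3 * k + 5) := Real.log_nonneg (by
    have : (0 : ℝ) ≤ k := Nat.cast_nonneg k
    linarith)
  filter_upwards [hC1, log_tendsto.eventually_ge_atTop 3, l2_tendsto.eventually_ge_atTop 1]
    with N hy hL3 hll
  obtain ⟨hy3, hy1, hy2⟩ := hy
  set L := Nat.log 2 N with hL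
  have hl : l1 N = (L : ℝ) := rfl
  rw [hl] at hll hy1 hy2 ⊢
  have hL0 : (0 : ℝ) < L := by
    have : 0 < L := by omega
    exact_mod_cast this
  have m1 := abs_le.1 (hC (yf k N) hy3)
  have hC1' := neg_abs_le C1
  have hC1'' := le_abs_self C1
  have hfull : ∀ M : ℕ, 0 ≤ ∑ p ∈ (Icc 1 M).filter Nat.Prime, (1 : ℝ) / p :=
    fun M => sum_nonneg (fun p _ => by positivity)
  have t1 : ∑ p ∈ Tf k P0 N, (1 : ℝ) / p ≤ ∑ p ∈ (Icc 1 (yf k N)).filter Nat.Prime, (1 : ℝ) / p := by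
    apply sum_le_sum_of_subset_of_nonneg
    · intro p hp
      unfold Tf at hp
      rw [mem_filter] at hp ⊢
      exact ⟨hp.1, hp.2.1⟩
    · intro p _ _; positivity
  have t2 : ∑ p ∈ (Icc 1 (yf k N)).filter Nat.Prime, (1 : ℝ) / p ≤
      ∑ p ∈ Tf k P0 N, (1 : ℝ) / p + S0 := by
    have hsub : (Icc 1 (yf k N)).filter Nat.Prime ⊆ Tf k P0 N ∪ (Icc 1 P0).filter Nat.Prime := by
      intro p hp
      rw [mem_filter, mem_Icc] at hp
      rw [mem_union]
      by_cases hp0 : P0 < p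
      · left; unfold Tf; rw [mem_filter, mem_Icc]; exact ⟨hp.1, hp.2, hp0⟩
      · right; rw [mem_filter, mem_Icc]; exact ⟨⟨hp.1.1, not_lt.1 hp0⟩, hp.2⟩
    refine (sum_le_sum_of_subset_of_nonneg hsub (fun p _ _ => by positivity)).trans ?_
    have := sum_union_inter (s₁ := Tf k P0 N) (s₂ := (Icc 1 P0).filter Nat.Prime)
      (f := fun p : ℕ => (1 : ℝ) / p)
    have h0 : 0 ≤ ∑ p ∈ Tf k P0 N ∩ (Icc 1 P0).filter Nat.Prime, (1 : ℝ) / p :=
      sum_nonneg (fun p _ => by positivity)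
    linarith
  have t3 : ∑ p ∈ Tf k P0 N, (1 : ℝ) / p ≤ ∑ p ∈ Pf k P0 N, (1 : ℝ) / p +
      ∑ p ∈ (Icc 1 (Yf k N)).filter Nat.Prime, (1 : ℝ) / p := by
    have hsub : Tf k P0 N ⊆ Pf k P0 N ∪ (Icc 1 (Yf k N)).filter Nat.Prime := by
      intro p hp
      unfold Tf at hp
      rw [mem_filter, mem_Icc] at hp
      rw [mem_union]
      by_cases hp0 : Yf k N < p
      · left; unfold Pf; rw [mem_filter, mem_Icc]; exact ⟨hp.1, hp.2.1, hp.2.2, hp0⟩
      · right; rw [mem_filter, mem_Icc]; exact ⟨⟨hp.1.1, not_lt.1 hp0⟩, hp.2.1⟩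
    refine (sum_le_sum_of_subset_of_nonneg hsub (fun p _ _ => by positivity)).trans ?_
    have := sum_union_inter (s₁ := Pf k P0 N) (s₂ := (Icc 1 (Yf k N)).filter Nat.Prime)
      (f := fun p : ℕ => (1 : ℝ) / p)
    have h0 : 0 ≤ ∑ p ∈ Pf k P0 N ∩ (Icc 1 (Yf k N)).filter Nat.Prime, (1 : ℝ) / p :=
      sum_nonneg (fun p _ => by positivity)
    linarith
  have hY3 : 3 ≤ Yf k N := by
    unfold Yf
    rw [← hL]
    calc 3 ≤ L := hL3
      _ = L ^ 1 := (pow_one L).symm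
      _ ≤ L ^ (3 * k + 5) := Nat.pow_le_pow_right (by omega) (by omega)
  have m2 := abs_le.1 (hC (Yf k N) hY3)
  have eY : Real.log (Real.log (Yf k N : ℕ)) = Real.log (3 * k + 5) + Real.log (Real.log L) := by
    unfold Yf
    rw [← hL]
    push_cast
    rw [Real.log_pow]
    push_cast
    rw [Real.log_mul (by positivity) (by linarith)]
  rw [eY] at m2
  refine ⟨?_, ?_, ?_⟩
  · linarith [m1.2]
  · linarith [m1.1]
  · linarith [m1.1, m2.2]

end Pool.Agent.H629Chowla
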