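import Pool.Agent.H629Chowla.Asym

/-! The bound of the sieve tends to zero. -/

set_option autoImplicit false

open Finset Filter Topology

namespace Pool.Agent.H629Chowla

/-- the bound -/
noncomputable def RB (k P0 : ℕ) (κ : ℕ → ℝ) (N : ℕ) : ℝ :=
  (4 * l1 N) ^ k * (1 / (Yf k N : ℕ)) +
  (4 * l1 N) ^ k * ((yf k N : ℕ) / N + k * (yf k N : ℕ) * ((Nat.log 2 (N + P0) : ℕ) + 1) / N +
    3 * ((yf k N : ℕ) : ℝ) ^ (2 * rf k N) / N) +
  (4 * l1 N) ^ k * (2 * Real.exp (-(k * ∑ p ∈ Tf k P0 N, (1 : ℝ) / p + MM (Pf k P0 N) κ))) +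
  (4 * l1 N) ^ k * (2 * (((Real.exp 2)⁻¹) ^ (rf k N) *
    Real.exp (Real.exp 2 * ((k + 1) * ∑ p ∈ Tf k P0 N, (1 : ℝ) / p))))

lemma four_pow (k : ℕ) {l : ℝ} (hl : 0 < l) :
    (4 * l) ^ k = Real.exp (k * (Real.log 4 + Real.log l)) := by
  rw [Real.exp_nat_mul, Real.exp_add, Real.exp_log (by norm_num), Real.exp_log hl]

lemma RB_tendsto (k P0 : ℕ) (κ : ℕ → ℝ)
    (hM : Tendsto (fun N => MM (Pf k P0 N) κ - k * Real.log (Real.log (l1 N))) atTop atTop) :
    Tendsto (RB k P0 κ) atTop (𝓝 0) := by
  obtain ⟨C, hC⟩ := sums k P0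
  have hinv : Tendsto (fun N => (4 : ℝ) ^ k / l1 N) atTop (𝓝 0) :=
    tendsto_const_nhds.div_atTop l1_tendsto
  have q1 : Tendsto (fun N => (4 * l1 N) ^ k * (1 / ((Yf k N : ℕ) : ℝ))) atTop (𝓝 0) := by
    refine squeeze_zero' ?_ ?_ hinv
    · filter_upwards [l1_tendsto.eventually_ge_atTop 1] with N hN
      positivity
    · filter_upwards [l1_tendsto.eventually_ge_atTop 1] with N hN
      have hl0 : 0 < l1 N := by linarith
      have e : ((Yf k N : ℕ) : ℝ) = l1 N ^ (3 * k + 5) := by
        unfold Yf l1; push_cast; rfl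
      rw [e]
      have h1 : l1 N ^ (k + 1) ≤ l1 N ^ (3 * k + 5) := pow_le_pow_right₀ hN (by omega)
      calc (4 * l1 N) ^ k * (1 / l1 N ^ (3 * k + 5))
          ≤ (4 * l1 N) ^ k * (1 / l1 N ^ (k + 1)) := by
            apply mul_le_mul_of_nonneg_left _ (by positivity)
            exact one_div_le_one_div_of_le (by positivity) h1
        _ = 4 ^ k / l1 N := by
            rw [mul_pow, pow_succ]
            field_simp
  have q2 : Tendsto (fun N => (4 * l1 N) ^ k * (((yf k N : ℕ) : ℝ) / N +
      k * (yf k N : ℕ) * ((Nat.log 2 (N + P0) : ℕ) + 1) / N +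
      3 * ((yf k N : ℕ) : ℝ) ^ (2 * rf k N) / N)) atTop (𝓝 0) := by
    have hs : Tendsto (fun N : ℕ => Nat.log 2 N / 4) atTop atTop :=
      (Nat.tendsto_div_const_atTop (by norm_num)).comp log_tendsto
    have hp := (tendsto_pow_const_div_const_pow_of_one_lt (k + 1) (r := (2 : ℝ)) (by norm_num)).comp hs
    have hp2 := hp.const_mul ((28 : ℝ) ^ k * (4 + 9 * k))
    rw [mul_zero] at hp2
    refine squeeze_zero' ?_ ?_ hp2
    · filter_upwards [l1_tendsto.eventually_ge_atTop 1] with N hN
      have : 0 < l1 N := by linarith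
      positivity
    · filter_upwards [hs.eventually_ge_atTop 1, eventually_ge_atTop (P0 + 1),
        l1_tendsto.eventually_ge_atTop 1] with N hs1 hNP hl1
      set s := Nat.log 2 N / 4 with hsdef
      have hN1 : 1 ≤ N := by omega
      have hN0 : (0 : ℝ) < N := by exact_mod_cast hN1
      have hs1' : (1 : ℝ) ≤ s := by exact_mod_cast hs1
      set t : ℝ := (2 : ℝ) ^ s with ht
      have ht1 : 1 ≤ t := one_le_pow₀ (by norm_num)
      have htN : t ^ 4 ≤ N := by
        have h1 : 2 ^ (s * 4) ≤ N := by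
          calc 2 ^ (s * 4) ≤ 2 ^ (Nat.log 2 N) := Nat.pow_le_pow_right (by norm_num)
                (Nat.div_mul_le_self _ _)
            _ ≤ N := Nat.pow_log_le_self 2 (by omega)
        have h2 : ((2 ^ (s * 4) : ℕ) : ℝ) ≤ N := by exact_mod_cast h1
        rw [ht, ← pow_mul]
        push_cast at h2
        exact h2
      have hy : ((yf k N : ℕ) : ℝ) ≤ t := by
        have := yf_le k N
        rw [ht]
        exact_mod_cast this
      have hyr : ((yf k N : ℕ) : ℝ) ^ (2 * rf k N) ≤ t := by
        have := yf_pow k N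
        rw [ht]
        exact_mod_cast this
      have hl : l1 N ≤ 7 * s := by
        have h1 : Nat.log 2 N ≤ 4 * s + 3 := by omega
        have h2 : l1 N ≤ 4 * s + 3 := by
          unfold l1
          exact_mod_cast h1
        linarith
      have hlog : ((Nat.log 2 (N + P0) : ℕ) : ℝ) + 1 ≤ 9 * s := by
        have h1 : Nat.log 2 (N + P0) ≤ Nat.log 2 (N * 2) := Nat.log_mono_right (by omega)
        rw [Nat.log_mul_base (by norm_num) (by omega)] at h1
        have h2 : ((Nat.log 2 (N + P0) : ℕ) : ℝ) ≤ l1 N + 1 := by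
          unfold l1
          exact_mod_cast h1
        linarith
      have hy0 : (0 : ℝ) ≤ (yf k N : ℕ) := Nat.cast_nonneg _
      have hk : (0 : ℝ) ≤ k := Nat.cast_nonneg k
      have hdiv : t / N ≤ 1 / t := by
        rw [div_le_div_iff₀ hN0 (by linarith)]
        have : t ^ 4 = t * t * t * t := by ring
        nlinarith [mul_pos (by linarith : 0 < t) (by linarith : 0 < t),
          one_le_mul_of_one_le_of_one_le ht1 ht1]
      have hin : ((yf k N : ℕ) : ℝ) / N + k * (yf k N : ℕ) * ((Nat.log 2 (N + P0) : ℕ) + 1) / N +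
          3 * ((yf k N : ℕ) : ℝ) ^ (2 * rf k N) / N ≤ (4 + 9 * k) * s * (1 / t) := by
        have a1 : ((yf k N : ℕ) : ℝ) / N ≤ t / N := div_le_div_of_nonneg_right hy hN0.le
        have a2 : k * (yf k N : ℕ) * (((Nat.log 2 (N + P0) : ℕ) : ℝ) + 1) / N ≤
            k * (9 * s) * (t / N) := by
          rw [← mul_div_assoc]
          apply div_le_div_of_nonneg_right _ hN0.le
          calc k * (yf k N : ℕ) * (((Nat.log 2 (N + P0) : ℕ) : ℝ) + 1)
              ≤ k * t * (9 * s) := by
                apply mul_le_mul (mul_le_mul_of_nonneg_left hy hk) hlog (by positivity)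
                positivity
            _ = k * (9 * s) * t := by ring
        have a3 : 3 * ((yf k N : ℕ) : ℝ) ^ (2 * rf k N) / N ≤ 3 * (t / N) := by
          rw [← mul_div_assoc]
          exact div_le_div_of_nonneg_right (by linarith) hN0.le
        have a4 : (4 + 9 * k * s) * (t / N) ≤ (4 + 9 * k * s) * (1 / t) :=
          mul_le_mul_of_nonneg_left hdiv (by positivity)
        have a5 : (4 + 9 * (k : ℝ) * s) * (1 / t) ≤ (4 + 9 * k) * s * (1 / t) := by
          apply mul_le_mul_of_nonneg_right _ (by positivity)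
          nlinarith
        linarith
      calc (4 * l1 N) ^ k * (((yf k N : ℕ) : ℝ) / N +
            k * (yf k N : ℕ) * ((Nat.log 2 (N + P0) : ℕ) + 1) / N +
            3 * ((yf k N : ℕ) : ℝ) ^ (2 * rf k N) / N)
          ≤ (28 * (s : ℝ)) ^ k * ((4 + 9 * k) * s * (1 / t)) := by
            apply mul_le_mul _ hin (by positivity) (by positivity)
            apply pow_le_pow_left₀ (by linarith)
            linarith
        _ = (28 : ℝ) ^ k * (4 + 9 * k) * ((s : ℝ) ^ (k + 1) / 2 ^ s) := by
            rw [mul_pow, pow_succ, ht]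
            ring
  have q3 : Tendsto (fun N => (4 * l1 N) ^ k * (2 * Real.exp (-(k * ∑ p ∈ Tf k P0 N, (1 : ℝ) / p +
      MM (Pf k P0 N) κ)))) atTop (𝓝 0) := by
    have h1 : Tendsto (fun N => 2 * Real.exp (k * Real.log 4 + k * C) *
        Real.exp (-(MM (Pf k P0 N) κ - k * Real.log (Real.log (l1 N))))) atTop (𝓝 0) := by
      have := (Real.tendsto_exp_neg_atTop_nhds_zero.comp hM).const_mul
        (2 * Real.exp (k * Real.log 4 + k * C))
      rw [mul_zero] at this
      exact this
    refine squeeze_zero' ?_ ?_ h1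
    · filter_upwards [l1_tendsto.eventually_ge_atTop 1] with N hN
      have : 0 < l1 N := by linarith
      positivity
    · filter_upwards [l1_tendsto.eventually_ge_atTop 1, hC] with N hN hc
      have hl0 : 0 < l1 N := by linarith
      have hk : (0 : ℝ) ≤ k := Nat.cast_nonneg k
      rw [four_pow k hl0]
      have e : Real.exp (k * (Real.log 4 + Real.log (l1 N))) *
          (2 * Real.exp (-(k * ∑ p ∈ Tf k P0 N, (1 : ℝ) / p + MM (Pf k P0 N) κ))) =
          2 * Real.exp (k * (Real.log 4 + Real.log (l1 N)) +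
            (-(k * ∑ p ∈ Tf k P0 N, (1 : ℝ) / p + MM (Pf k P0 N) κ))) := by
        rw [Real.exp_add]; ring
      rw [e, mul_assoc, ← Real.exp_add]
      apply mul_le_mul_of_nonneg_left _ (by norm_num)
      apply Real.exp_le_exp.2
      have := mul_le_mul_of_nonneg_left hc.2.1 hk
      linarith
  have q4 : Tendsto (fun N => (4 * l1 N) ^ k * (2 * (((Real.exp 2)⁻¹) ^ (rf k N) *
      Real.exp (Real.exp 2 * ((k + 1) * ∑ p ∈ Tf k P0 N, (1 : ℝ) / p))))) atTop (𝓝 0) := by
    have h2 : Tendsto (fun N => 2 * ((4 : ℝ) ^ k / l1 N)) atTop (𝓝 0) := by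
      have := hinv.const_mul 2
      rw [mul_zero] at this
      exact this
    refine squeeze_zero' ?_ ?_ h2
    · filter_upwards [l1_tendsto.eventually_ge_atTop 1] with N hN
      have : 0 < l1 N := by linarith
      positivity
    · filter_upwards [l1_tendsto.eventually_ge_atTop 1, hC, rf_bounds k,
        l2_tendsto.eventually_ge_atTop (32 + 8 * |C|)] with N hN hc hr hll
      have hl0 : 0 < l1 N := by linarith
      have hk : (0 : ℝ) ≤ k := Nat.cast_nonneg k
      have hCa := le_abs_self C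
      have hCn := abs_nonneg C
      have he2 : Real.exp 2 ≤ 8 := by
        have h1 : Real.exp 2 = Real.exp 1 * Real.exp 1 := by
          rw [← Real.exp_add]; norm_num
        have h3 := Real.exp_one_lt_d9
        have h4 := Real.exp_pos 1
        rw [h1]
        nlinarith
      have e1 : ((Real.exp 2)⁻¹) ^ (rf k N) = Real.exp (-(2 * (rf k N : ℝ))) := by
        rw [← Real.exp_neg, ← Real.exp_nat_mul]
        congr 1
        ring
      rw [e1, four_pow k hl0, ← Real.exp_add]
      have e2 : (4 : ℝ) ^ k / l1 N = Real.exp (k * Real.log 4 - Real.log (l1 N)) := by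
        rw [Real.exp_sub, Real.exp_log hl0, Real.exp_nat_mul, Real.exp_log (by norm_num)]
      rw [e2]
      have e3 : Real.exp (k * (Real.log 4 + Real.log (l1 N))) *
          (2 * Real.exp (-(2 * (rf k N : ℝ)) + Real.exp 2 * ((k + 1) *
            ∑ p ∈ Tf k P0 N, (1 : ℝ) / p))) =
          2 * Real.exp (k * (Real.log 4 + Real.log (l1 N)) + (-(2 * (rf k N : ℝ)) +
            Real.exp 2 * ((k + 1) * ∑ p ∈ Tf k P0 N, (1 : ℝ) / p))) := by
        rw [Real.exp_add (k * (Real.log 4 + Real.log (l1 N)))]; ring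
      rw [e3]
      apply mul_le_mul_of_nonneg_left _ (by norm_num)
      apply Real.exp_le_exp.2
      set ll := Real.log (l1 N) with hlldef
      set S := ∑ p ∈ Tf k P0 N, (1 : ℝ) / p with hS
      have hS0 : 0 ≤ S := sum_nonneg (fun p _ => by positivity)
      have b1 : Real.exp 2 * ((k + 1) * S) ≤ 8 * ((k + 1) * (ll + |C|)) := by
        apply mul_le_mul he2 _ (by positivity) (by norm_num)
        apply mul_le_mul_of_nonneg_left _ (by positivity)
        linarith [hc.1]
      have b2 := hr.1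
      have b3 : ((k : ℝ) + 1) * (32 + 8 * |C|) ≤ (k + 1) * ll :=
        mul_le_mul_of_nonneg_left hll (by positivity)
      nlinarith [mul_nonneg hk (by linarith : (0 : ℝ) ≤ ll)]
  have := ((q1.add q2).add q3).add q4
  simp only [add_zero] at this
  exact this

end Pool.Agent.H629Chowla
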