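import Mathlib

/-! Counting: the second moment of a weighted number of prime divisors. -/

set_option autoImplicit false

open Finset

namespace Pool.Agent.H629Chowla

lemma div_ge (a d : ℕ) (hd : 0 < d) : (a : ℝ) / d - 1 ≤ ((a / d : ℕ) : ℝ) := by
  have h1 : a < d * (a / d + 1) := by
    have h := Nat.div_add_mod a d
    have h2 := Nat.mod_lt a hd
    rw [mul_add, mul_one]
    omega
  have h3 : (a : ℝ) < d * (((a / d : ℕ) : ℝ) + 1) := by exact_mod_cast h1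
  have hd' : (0 : ℝ) < d := by exact_mod_cast hd
  rw [sub_le_iff_le_add, div_le_iff₀ hd']
  linarith [mul_comm (d : ℝ) (((a / d : ℕ) : ℝ) + 1)]

lemma card_shift (N h d : ℕ) :
    ((Icc 1 N).filter (fun n => d ∣ n + h)).card + h / d = (N + h) / d := by
  rw [← Nat.Ioc_filter_dvd_card_eq_div (N + h) d, ← Nat.Ioc_filter_dvd_card_eq_div h d]
  have e : (Ioc 0 (N + h)).filter (fun x => d ∣ x) =
      ((Icc 1 N).filter (fun n => d ∣ n + h)).map (addRightEmbedding h) ∪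
        (Ioc 0 h).filter (fun x => d ∣ x) := by
    ext x
    simp only [mem_filter, mem_Ioc, mem_union, mem_map, mem_Icc, addRightEmbedding_apply]
    constructor
    · rintro ⟨⟨h1, h2⟩, h3⟩
      by_cases hx : x ≤ h
      · right; exact ⟨⟨h1, hx⟩, h3⟩
      · left
        refine ⟨x - h, ⟨⟨by omega, by omega⟩, ?_⟩, by omega⟩
        rwa [Nat.sub_add_cancel (by omega)]
    · rintro (⟨n, ⟨⟨h1, h2⟩, h3⟩, rfl⟩ | ⟨⟨h1, h2⟩, h3⟩)
      · exact ⟨⟨by omega, by omega⟩, h3⟩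
      · exact ⟨⟨h1, by omega⟩, h3⟩
  rw [e, card_union_of_disjoint, card_map]
  rw [disjoint_left]
  intro x hx hx2
  simp only [mem_filter, mem_Ioc, mem_map, mem_Icc, addRightEmbedding_apply] at hx hx2
  obtain ⟨n, ⟨⟨h1, h2⟩, h3⟩, rfl⟩ := hx
  omega

lemma card_le (N h d : ℕ) (hd : 0 < d) :
    (((Icc 1 N).filter (fun n => d ∣ n + h)).card : ℝ) ≤ N / d + 1 := by
  have h1 : ((((Icc 1 N).filter (fun n => d ∣ n + h)).card : ℕ) : ℝ) + ((h / d : ℕ) : ℝ) =
      (((N + h) / d : ℕ) : ℝ) := by exact_mod_cast card_shift N h d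
  have h2 : (((N + h) / d : ℕ) : ℝ) ≤ ((N + h : ℕ) : ℝ) / d := Nat.cast_div_le
  have h3 := div_ge h d hd
  have e : ((N + h : ℕ) : ℝ) / d = N / d + h / d := by push_cast; ring
  linarith

lemma card_ge (N h d : ℕ) (hd : 0 < d) :
    (N : ℝ) / d - 1 ≤ (((Icc 1 N).filter (fun n => d ∣ n + h)).card : ℝ) := by
  have h1 : ((((Icc 1 N).filter (fun n => d ∣ n + h)).card : ℕ) : ℝ) + ((h / d : ℕ) : ℝ) =
      (((N + h) / d : ℕ) : ℝ) := by exact_mod_cast card_shift N h d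
  have h2 : ((h / d : ℕ) : ℝ) ≤ (h : ℝ) / d := Nat.cast_div_le
  have h3 := div_ge (N + h) d hd
  have e : ((N + h : ℕ) : ℝ) / d = N / d + h / d := by push_cast; ring
  linarith

/-- weighted number of the primes of `P` which divide `n + h` -/
noncomputable def gg (P : Finset ℕ) (κ : ℕ → ℝ) (h n : ℕ) : ℝ :=
  ∑ p ∈ P, if p ∣ n + h then κ p else 0

/-- its mean value -/
noncomputable def MM (P : Finset ℕ) (κ : ℕ → ℝ) : ℝ := ∑ p ∈ P, κ p / p

lemma sum_gg (N h : ℕ) (P : Finset ℕ) (κ : ℕ → ℝ) :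
    ∑ n ∈ Icc 1 N, gg P κ h n = ∑ p ∈ P, κ p * (((Icc 1 N).filter (fun n => p ∣ n + h)).card : ℝ) := by
  unfold gg
  rw [sum_comm]
  refine sum_congr rfl (fun p _ => ?_)
  rw [← sum_filter, sum_const, nsmul_eq_mul, mul_comm]

lemma sum_gg_sq (N h : ℕ) (P : Finset ℕ) (κ : ℕ → ℝ) :
    ∑ n ∈ Icc 1 N, gg P κ h n ^ 2 = ∑ p ∈ P, ∑ q ∈ P, κ p * κ q *
      (((Icc 1 N).filter (fun n => p ∣ n + h ∧ q ∣ n + h)).card : ℝ) := by
  unfold gg
  have e : ∀ n, (∑ p ∈ P, if p ∣ n + h then κ p else 0) ^ 2 =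
      ∑ p ∈ P, ∑ q ∈ P, if (p ∣ n + h ∧ q ∣ n + h) then κ p * κ q else 0 := by
    intro n
    rw [pow_two, sum_mul_sum]
    refine sum_congr rfl (fun p _ => sum_congr rfl (fun q _ => ?_))
    by_cases h1 : p ∣ n + h <;> by_cases h2 : q ∣ n + h <;> simp [h1, h2]
  simp_rw [e]
  rw [sum_comm]
  refine sum_congr rfl (fun p _ => ?_)
  rw [sum_comm]
  refine sum_congr rfl (fun q _ => ?_)
  rw [← sum_filter, sum_const, nsmul_eq_mul, mul_comm]

/-- the second moment -/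
lemma tk (N h : ℕ) (P : Finset ℕ) (hP : ∀ p ∈ P, p.Prime) (κ : ℕ → ℝ) (h0 : ∀ p, 0 ≤ κ p)
    (h1 : ∀ p, κ p ≤ 1) :
    ∑ n ∈ Icc 1 N, (gg P κ h n - MM P κ) ^ 2 ≤ N * MM P κ + 3 * (P.card : ℝ) ^ 2 := by
  set M := MM P κ with hM
  have hM0 : 0 ≤ M := by
    rw [hM]; exact sum_nonneg (fun p _ => div_nonneg (h0 p) (Nat.cast_nonneg p))
  have hMc : M ≤ P.card := by
    rw [hM]
    unfold MM
    calc ∑ p ∈ P, κ p / p ≤ ∑ p ∈ P, (1 : ℝ) := by
          refine sum_le_sum (fun p hp => ?_)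
          have : (1 : ℝ) ≤ p := by exact_mod_cast (hP p hp).one_le
          rw [div_le_one (by linarith)]
          linarith [h1 p]
      _ = P.card := by simp
  have hS1 : (N : ℝ) * M - P.card ≤ ∑ n ∈ Icc 1 N, gg P κ h n := by
    rw [sum_gg]
    calc (N : ℝ) * M - P.card = ∑ p ∈ P, (N * (κ p / p) - 1) := by
          rw [sum_sub_distrib, ← mul_sum, hM]
          simp [MM]
      _ ≤ _ := by
          refine sum_le_sum (fun p hp => ?_)
          have hc := card_ge N h p (hP p hp).pos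
          have := mul_le_mul_of_nonneg_left hc (h0 p)
          have e : κ p * ((N : ℝ) / p - 1) = N * (κ p / p) - κ p := by ring
          linarith [h1 p]
  have hS2 : ∑ n ∈ Icc 1 N, gg P κ h n ^ 2 ≤ N * M ^ 2 + (P.card : ℝ) ^ 2 + N * M := by
    rw [sum_gg_sq]
    have hb : ∀ p ∈ P, ∀ q ∈ P, κ p * κ q *
        (((Icc 1 N).filter (fun n => p ∣ n + h ∧ q ∣ n + h)).card : ℝ) ≤
        N * ((κ p / p) * (κ q / q)) + 1 + (if p = q then N * (κ p / p) else 0) := by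
      intro p hp q hq
      have hk : κ p * κ q ≤ 1 := by
        calc κ p * κ q ≤ 1 * 1 := mul_le_mul (h1 p) (h1 q) (h0 q) (by norm_num)
          _ = 1 := by norm_num
      have hk0 : 0 ≤ κ p * κ q := mul_nonneg (h0 p) (h0 q)
      have hp0 : (0 : ℝ) < p := by exact_mod_cast (hP p hp).pos
      have hq0 : (0 : ℝ) < q := by exact_mod_cast (hP q hq).pos
      by_cases hpq : p = q
      · subst hpq
        rw [if_pos rfl]
        have hc := card_le N h p (hP p hp).pos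
        have e : (Icc 1 N).filter (fun n => p ∣ n + h ∧ p ∣ n + h) =
            (Icc 1 N).filter (fun n => p ∣ n + h) := by
          congr 1; ext n; simp
        rw [e]
        have h2 := mul_le_mul_of_nonneg_left hc hk0
        have h3 : κ p * κ p ≤ κ p := by nlinarith [h0 p, h1 p]
        have h4 : κ p * κ p * ((N : ℝ) / p + 1) ≤ N * (κ p / p) + 1 := by
          have h5 : κ p * κ p * ((N : ℝ) / p) ≤ κ p * ((N : ℝ) / p) :=
            mul_le_mul_of_nonneg_right h3 (by positivity)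
          have e2 : κ p * ((N : ℝ) / p) = N * (κ p / p) := by ring
          nlinarith
        have h5 : 0 ≤ N * ((κ p / p) * (κ p / p)) := by
          have := h0 p
          positivity
        linarith
      · rw [if_neg hpq]
        have hcop : Nat.Coprime p q := (Nat.coprime_primes (hP p hp) (hP q hq)).2 hpq
        have e : (Icc 1 N).filter (fun n => p ∣ n + h ∧ q ∣ n + h) =
            (Icc 1 N).filter (fun n => p * q ∣ n + h) := by
          congr 1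
          ext n
          exact ⟨fun hx => hcop.mul_dvd_of_dvd_of_dvd hx.1 hx.2,
            fun hx => ⟨dvd_of_mul_right_dvd hx, dvd_of_mul_left_dvd hx⟩⟩
        rw [e]
        have hc := card_le N h (p * q) (Nat.mul_pos (hP p hp).pos (hP q hq).pos)
        have h2 := mul_le_mul_of_nonneg_left hc hk0
        have e2 : κ p * κ q * ((N : ℝ) / ((p * q : ℕ) : ℝ) + 1) =
            N * ((κ p / p) * (κ q / q)) + κ p * κ q := by
          push_cast
          field_simp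
        linarith
    refine (sum_le_sum (fun p hp => sum_le_sum (fun q hq => hb p hp q hq))).trans (le_of_eq ?_)
    simp_rw [sum_add_distrib]
    have e1 : ∑ p ∈ P, ∑ q ∈ P, (N : ℝ) * ((κ p / p) * (κ q / q)) = N * M ^ 2 := by
      rw [hM, MM, pow_two, sum_mul_sum, mul_sum]
      refine sum_congr rfl (fun p _ => ?_)
      rw [mul_sum]
    have e2 : ∑ p ∈ P, ∑ q ∈ P, (if p = q then (N : ℝ) * (κ p / p) else 0) = N * M := by
      rw [hM, MM, mul_sum]
      refine sum_congr rfl (fun p hp => ?_)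
      rw [sum_ite_eq P p]
      simp [hp]
    rw [e1, e2]
    simp only [sum_const, nsmul_eq_mul, mul_one]
    ring
  have e : ∑ n ∈ Icc 1 N, (gg P κ h n - M) ^ 2 =
      ∑ n ∈ Icc 1 N, gg P κ h n ^ 2 - 2 * M * ∑ n ∈ Icc 1 N, gg P κ h n + N * M ^ 2 := by
    have : ∀ n, (gg P κ h n - M) ^ 2 = gg P κ h n ^ 2 - 2 * M * gg P κ h n + M ^ 2 := by
      intro n; ring
    simp_rw [this]
    rw [sum_add_distrib, sum_sub_distrib, ← mul_sum]
    simp
  rw [e]
  have hc0 : (0 : ℝ) ≤ P.card := Nat.cast_nonneg _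
  nlinarith [mul_le_mul_of_nonneg_left hS1 hM0, mul_le_mul_of_nonneg_right hMc hc0]

lemma sum_inv_sq (P : Finset ℕ) (Y : ℕ) (hY : 1 ≤ Y) (hP : ∀ p ∈ P, Y < p) :
    ∑ p ∈ P, (1 : ℝ) / (p : ℝ) ^ 2 ≤ 1 / Y := by
  obtain ⟨K, hK⟩ : ∃ K, ∀ p ∈ P, p ≤ K := ⟨P.sup id, fun p hp => le_sup (f := id) hp⟩
  have hsub : P ⊆ Ioc Y (max K Y) := fun p hp => by
    rw [mem_Ioc]; exact ⟨hP p hp, (hK p hp).trans (le_max_left _ _)⟩
  calc ∑ p ∈ P, (1 : ℝ) / (p : ℝ) ^ 2 ≤ ∑ p ∈ Ioc Y (max K Y), (1 : ℝ) / (p : ℝ) ^ 2 :=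
        sum_le_sum_of_subset_of_nonneg hsub (fun p _ _ => by positivity)
    _ = ∑ p ∈ Ioc Y (max K Y), ((p : ℝ) ^ 2)⁻¹ := by simp_rw [one_div]
    _ ≤ (Y : ℝ)⁻¹ - ((max K Y : ℕ) : ℝ)⁻¹ :=
        sum_Ioc_inv_sq_le_sub (by omega) (le_max_right _ _)
    _ ≤ 1 / Y := by
        rw [one_div]
        have : (0 : ℝ) ≤ ((max K Y : ℕ) : ℝ)⁻¹ := by positivity
        linarith

/-- the average of a function which is small when `gg` is large -/
lemma avg_le (N h Y : ℕ) (hN : 1 ≤ N) (hY : 1 ≤ Y) (P : Finset ℕ) (hP : ∀ p ∈ P, p.Prime)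
    (hPY : ∀ p ∈ P, Y < p) (hc : P.card ^ 2 ≤ N) (κ : ℕ → ℝ) (h0 : ∀ p, 0 ≤ κ p)
    (h1 : ∀ p, κ p ≤ 1) (hM : 0 < MM P κ) (v : ℕ → ℝ) (v1 : ∀ n, v n ≤ 1)
    (hv : ∀ n ∈ Icc 1 N, (∀ p ∈ P, ¬ p ^ 2 ∣ n + h) → v n ≤ Real.exp (-gg P κ h n)) :
    (∑ n ∈ Icc 1 N, v n) / N ≤ 1 / Y + 1 / Real.sqrt N + Real.exp (-(MM P κ / 2)) +
      (4 / MM P κ + 12 / MM P κ ^ 2) := by
  set M := MM P κ with hMdef
  have hN0 : (0 : ℝ) < N := by exact_mod_cast hN
  have hs0 : 0 < Real.sqrt N := Real.sqrt_pos.2 hN0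
  have hcr : (P.card : ℝ) ^ 2 ≤ N := by exact_mod_cast hc
  have hcs : (P.card : ℝ) ≤ Real.sqrt N := by
    rw [← Real.sqrt_sq (Nat.cast_nonneg P.card)]
    exact Real.sqrt_le_sqrt hcr
  -- pointwise bound
  have hpt : ∀ n ∈ Icc 1 N, v n ≤ (∑ p ∈ P, if p ^ 2 ∣ n + h then (1 : ℝ) else 0) +
      Real.exp (-(M / 2)) + (4 / M ^ 2) * (gg P κ h n - M) ^ 2 := by
    intro n hn
    have a1 : 0 ≤ ∑ p ∈ P, if p ^ 2 ∣ n + h then (1 : ℝ) else 0 :=
      sum_nonneg (fun p _ => by split_ifs <;> norm_num)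
    have a2 : 0 ≤ Real.exp (-(M / 2)) := (Real.exp_pos _).le
    have a3 : 0 ≤ (4 / M ^ 2) * (gg P κ h n - M) ^ 2 := by positivity
    by_cases hb : ∀ p ∈ P, ¬ p ^ 2 ∣ n + h
    · by_cases hg : M / 2 ≤ gg P κ h n
      · have := hv n hn hb
        have h2 : Real.exp (-gg P κ h n) ≤ Real.exp (-(M / 2)) :=
          Real.exp_le_exp.2 (by linarith)
        linarith
      · have hg' : gg P κ h n < M / 2 := not_le.1 hg
        have h3 : (M / 2) ^ 2 ≤ (gg P κ h n - M) ^ 2 := by nlinarith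
        have h4 : 1 ≤ (4 / M ^ 2) * (gg P κ h n - M) ^ 2 := by
          calc (1 : ℝ) = (4 / M ^ 2) * (M / 2) ^ 2 := by field_simp; norm_num
            _ ≤ _ := mul_le_mul_of_nonneg_left h3 (by positivity)
        linarith [v1 n]
    · push Not at hb
      obtain ⟨p, hp, hpd⟩ := hb
      have : (1 : ℝ) ≤ ∑ p ∈ P, if p ^ 2 ∣ n + h then (1 : ℝ) else 0 := by
        calc (1 : ℝ) = if p ^ 2 ∣ n + h then (1 : ℝ) else 0 := by rw [if_pos hpd]
          _ ≤ _ := single_le_sum (f := fun p => if p ^ 2 ∣ n + h then (1 : ℝ) else 0)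
              (fun q _ => by split_ifs <;> norm_num) hp
      linarith [v1 n]
  have hsum := sum_le_sum hpt
  rw [sum_add_distrib, sum_add_distrib, ← mul_sum] at hsum
  have b1 : ∑ n ∈ Icc 1 N, ∑ p ∈ P, (if p ^ 2 ∣ n + h then (1 : ℝ) else 0) ≤ N / Y + Real.sqrt N := by
    rw [sum_comm]
    have : ∀ p ∈ P, ∑ n ∈ Icc 1 N, (if p ^ 2 ∣ n + h then (1 : ℝ) else 0) ≤
        N * (1 / (p : ℝ) ^ 2) + 1 := by
      intro p hp
      rw [← sum_filter, sum_const, nsmul_eq_mul, mul_one]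
      have := card_le N h (p ^ 2) (pow_pos (hP p hp).pos 2)
      have e : (N : ℝ) / ((p ^ 2 : ℕ) : ℝ) = N * (1 / (p : ℝ) ^ 2) := by push_cast; ring
      linarith
    refine (sum_le_sum this).trans ?_
    rw [sum_add_distrib, ← mul_sum]
    have h2 := mul_le_mul_of_nonneg_left (sum_inv_sq P Y hY hPY) hN0.le
    have e2 : (N : ℝ) * (1 / Y) = N / Y := by ring
    simp only [sum_const, nsmul_eq_mul, mul_one]
    linarith
  have b2 : ∑ n ∈ Icc 1 N, Real.exp (-(M / 2)) = N * Real.exp (-(M / 2)) := by simp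
  have b3 := tk N h P hP κ h0 h1
  rw [← hMdef] at b3
  have b4 : (4 / M ^ 2) * ∑ n ∈ Icc 1 N, (gg P κ h n - M) ^ 2 ≤ N * (4 / M + 12 / M ^ 2) := by
    calc (4 / M ^ 2) * ∑ n ∈ Icc 1 N, (gg P κ h n - M) ^ 2
        ≤ (4 / M ^ 2) * (N * M + 3 * N) := by
          apply mul_le_mul_of_nonneg_left _ (by positivity)
          linarith
      _ = N * (4 / M + 12 / M ^ 2) := by field_simp; ring
  rw [b2] at hsum
  rw [div_le_iff₀ hN0]
  have e5 : (1 / (Y : ℝ) + 1 / Real.sqrt N + Real.exp (-(M / 2)) + (4 / M + 12 / M ^ 2)) * N =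
      N / Y + N / Real.sqrt N + N * Real.exp (-(M / 2)) + N * (4 / M + 12 / M ^ 2) := by ring
  have e6 : (N : ℝ) / Real.sqrt N = Real.sqrt N := Real.div_sqrt
  rw [e5, e6]
  linarith

end Pool.Agent.H629Chowla
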