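import Pool.Agent.H629Chowla.PolyPat
import Pool.Agent.Helper601.Mertens

/-! A deterministic set of sign changes. -/

set_option autoImplicit false

open MeasureTheory ProbabilityTheory Finset Filter Topology Polynomial

namespace Pool.Agent.H629Chowla

/-- the twice iterated binary logarithm -/
def ell (n : ℕ) : ℕ := Nat.log 2 (Nat.log 2 n)

lemma ell_mono : Monotone ell := fun _ _ h => Nat.log_mono_right (Nat.log_mono_right h)

/-- the probability of a sign change -/
noncomputable def dd (n : ℕ) : ℝ := 1 / (2 * Real.sqrt ((ell n : ℝ) + 1))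

lemma dd_anti : Antitone dd := by
  intro a b h
  unfold dd
  have h1 : (ell a : ℝ) ≤ ell b := by exact_mod_cast ell_mono h
  apply one_div_le_one_div_of_le
  · positivity
  · have := Real.sqrt_le_sqrt (by linarith : (ell a : ℝ) + 1 ≤ ell b + 1)
    linarith

lemma dd_nonneg (n : ℕ) : 0 ≤ dd n := by unfold dd; positivity

lemma one_le_s (n : ℕ) : 1 ≤ Real.sqrt ((ell n : ℝ) + 1) := by
  rw [Real.one_le_sqrt]
  have : (0 : ℝ) ≤ ell n := Nat.cast_nonneg _
  linarith

lemma dd_le (n : ℕ) : dd n ≤ 1 / 2 := by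
  unfold dd
  have := one_le_s n
  rw [div_le_div_iff₀ (by positivity) (by norm_num)]
  linarith

lemma loglog_ge (N : ℕ) (hN : 2 ≤ N) :
    (ell N : ℝ) * Real.log 2 + Real.log (Real.log 2) ≤ Real.log (Real.log N) := by
  have h1 : 2 ^ (Nat.log 2 N) ≤ N := Nat.pow_log_le_self 2 (by omega)
  have hl : 1 ≤ Nat.log 2 N := Nat.log_pos (by norm_num) hN
  have h2 : 2 ^ (ell N) ≤ Nat.log 2 N := Nat.pow_log_le_self 2 (by omega)
  have hl2 : 0 < Real.log 2 := Real.log_pos (by norm_num)
  have h3 : ((Nat.log 2 N : ℕ) : ℝ) * Real.log 2 ≤ Real.log N := by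
    have : Real.log ((2 : ℝ) ^ (Nat.log 2 N)) ≤ Real.log N :=
      Real.log_le_log (by positivity) (by exact_mod_cast h1)
    rwa [Real.log_pow] at this
  have h4 : (2 : ℝ) ^ (ell N) * Real.log 2 ≤ Real.log N := by
    have : (2 : ℝ) ^ (ell N) ≤ (Nat.log 2 N : ℕ) := by exact_mod_cast h2
    nlinarith
  have h5 := Real.log_le_log (by positivity) h4
  rwa [Real.log_mul (by positivity) hl2.ne', Real.log_pow] at h5

lemma ell_tendsto : Tendsto ell atTop atTop := log_tendsto.comp log_tendsto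

lemma dd_growth : Tendsto (fun N : ℕ => dd N * Real.log (Real.log N)) atTop atTop := by
  have hl2 : 0 < Real.log 2 := Real.log_pos (by norm_num)
  have hll : Real.log (Real.log 2) ≤ 0 :=
    Real.log_nonpos hl2.le (by linarith [Real.log_two_lt_d9])
  set κ : ℝ := Real.log 2 - Real.log (Real.log 2) with hκ
  have hκ0 : 0 ≤ κ := by rw [hκ]; linarith
  have hs : Tendsto (fun N : ℕ => Real.sqrt ((ell N : ℝ) + 1)) atTop atTop := by
    apply Real.tendsto_sqrt_atTop.comp
    exact tendsto_atTop_add_const_right _ _ (tendsto_natCast_atTop_atTop.comp ell_tendsto)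
  have h1 : Tendsto (fun N : ℕ => (Real.log 2 / 2) * Real.sqrt ((ell N : ℝ) + 1) + (-(κ / 2)))
      atTop atTop := tendsto_atTop_add_const_right _ _ (hs.const_mul_atTop (by positivity))
  refine tendsto_atTop_mono' _ ?_ h1
  filter_upwards [eventually_ge_atTop 2] with N hN
  have h2 := loglog_ge N hN
  have s1 := one_le_s N
  set s := Real.sqrt ((ell N : ℝ) + 1) with hsdef
  have hs0 : 0 < s := by linarith
  have hss : s * s = (ell N : ℝ) + 1 := Real.mul_self_sqrt (by positivity)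
  have h3 : s * s * Real.log 2 - κ ≤ Real.log (Real.log N) := by
    rw [hss, hκ]; linarith
  unfold dd
  rw [← hsdef]
  have h4 : 1 / (2 * s) * (s * s * Real.log 2 - κ) ≤ 1 / (2 * s) * Real.log (Real.log N) :=
    mul_le_mul_of_nonneg_left h3 (by positivity)
  have h5 : 1 / (2 * s) * (s * s * Real.log 2 - κ) = (Real.log 2 / 2) * s - (κ / 2) * (1 / s) := by
    field_simp
  have h6 : (κ / 2) * (1 / s) ≤ κ / 2 := by
    have : 1 / s ≤ 1 := by rw [div_le_one hs0]; exact s1
    have := mul_le_mul_of_nonneg_left this (by positivity : (0 : ℝ) ≤ κ / 2)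
    linarith
  linarith

/-- the reference points -/
def NN (j : ℕ) : ℕ := 2 ^ (2 ^ (2 ^ j))

lemma ell_NN (j : ℕ) : ell (NN j) = 2 ^ j := by
  unfold ell NN
  rw [Nat.log_pow (by norm_num), Nat.log_pow (by norm_num)]

lemma NN_ge (j : ℕ) : 4 ≤ NN j := by
  unfold NN
  have h1 : 1 ≤ 2 ^ j := Nat.one_le_two_pow
  calc 4 = 2 ^ (2 ^ 1) := by norm_num
    _ ≤ 2 ^ (2 ^ (2 ^ j)) :=
      Nat.pow_le_pow_right (by norm_num) (Nat.pow_le_pow_right (by norm_num) h1)

lemma loglog_NN (j : ℕ) : Real.log (Real.log (NN j)) ≤ 2 ^ j := by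
  have hl2 : 0 < Real.log 2 := Real.log_pos (by norm_num)
  have hll : Real.log (Real.log 2) ≤ 0 :=
    Real.log_nonpos hl2.le (by linarith [Real.log_two_lt_d9])
  unfold NN
  push_cast
  rw [Real.log_pow]
  push_cast
  rw [Real.log_mul (by positivity) hl2.ne', Real.log_pow]
  push_cast
  have h1 : (2 : ℝ) ^ j * Real.log 2 ≤ 2 ^ j * 1 :=
    mul_le_mul_of_nonneg_left (by linarith [Real.log_two_lt_d9]) (by positivity)
  linarith

/-- the primes up to `N` -/
def PP (N : ℕ) : Finset ℕ := (Icc 1 N).filter Nat.Prime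

lemma mass_NN : ∃ K : ℝ, 0 ≤ K ∧ ∀ j : ℕ,
    ∑ p ∈ PP (NN j), dd p / p ≤ K * Real.sqrt 2 ^ j := by
  obtain ⟨C, hC⟩ := Pool.Agent.Helper601.Mertens.mertens_inv
  have hC0 : 0 ≤ C := (abs_nonneg _).trans (hC 3 le_rfl)
  have hT : ∀ j : ℕ, ∑ p ∈ PP (NN j), (1 : ℝ) / p ≤ (1 + C) * 2 ^ j := by
    intro j
    have h1 := (abs_le.1 (hC (NN j) (by have := NN_ge j; omega))).2
    have h2 := loglog_NN j
    have h3 : (1 : ℝ) ≤ 2 ^ j := one_le_pow₀ (by norm_num)
    unfold PP
    nlinarith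
  set r := Real.sqrt 2 with hr
  have hr0 : 0 < r := Real.sqrt_pos.2 (by norm_num)
  have hrr : r * r = 2 := Real.mul_self_sqrt (by norm_num)
  have hr1 : 4 / 3 ≤ r := by
    rw [hr]; apply Real.le_sqrt_of_sq_le; norm_num
  refine ⟨3 * (1 + C), by positivity, fun j => ?_⟩
  induction j with
  | zero =>
    rw [pow_zero, mul_one]
    have h1 := hT 0
    rw [pow_zero, mul_one] at h1
    have h2 : ∑ p ∈ PP (NN 0), dd p / p ≤ ∑ p ∈ PP (NN 0), (1 : ℝ) / p := by
      refine sum_le_sum (fun p _ => ?_)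
      exact div_le_div_of_nonneg_right (by linarith [dd_le p]) (Nat.cast_nonneg _)
    linarith
  | succ j ih =>
    have hsub : PP (NN j) ⊆ PP (NN (j + 1)) := by
      intro p hp
      unfold PP at hp ⊢
      rw [mem_filter, mem_Icc] at hp ⊢
      refine ⟨⟨hp.1.1, hp.1.2.trans ?_⟩, hp.2⟩
      unfold NN
      exact Nat.pow_le_pow_right (by norm_num) (Nat.pow_le_pow_right (by norm_num)
        (Nat.pow_le_pow_right (by norm_num) (Nat.le_succ j)))
    have hsplit := sum_sdiff (f := fun p : ℕ => dd p / p) hsub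
    have h1 : ∑ p ∈ PP (NN (j + 1)) \ PP (NN j), dd p / p ≤
        dd (NN j) * ∑ p ∈ PP (NN (j + 1)), (1 : ℝ) / p := by
      rw [mul_sum]
      refine (sum_le_sum (g := fun p : ℕ => dd (NN j) * (1 / (p : ℝ))) (fun p hp => ?_)).trans
        (sum_le_sum_of_subset_of_nonneg (Finset.sdiff_subset) (fun p _ _ => by
          have := dd_nonneg (NN j); positivity))
      rw [Finset.mem_sdiff] at hp
      have hlt : NN j ≤ p := by
        by_contra hcon
        apply hp.2
        have h3 := hp.1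
        unfold PP at h3 ⊢
        rw [mem_filter, mem_Icc] at h3 ⊢
        exact ⟨⟨h3.1.1, by omega⟩, h3.2⟩
      rw [mul_one_div]
      exact div_le_div_of_nonneg_right (dd_anti hlt) (Nat.cast_nonneg _)
    have h2 : dd (NN j) ≤ 1 / (2 * r ^ j) := by
      unfold dd
      rw [ell_NN]
      apply one_div_le_one_div_of_le (by positivity)
      have h3 : r ^ j ≤ Real.sqrt (((2 ^ j : ℕ) : ℝ) + 1) := by
        apply Real.le_sqrt_of_sq_le
        have : (r ^ j) ^ 2 = 2 ^ j := by rw [← pow_mul, mul_comm, pow_mul, pow_two, hrr]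
        rw [this]; push_cast; linarith
      linarith
    have h4 : dd (NN j) * ∑ p ∈ PP (NN (j + 1)), (1 : ℝ) / p ≤ (1 + C) * r ^ j := by
      calc dd (NN j) * ∑ p ∈ PP (NN (j + 1)), (1 : ℝ) / p
          ≤ (1 / (2 * r ^ j)) * ((1 + C) * 2 ^ (j + 1)) :=
            mul_le_mul h2 (hT (j + 1)) (sum_nonneg (fun p _ => by positivity)) (by positivity)
        _ = (1 + C) * r ^ j := by
            have : (2 : ℝ) ^ (j + 1) = 2 * (r ^ j * r ^ j) := by
              rw [← mul_pow, hrr, pow_succ]; ring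
            rw [this]
            field_simp
    have h5 : (1 + C) * r ^ j ≤ 3 * (1 + C) * r ^ (j + 1) - 3 * (1 + C) * r ^ j := by
      have h6 : 3 * (1 + C) * r ^ (j + 1) - 3 * (1 + C) * r ^ j =
          (1 + C) * r ^ j * (3 * (r - 1)) := by rw [pow_succ]; ring
      rw [h6]
      have h7 : 0 ≤ (1 + C) * r ^ j := by positivity
      nlinarith
    linarith

end Pool.Agent.H629Chowla
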