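import Pool.Agent.H629Chowla.Exist

/-! A deterministic set of sign changes: the random construction. -/

set_option autoImplicit false

open MeasureTheory ProbabilityTheory Finset Filter Topology Polynomial

namespace Pool.Agent.H629Chowla

/-- uniform distributions -/
noncomputable def PI (_ : ℕ) : Measure ℝ := volume.restrict (Set.Icc 0 1)

instance (i : ℕ) : IsProbabilityMeasure (PI i) := ⟨by unfold PI; simp⟩

/-- the product measure -/
noncomputable def MU : Measure (ℕ → ℝ) := Measure.infinitePi PI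

instance : IsProbabilityMeasure MU := by unfold MU; infer_instance

/-- the random set -/
def QQ (ω : ℕ → ℝ) : Set ℕ := {p | ω p ≤ dd p}

lemma QQ_meas (p : ℕ) : MeasurableSet {ω : ℕ → ℝ | p ∈ QQ ω} :=
  measurableSet_le (measurable_pi_apply p) measurable_const

lemma QQ_real (p : ℕ) : MU.real {ω | p ∈ QQ ω} = dd p := by
  have h1 : {ω : ℕ → ℝ | p ∈ QQ ω} = Function.eval p ⁻¹' (Set.Iic (dd p)) := rfl
  have h2 := (measurePreserving_eval_infinitePi PI p).measure_preimage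
    (s := Set.Iic (dd p)) measurableSet_Iic.nullMeasurableSet
  rw [h1, Measure.real]
  change (Measure.infinitePi PI (Function.eval p ⁻¹' (Set.Iic (dd p)))).toReal = _
  rw [h2]
  unfold PI
  rw [Measure.restrict_apply measurableSet_Iic]
  have : Set.Iic (dd p) ∩ Set.Icc (0 : ℝ) 1 = Set.Icc 0 (dd p) := by
    ext x
    simp only [Set.mem_inter_iff, Set.mem_Iic, Set.mem_Icc]
    have := dd_le p
    constructor
    · rintro ⟨a, b, c⟩; exact ⟨b, a⟩
    · rintro ⟨a, b⟩; exact ⟨b, a, by linarith⟩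
  rw [this, Real.volume_Icc, sub_zero, ENNReal.toReal_ofReal (dd_nonneg p)]

lemma QQ_indep : iIndepSet (fun p => {ω : ℕ → ℝ | p ∈ QQ ω}) MU := by
  rw [iIndepSet_iff_meas_biInter (fun p => QQ_meas p)]
  intro s
  have h : iIndepFun (fun (i : ℕ) (ω : ℕ → ℝ) => id (ω i)) (Measure.infinitePi PI) :=
    iIndepFun_infinitePi (X := fun _ => id) (fun _ => measurable_id)
  exact h.measure_inter_preimage_eq_mul s (sets := fun p => Set.Iic (dd p))
    (fun _ _ => measurableSet_Iic)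

open Classical in
/-- the reciprocal sum of the primes of `Q` up to `N` -/
noncomputable def ZZ (Q : Set ℕ) (N : ℕ) : ℝ :=
  ∑ p ∈ (Icc 1 N).filter (fun p => p.Prime ∧ p ∈ Q), (1 : ℝ) / p

lemma ZZ_nonneg (Q : Set ℕ) (N : ℕ) : 0 ≤ ZZ Q N := by
  unfold ZZ
  exact sum_nonneg (fun p _ => by positivity)

lemma ZZ_mono (Q : Set ℕ) : Monotone (ZZ Q) := by
  classical
  intro a b h
  unfold ZZ
  refine sum_le_sum_of_subset_of_nonneg ?_ (fun p _ _ => by positivity)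
  intro p hp
  rw [mem_filter, mem_Icc] at hp ⊢
  exact ⟨⟨hp.1.1, hp.1.2.trans h⟩, hp.2⟩

lemma ZZ_eq (ω : ℕ → ℝ) (N : ℕ) :
    ZZ (QQ ω) N = ∑ p ∈ PP N, ({ω | p ∈ QQ ω}.indicator (1 : (ℕ → ℝ) → ℝ) ω) / p := by
  classical
  unfold ZZ PP
  have e : (Icc 1 N).filter (fun p => p.Prime ∧ p ∈ QQ ω) =
      ((Icc 1 N).filter Nat.Prime).filter (fun p => p ∈ QQ ω) := by
    rw [filter_filter]
  rw [e, sum_filter (s := (Icc 1 N).filter Nat.Prime)]
  refine sum_congr rfl (fun p _ => ?_)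
  by_cases h : p ∈ QQ ω
  · have h2 : ω ∈ {ω | p ∈ QQ ω} := h
    rw [if_pos h, Set.indicator_of_mem h2]; rfl
  · have h2 : ω ∉ {ω | p ∈ QQ ω} := h
    rw [if_neg h, Set.indicator_of_notMem h2]; simp

lemma ind_meas (p : ℕ) :
    Measurable (fun ω => ({ω | p ∈ QQ ω}.indicator (1 : (ℕ → ℝ) → ℝ) ω)) :=
  measurable_one.indicator (QQ_meas p)

lemma ind_int (p : ℕ) :
    Integrable (fun ω => ({ω | p ∈ QQ ω}.indicator (1 : (ℕ → ℝ) → ℝ) ω)) MU :=
  (integrable_const (1 : ℝ)).indicator (QQ_meas p)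

lemma ZZ_meas (N : ℕ) : Measurable (fun ω => ZZ (QQ ω) N) := by
  simp_rw [ZZ_eq]
  exact Finset.measurable_fun_sum _ (fun p _ => (ind_meas p).div_const _)

lemma ZZ_int (N : ℕ) : Integrable (fun ω => ZZ (QQ ω) N) MU := by
  simp_rw [ZZ_eq]
  exact integrable_finsetSum _ (fun p _ => (ind_int p).div_const _)

lemma ZZ_integral (N : ℕ) : ∫ ω, ZZ (QQ ω) N ∂MU = ∑ p ∈ PP N, dd p / p := by
  simp_rw [ZZ_eq]
  rw [integral_finsetSum _ (fun p _ => (ind_int p).div_const _)]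
  refine sum_congr rfl (fun p _ => ?_)
  rw [integral_div, integral_indicator_one (QQ_meas p), QQ_real]

lemma ZZ_ae : ∀ᵐ ω ∂MU, Tendsto (fun j : ℕ => ZZ (QQ ω) (NN j) / 2 ^ j) atTop (𝓝 0) := by
  obtain ⟨K, hK0, hK⟩ := mass_NN
  set W : ℕ → (ℕ → ℝ) → ℝ := fun j ω => Real.sqrt (ZZ (QQ ω) (NN j) / 2 ^ j) with hW
  have hsq : ∀ j ω, W j ω ^ 2 = ZZ (QQ ω) (NN j) / 2 ^ j := fun j ω =>
    Real.sq_sqrt (div_nonneg (ZZ_nonneg _ _) (by positivity))
  have hWm : ∀ j, Measurable (W j) := fun j => ((ZZ_meas (NN j)).div_const _).sqrt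
  have hWi : ∀ j, Integrable (fun ω => W j ω ^ 2) MU := by
    intro j
    simp_rw [hsq]
    exact (ZZ_int (NN j)).div_const _
  have hr2 : Real.sqrt 2 < 2 := by
    rw [Real.sqrt_lt' (by norm_num)]; norm_num
  have hs : Summable (fun j => ∫ ω, W j ω ^ 2 ∂MU) := by
    have hg : Summable (fun j : ℕ => K * (Real.sqrt 2 / 2) ^ j) :=
      (summable_geometric_of_lt_one (by positivity) (by rw [div_lt_one (by norm_num)]; exact hr2)).mul_left _
    refine Summable.of_nonneg_of_le (fun j => integral_nonneg (fun ω => sq_nonneg _)) (fun j => ?_) hg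
    simp_rw [hsq]
    rw [integral_div, ZZ_integral, div_pow, ← mul_div_assoc]
    exact div_le_div_of_nonneg_right (hK j) (by positivity)
  filter_upwards [ae_tendsto_zero W hWm hWi hs] with ω hω
  have h2 := hω.pow 2
  rw [zero_pow two_ne_zero] at h2
  exact h2.congr (fun j => hsq j ω)

lemma ZZ_tendsto (Q : Set ℕ) (h : Tendsto (fun j : ℕ => ZZ Q (NN j) / 2 ^ j) atTop (𝓝 0)) :
    Tendsto (fun N : ℕ => ZZ Q N / Real.log (Real.log N)) atTop (𝓝 0) := by
  have hj : Tendsto (fun N => Nat.log 2 (ell N) + 1) atTop atTop :=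
    (tendsto_add_atTop_nat 1).comp (log_tendsto.comp ell_tendsto)
  have h1 := (h.comp hj).const_mul 16
  rw [mul_zero] at h1
  have hlow : ∀ N : ℕ, 2 ≤ N → 1 ≤ ell N →
      (1 / 8 : ℝ) * 2 ^ (Nat.log 2 (ell N)) ≤ Real.log (Real.log N) := by
    intro N hN he
    have a1 : 2 ^ (Nat.log 2 (ell N)) ≤ ell N := Nat.pow_log_le_self 2 (by omega)
    have a1' : (2 : ℝ) ^ (Nat.log 2 (ell N)) ≤ ell N := by exact_mod_cast a1
    have a2 := loglog_ge N hN
    have a3 : (1 : ℝ) ≤ 2 ^ (Nat.log 2 (ell N)) := one_le_pow₀ (by norm_num)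
    have hl2 := Real.log_two_gt_d9
    have hl0 : 0 < Real.log 2 := by linarith
    have a4 := Real.one_sub_inv_le_log_of_pos hl0
    have a5 : (Real.log 2)⁻¹ ≤ 1.45 := by
      rw [inv_le_comm₀ hl0 (by norm_num)]
      norm_num
      linarith
    nlinarith
  refine squeeze_zero' ?_ ?_ h1
  · filter_upwards [eventually_ge_atTop 2, ell_tendsto.eventually_ge_atTop 1] with N hN he
    have := hlow N hN he
    exact div_nonneg (ZZ_nonneg _ _) (le_trans (by positivity) this)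
  · filter_upwards [eventually_ge_atTop 2, ell_tendsto.eventually_ge_atTop 1] with N hN he
    have b1 := hlow N hN he
    set j := Nat.log 2 (ell N) with hjd
    have a2 : ell N < 2 ^ (j + 1) := Nat.lt_pow_succ_log_self (by norm_num) _
    have a3 : Nat.log 2 N < 2 ^ (2 ^ (j + 1)) := Nat.lt_pow_of_log_lt (by norm_num) a2
    have a4 : N < 2 ^ (2 ^ (2 ^ (j + 1))) := Nat.lt_pow_of_log_lt (by norm_num) a3
    have a5 : ZZ Q N ≤ ZZ Q (NN (j + 1)) := ZZ_mono Q (by unfold NN; exact a4.le)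
    have b0 : (0 : ℝ) < (1 / 8) * 2 ^ j := by positivity
    calc ZZ Q N / Real.log (Real.log N) ≤ ZZ Q (NN (j + 1)) / ((1 / 8) * 2 ^ j) :=
          div_le_div₀ (ZZ_nonneg _ _) a5 b0 b1
      _ = 16 * (ZZ Q (NN (j + 1)) / 2 ^ (j + 1)) := by
          rw [pow_succ]; field_simp; ring

/-- **a deterministic set of sign changes** -/
theorem exists_set : ∃ Q : Set ℕ,
    Tendsto (fun N : ℕ => ZZ Q N / Real.log (Real.log N)) atTop (𝓝 0) ∧
    (∀ f : ℤ[X], (¬ ∃ (c : ℤ) (g : ℤ[X]), f = C c * g ^ 2) →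
      Tendsto (fun N : ℕ => (∑ n ∈ Icc 1 N, lamZ Q (f.eval (n : ℤ))) / N) atTop (𝓝 0)) ∧
    (∀ (k : ℕ) (f : Fin k → ℤ[X]), (∀ T : Finset (Fin k), T.Nonempty →
      ¬ ∃ (c : ℤ) (g : ℤ[X]), ∏ i ∈ T, f i = C c * g ^ 2) →
      ∀ s : Fin k → ℝ, (∀ i, s i = 1 ∨ s i = -1) →
        Tendsto (fun N : ℕ => (((Icc 1 N).filter
          (fun n : ℕ => ∀ i, lamZ Q ((f i).eval (n : ℤ)) = s i)).card : ℝ) / N)
          atTop (𝓝 ((1 / 2) ^ k))) := by
  have hb : ∀ p : ℕ, p.Prime → dd p ≤ MU.real {ω | p ∈ QQ ω} ∧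
      MU.real {ω | p ∈ QQ ω} ≤ 1 - dd p := by
    intro p _
    rw [QQ_real]
    exact ⟨le_rfl, by linarith [dd_le p]⟩
  have h1 := poly_all QQ QQ_meas QQ_indep dd dd_anti dd_nonneg dd_growth hb (fun _ => 1)
    (fun _ => by simp)
  have h2 := poly_patterns QQ QQ_meas QQ_indep dd dd_anti dd_nonneg dd_growth hb
  obtain ⟨ω, hω1, hω2, hω3⟩ := (ZZ_ae.and (h1.and h2)).exists
  refine ⟨QQ ω, ZZ_tendsto _ hω1, fun f hf => ?_, hω3⟩
  have := hω2 f hf
  simpa using this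

end Pool.Agent.H629Chowla
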