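import Pool.Agent.H629Chowla.Joint2

/-! Joint correlations: the final form. -/

set_option autoImplicit false

open MeasureTheory ProbabilityTheory Finset Filter Topology

namespace Pool.Agent.H629Chowla

lemma MM_tendsto (δ : ℕ → ℝ) (hδ : Antitone δ) (h0 : ∀ n, 0 ≤ δ n)
    (hlim : Tendsto (fun N : ℕ => δ N * Real.log (Real.log N) / Real.log (Real.log (Real.log N)))
      atTop atTop) (κ : ℕ → ℝ) (hκ : ∀ p : ℕ, p.Prime → 2 * δ p ≤ κ p) (k P0 : ℕ) :
    Tendsto (fun N => MM (Pf k P0 N) κ - k * Real.log (Real.log (l1 N))) atTop atTop := by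
  obtain ⟨C, hC⟩ := sums k P0
  have hx : Tendsto (fun N : ℕ => Real.log (Real.log (Real.log (N : ℝ)))) atTop atTop :=
    Real.tendsto_log_atTop.comp (Real.tendsto_log_atTop.comp
      (Real.tendsto_log_atTop.comp tendsto_natCast_atTop_atTop))
  have hx2 : Tendsto (fun N : ℕ => Real.log (Real.log (N : ℝ))) atTop atTop :=
    Real.tendsto_log_atTop.comp (Real.tendsto_log_atTop.comp tendsto_natCast_atTop_atTop)
  refine tendsto_atTop_mono' _ ?_ hx
  have hlo : ∀ᶠ N : ℕ in atTop, 8 * Real.log (Real.log (l1 N)) ≤ Real.log (l1 N) := by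
    have h := (Real.isLittleO_log_id_atTop).def (c := 1 / 8) (by norm_num)
    have h2 := l2_tendsto.eventually h
    filter_upwards [h2, l2_tendsto.eventually_ge_atTop 1, l3_tendsto.eventually_ge_atTop 1]
      with N hN h1 h3
    rw [Real.norm_of_nonneg (by linarith), id, Real.norm_of_nonneg (by linarith)] at hN
    linarith
  filter_upwards [hC, hlo, hlim.eventually_ge_atTop (4 * ((k : ℝ) + 1)), hx.eventually_ge_atTop 1,
    hx2.eventually_ge_atTop 1, l2_tendsto.eventually_ge_atTop 1,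
    l2_tendsto.eventually_ge_atTop (4 * C), l1_tendsto.eventually_ge_atTop 1,
    eventually_ge_atTop 16] with N hc hlo hr hx1 hx21 hll1 hllC hl1 hN16
  set x := Real.log (Real.log (Real.log (N : ℝ))) with hxdef
  set ll := Real.log (l1 N) with hlldef
  have hN0 : (0 : ℝ) < N := by
    have : 0 < N := by omega
    exact_mod_cast this
  have hlogN : 0 < Real.log (N : ℝ) := Real.log_pos (by
    have : 1 < N := by omega
    exact_mod_cast this)
  have hl2' : Real.log 2 < 0.6931471808 := Real.log_two_lt_d9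
  have hl2p : 0 < Real.log 2 := Real.log_pos (by norm_num)
  have hk : (0 : ℝ) ≤ k := Nat.cast_nonneg k
  have hl0 : 0 < l1 N := by linarith
  rw [le_div_iff₀ (by linarith)] at hr
  -- comparison of the logarithms
  have c1 : Real.log (Real.log (N : ℝ)) ≤ 2 * ll := by
    have h1 := Real.log_le_log hlogN (l1_ge N hN16)
    rw [Real.log_mul (by norm_num) hl0.ne'] at h1
    linarith
  have c2 : Real.log ll ≤ Real.log 2 + x := by
    have h1 := Real.log_le_log hl0 (l1_le N (by omega))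
    rw [Real.log_mul (by norm_num) hlogN.ne'] at h1
    have h2 : ll ≤ 2 * Real.log (Real.log (N : ℝ)) := by linarith
    have h3 := Real.log_le_log (by linarith) h2
    rw [Real.log_mul (by norm_num) (by linarith)] at h3
    exact h3
  have hM : δ N * ll ≤ MM (Pf k P0 N) κ := by
    have h1 : ll / 2 ≤ ∑ p ∈ Pf k P0 N, (1 : ℝ) / p := by linarith [hc.2.2]
    calc δ N * ll = (2 * δ N) * (ll / 2) := by ring
      _ ≤ (2 * δ N) * ∑ p ∈ Pf k P0 N, (1 : ℝ) / p :=
          mul_le_mul_of_nonneg_left h1 (by linarith [h0 N])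
      _ = ∑ p ∈ Pf k P0 N, (2 * δ N) * (1 / p) := by rw [mul_sum]
      _ ≤ MM (Pf k P0 N) κ := by
          unfold MM
          refine sum_le_sum (fun p hp => ?_)
          have hpp := Pf_prop (by omega) hp
          have hp0 : (0 : ℝ) < p := by exact_mod_cast hpp.1.pos
          rw [mul_one_div]
          apply div_le_div_of_nonneg_right _ hp0.le
          have := hδ hpp.2.2.2
          linarith [hκ p hpp.1]
  have hM2 : 2 * ((k : ℝ) + 1) * x ≤ MM (Pf k P0 N) κ := by
    have h1 : δ N * Real.log (Real.log (N : ℝ)) ≤ δ N * (2 * ll) :=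
      mul_le_mul_of_nonneg_left c1 (h0 N)
    linarith
  have hkl : (k : ℝ) * Real.log ll ≤ k * (Real.log 2 + x) := mul_le_mul_of_nonneg_left c2 hk
  have hkx : (k : ℝ) * 1 ≤ k * x := mul_le_mul_of_nonneg_left hx1 hk
  have hk2 : (k : ℝ) * Real.log 2 ≤ k * 1 := mul_le_mul_of_nonneg_left (by linarith) hk
  linarith

variable {Ω : Type*} [MeasurableSpace Ω] {μ : Measure Ω}

/-- **joint correlations with the von Mangoldt function** -/
theorem joint_corr_ae [IsProbabilityMeasure μ] (Q : Ω → Set ℕ)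
    (hm : ∀ p, MeasurableSet {ω | p ∈ Q ω}) (hi : iIndepSet (fun p => {ω | p ∈ Q ω}) μ)
    (δ : ℕ → ℝ) (hδ : Antitone δ) (h0 : ∀ n, 0 ≤ δ n)
    (hlim : Tendsto (fun N : ℕ => δ N * Real.log (Real.log N) / Real.log (Real.log (Real.log N)))
      atTop atTop)
    (he : ∀ p : ℕ, p.Prime → δ p ≤ μ.real {ω | p ∈ Q ω} ∧ μ.real {ω | p ∈ Q ω} ≤ 1 - δ p)
    (w : ℕ → ℝ) (hw : ∀ n, |w n| ≤ 1) :
    ∀ᵐ ω ∂μ, ∀ A H : Finset ℕ, ¬ H ⊆ A →
      Tendsto (fun N : ℕ => (∑ n ∈ Icc 1 N, w n * (∏ a ∈ A, ArithmeticFunction.vonMangoldt (n + a)) *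
        ∏ a ∈ H, lam (Q ω) (n + a)) / N) atTop (𝓝 0) := by
  rw [ae_all_iff]
  intro A
  rw [ae_all_iff]
  intro H
  by_cases hH : ¬ H ⊆ A
  swap
  · exact Filter.Eventually.of_forall (fun ω h => absurd h hH)
  obtain ⟨x0, hx0, hx0A⟩ := Finset.not_subset.1 hH
  obtain ⟨m, hmc⟩ : ∃ m, H.card = m + 1 := ⟨H.card - 1, by
    have := Finset.card_pos.2 ⟨x0, hx0⟩; omega⟩
  set e0 : Fin (m + 1) ≃ H := (finCongr hmc.symm).trans H.equivFin.symm with he0
  set e : Fin (m + 1) ≃ H := (Equiv.swap 0 (e0.symm ⟨x0, hx0⟩)).trans e0 with hedef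
  set h : Fin (m + 1) → ℕ := fun i => (e i : ℕ) with hh
  have hh0 : h 0 = x0 := by
    rw [hh, hedef]
    simp
  have hinj : Function.Injective h := fun i j hij => e.injective (Subtype.ext hij)
  have hFF : ∀ n, FF h n = ∏ a ∈ H, (n + a) := by
    intro n
    unfold FF
    rw [← Finset.prod_coe_sort H (fun a => n + a), ← e.prod_comp]
  set ξ : ℕ → Ω → ℝ := fun p ω => sg (Q ω) p with hξ
  have hs : Signs μ ξ := signs_of_set Q hm hi
  have hM : Tendsto (fun N => MM (Pf A.card (A.sup id + H.sup id) N) (fun p => 1 - |th μ ξ p|) -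
      A.card * Real.log (Real.log (l1 N))) atTop atTop := by
    apply MM_tendsto δ hδ h0 hlim
    intro p hp
    rw [hξ, th_eq Q hm, one_sub_abs]
    have := le_min (he p hp).1 (by linarith [(he p hp).2] : δ p ≤ 1 - μ.real {ω | p ∈ Q ω})
    linarith
  have hb1 : ∀ n, |w n * LL A n * (-1) ^ ((FF h n).primeFactorsList.length)| ≤ LL A n := by
    intro n
    rw [abs_mul, abs_mul, abs_pow, abs_neg, abs_one, one_pow, mul_one,
      abs_of_nonneg (LL_nonneg A n)]
    calc |w n| * LL A n ≤ 1 * LL A n := mul_le_mul_of_nonneg_right (hw n) (LL_nonneg A n)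
      _ = LL A n := one_mul _
  have key := joint_ae hs A h hinj (by rw [hh0]; exact hx0A) (A.sup id + H.sup id)
    (fun a ha => (le_sup (f := id) ha).trans (Nat.le_add_right _ _))
    (fun i => (le_sup (f := id) (e i).2).trans (Nat.le_add_left _ _)) hM
    (fun n => w n * LL A n * (-1) ^ ((FF h n).primeFactorsList.length)) hb1
  filter_upwards [key] with ω hω _
  refine hω.congr (fun N => ?_)
  congr 1
  refine sum_congr rfl (fun n hn => ?_)
  rw [mem_Icc] at hn
  rw [← lam_prod (Q ω) H (fun a => n + a) (fun a _ => by omega), ← hFF, lam_eq]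
  unfold mono LL
  rw [hξ]
  ring

end Pool.Agent.H629Chowla
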