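import Pool.Agent.H629Chowla.Main

/-! Almost sure convergence for an arbitrary sequence of natural numbers. -/

set_option autoImplicit false

open MeasureTheory ProbabilityTheory Finset Filter Topology

namespace Pool.Agent.H629Chowla

/-- the number of dependent pairs -/
lemma pairs_gen (v : ℕ → ℕ) (D : ℝ) (N : ℕ) (hY : 1 ≤ (Nat.log 2 N) ^ 2)
    (hcard : ∀ p ∈ win N, (((Icc 1 N).filter (fun n => p ∣ v n)).card : ℝ) ≤ D * (N / p)) :
    ((((Icc 1 N) ×ˢ (Icc 1 N)).filter (fun x => ¬ Disjoint (odds (v x.1) ∩ win N)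
      (odds (v x.2) ∩ win N))).card : ℝ) ≤
      D ^ 2 * (N : ℝ) ^ 2 / ((Nat.log 2 N : ℕ) : ℝ) ^ 2 := by
  set S : ℕ → Finset ℕ := fun p => (Icc 1 N).filter (fun n => p ∣ v n) with hS
  have hsub : ((Icc 1 N) ×ˢ (Icc 1 N)).filter (fun x => ¬ Disjoint (odds (v x.1) ∩ win N)
      (odds (v x.2) ∩ win N)) ⊆ (win N).biUnion (fun p => S p ×ˢ S p) := by
    intro x hx
    rw [mem_filter, mem_product] at hx
    obtain ⟨⟨hx1, hx2⟩, hd⟩ := hx
    rw [not_disjoint_iff] at hd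
    obtain ⟨p, hp1, hp2⟩ := hd
    rw [mem_inter] at hp1 hp2
    rw [mem_biUnion]
    refine ⟨p, hp1.2, ?_⟩
    rw [mem_product, hS]
    have d1 : p ∣ v x.1 := by
      have := hp1.1
      unfold odds at this
      exact Nat.dvd_of_mem_primeFactors (mem_filter.1 this).1
    have d2 : p ∣ v x.2 := by
      have := hp2.1
      unfold odds at this
      exact Nat.dvd_of_mem_primeFactors (mem_filter.1 this).1
    exact ⟨mem_filter.2 ⟨hx1, d1⟩, mem_filter.2 ⟨hx2, d2⟩⟩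
  have h1 : ((((Icc 1 N) ×ˢ (Icc 1 N)).filter (fun x => ¬ Disjoint (odds (v x.1) ∩ win N)
      (odds (v x.2) ∩ win N))).card : ℝ) ≤ ∑ p ∈ win N, ((S p).card : ℝ) * (S p).card := by
    have := (card_le_card hsub).trans card_biUnion_le
    simp_rw [card_product] at this
    exact_mod_cast this
  refine h1.trans ?_
  have h2 : ∀ p ∈ win N, ((S p).card : ℝ) * (S p).card ≤
      D ^ 2 * (N : ℝ) ^ 2 * (1 / (p : ℝ) ^ 2) := by
    intro p hp
    have hc := hcard p hp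
    have h0 : (0 : ℝ) ≤ (S p).card := Nat.cast_nonneg _
    calc ((S p).card : ℝ) * (S p).card ≤ (D * (N / p)) * (D * (N / p)) :=
          mul_le_mul hc hc h0 (h0.trans hc)
      _ = _ := by ring
  refine (sum_le_sum h2).trans ?_
  rw [← mul_sum]
  have h3 := sum_inv_sq (win N) ((Nat.log 2 N) ^ 2) hY (fun p hp => (mem_win.1 hp).2.2.1)
  calc D ^ 2 * (N : ℝ) ^ 2 * ∑ p ∈ win N, (1 : ℝ) / (p : ℝ) ^ 2
      ≤ D ^ 2 * (N : ℝ) ^ 2 * (1 / (((Nat.log 2 N) ^ 2 : ℕ) : ℝ)) :=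
        mul_le_mul_of_nonneg_left h3 (by positivity)
    _ = _ := by push_cast; ring

variable {Ω : Type*} [MeasurableSpace Ω] {μ : Measure Ω} {ξ : ℕ → Ω → ℝ}

/-- the correlation sum -/
noncomputable def SG (ξ : ℕ → Ω → ℝ) (b : ℕ → ℝ) (v : ℕ → ℕ) (N : ℕ) (ω : Ω) : ℝ :=
  ∑ n ∈ Icc 1 N, b n * mono ξ (odds (v n)) ω

/-- its centred part -/
noncomputable def WG (μ : Measure Ω) (ξ : ℕ → Ω → ℝ) (b : ℕ → ℝ) (v : ℕ → ℕ)
    (N : ℕ) (ω : Ω) : ℝ :=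
  ∑ n ∈ Icc 1 N, b n * cen μ ξ (odds (v n) ∩ win N) (odds (v n) \ win N) ω

lemma SG_sub_WG (hs : Signs μ ξ) (b : ℕ → ℝ) (hb : ∀ n, |b n| ≤ 1) (v : ℕ → ℕ) (N : ℕ) (ω : Ω) :
    |SG ξ b v N ω - WG μ ξ b v N ω| ≤ ∑ n ∈ Icc 1 N, |Th μ ξ (odds (v n) ∩ win N)| := by
  unfold SG WG
  rw [← sum_sub_distrib]
  refine (abs_sum_le_sum_abs _ _).trans (sum_le_sum (fun n _ => ?_))
  have e : mono ξ (odds (v n)) ω =
      mono ξ (odds (v n) ∩ win N) ω * mono ξ (odds (v n) \ win N) ω := by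
    unfold mono
    exact (Finset.prod_inter_mul_prod_sdiff _ _ _).symm
  unfold cen
  rw [e]
  have e2 : b n * (mono ξ (odds (v n) ∩ win N) ω * mono ξ (odds (v n) \ win N) ω) -
      b n * (mono ξ (odds (v n) \ win N) ω *
        (mono ξ (odds (v n) ∩ win N) ω - Th μ ξ (odds (v n) ∩ win N))) =
      b n * (mono ξ (odds (v n) \ win N) ω * Th μ ξ (odds (v n) ∩ win N)) := by ring
  rw [e2, abs_mul, abs_mul, abs_mono hs, one_mul]
  calc |b n| * |Th μ ξ (odds (v n) ∩ win N)| ≤ 1 * |Th μ ξ (odds (v n) ∩ win N)| :=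
        mul_le_mul_of_nonneg_right (hb n) (abs_nonneg _)
    _ = _ := one_mul _

lemma WG_meas (hs : Signs μ ξ) (b : ℕ → ℝ) (v : ℕ → ℕ) (N : ℕ) :
    Measurable (WG μ ξ b v N) := by
  unfold WG
  exact Finset.measurable_fun_sum _ (fun n _ => (cen_meas hs _ _).const_mul _)

lemma WG_abs [IsProbabilityMeasure μ] (hs : Signs μ ξ) (b : ℕ → ℝ) (hb : ∀ n, |b n| ≤ 1) (v : ℕ → ℕ) (N : ℕ) (ω : Ω) : |WG μ ξ b v N ω| ≤ 2 * N := by
  unfold WG
  refine (abs_sum_le_sum_abs _ _).trans ?_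
  calc ∑ n ∈ Icc 1 N, |b n * cen μ ξ (odds (v n) ∩ win N) (odds (v n) \ win N) ω|
      ≤ ∑ n ∈ Icc 1 N, (2 : ℝ) := by
        refine sum_le_sum (fun n _ => ?_)
        rw [abs_mul]
        calc |b n| * |cen μ ξ (odds (v n) ∩ win N) (odds (v n) \ win N) ω| ≤ 1 * 2 :=
              mul_le_mul (hb n) (abs_cen_le hs _ _ ω) (abs_nonneg _) (by norm_num)
          _ = 2 := by norm_num
    _ = 2 * N := by simp; ring

lemma WG_second [IsProbabilityMeasure μ] (hs : Signs μ ξ) (b : ℕ → ℝ) (hb : ∀ n, |b n| ≤ 1)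
    (v : ℕ → ℕ) (D : ℝ) (N : ℕ) (hY : 1 ≤ (Nat.log 2 N) ^ 2)
    (hcard : ∀ p ∈ win N, (((Icc 1 N).filter (fun n => p ∣ v n)).card : ℝ) ≤ D * (N / p)) :
    ∫ ω, (WG μ ξ b v N ω) ^ 2 ∂μ ≤
      4 * D ^ 2 * (N : ℝ) ^ 2 / ((Nat.log 2 N : ℕ) : ℝ) ^ 2 := by
  have h1 := second_moment hs (Icc 1 N) b hb (fun n => odds (v n) ∩ win N)
    (fun n => odds (v n) \ win N) (fun n _ m _ => by
      rw [disjoint_left]
      intro a ha ha2
      rw [mem_inter] at ha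
      rw [Finset.mem_sdiff] at ha2
      exact ha2.2 ha.2)
  have h2 := pairs_gen v D N hY hcard
  unfold WG
  refine h1.trans ((mul_le_mul_of_nonneg_left h2 (by norm_num)).trans (le_of_eq ?_))
  ring

lemma ae_geom_gen [IsProbabilityMeasure μ] (hs : Signs μ ξ) (b : ℕ → ℝ) (hb : ∀ n, |b n| ≤ 1)
    (v : ℕ → ℕ) (D : ℝ)
    (hcard : ∀ᶠ N in atTop, ∀ p ∈ win N,
      (((Icc 1 N).filter (fun n => p ∣ v n)).card : ℝ) ≤ D * (N / p))
    (hdet : Tendsto (fun N : ℕ => (∑ n ∈ Icc 1 N, |Th μ ξ (odds (v n) ∩ win N)|) / N) atTop (𝓝 0))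
    {c : ℝ}
    (hc : 1 < c) :
    ∀ᵐ ω ∂μ, Tendsto (fun j : ℕ => SG ξ b v ⌊c ^ j⌋₊ ω / (⌊c ^ j⌋₊ : ℝ)) atTop (𝓝 0) := by
  obtain ⟨δ, hδ, hev⟩ := log_floor_ge hc
  set V : ℕ → Ω → ℝ := fun j ω => WG μ ξ b v ⌊c ^ j⌋₊ ω / (⌊c ^ j⌋₊ : ℝ) with hV
  have hVm : ∀ j, Measurable (V j) := fun j => (WG_meas hs b v _).div_const _
  have hVb : ∀ j ω, |V j ω| ≤ 2 := by
    intro j ω
    rw [hV]
    dsimp only
    rw [abs_div, Nat.abs_cast]
    rcases Nat.eq_zero_or_pos ⌊c ^ j⌋₊ with h0 | h0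
    · rw [h0]; simp
    · rw [div_le_iff₀ (by exact_mod_cast h0)]
      exact WG_abs hs b hb v _ ω
  have hVi : ∀ j, Integrable (fun ω => V j ω ^ 2) μ := fun j =>
    Integrable.of_bound ((hVm j).pow_const 2).aestronglyMeasurable 4
      (Filter.Eventually.of_forall (fun ω => by
        rw [Real.norm_eq_abs, abs_pow]
        calc |V j ω| ^ 2 ≤ 2 ^ 2 := pow_le_pow_left₀ (abs_nonneg _) (hVb j ω) 2
          _ = 4 := by norm_num))
  have hsum : Summable (fun j => ∫ ω, V j ω ^ 2 ∂μ) := by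
    have hg : Summable (fun j : ℕ => 4 * D ^ 2 / δ ^ 2 * (1 / (j : ℝ) ^ 2)) :=
      (Real.summable_one_div_nat_pow.2 (by norm_num)).mul_left _
    refine hg.of_norm_bounded_eventually_nat ?_
    have hfl : Tendsto (fun j : ℕ => ⌊c ^ j⌋₊) atTop atTop :=
      tendsto_nat_floor_atTop.comp (tendsto_pow_atTop_atTop_of_one_lt hc)
    filter_upwards [hev, eventually_ge_atTop 1, hfl.eventually hcard] with j hj hj1 hcj
    have hj0 : (0 : ℝ) < j := by exact_mod_cast hj1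
    have hL : (0 : ℝ) < δ * j := by positivity
    have hN0 : (0 : ℝ) < (⌊c ^ j⌋₊ : ℝ) := by exact_mod_cast hj.2
    rw [Real.norm_of_nonneg (integral_nonneg (fun ω => sq_nonneg _))]
    have hLp : 1 ≤ (Nat.log 2 ⌊c ^ j⌋₊) := by
      have : (0 : ℝ) < ((Nat.log 2 ⌊c ^ j⌋₊ : ℕ) : ℝ) := lt_of_lt_of_le hL hj.1
      have := Nat.cast_pos.1 this
      omega
    have h2 := WG_second hs b hb v D ⌊c ^ j⌋₊ (Nat.one_le_pow _ _ hLp) hcj
    have e : ∫ ω, V j ω ^ 2 ∂μ = (∫ ω, (WG μ ξ b v ⌊c ^ j⌋₊ ω) ^ 2 ∂μ) / (⌊c ^ j⌋₊ : ℝ) ^ 2 := by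
      rw [← integral_div]
      congr 1
      ext ω
      rw [hV]
      dsimp only
      rw [div_pow]
    rw [e, div_le_iff₀ (by positivity)]
    refine h2.trans ?_
    have h3 : (δ * j) ^ 2 ≤ ((Nat.log 2 ⌊c ^ j⌋₊ : ℕ) : ℝ) ^ 2 :=
      pow_le_pow_left₀ hL.le hj.1 2
    calc 4 * D ^ 2 * (⌊c ^ j⌋₊ : ℝ) ^ 2 / ((Nat.log 2 ⌊c ^ j⌋₊ : ℕ) : ℝ) ^ 2
        ≤ 4 * D ^ 2 * (⌊c ^ j⌋₊ : ℝ) ^ 2 / (δ * j) ^ 2 :=
          div_le_div_of_nonneg_left (by positivity) (by positivity) h3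
      _ = _ := by field_simp
  have hfl : Tendsto (fun j : ℕ => ⌊c ^ j⌋₊) atTop atTop :=
    tendsto_nat_floor_atTop.comp (tendsto_pow_atTop_atTop_of_one_lt hc)
  have hdet2 := hdet.comp hfl
  filter_upwards [ae_tendsto_zero V hVm hVi hsum] with ω hω
  have hsq : Tendsto (fun j : ℕ => SG ξ b v ⌊c ^ j⌋₊ ω / (⌊c ^ j⌋₊ : ℝ) - V j ω) atTop (𝓝 0) := by
    refine squeeze_zero_norm (fun j => ?_) hdet2
    rw [hV]
    dsimp only [Function.comp]
    rw [← sub_div, Real.norm_eq_abs, abs_div, Nat.abs_cast]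
    exact div_le_div_of_nonneg_right (SG_sub_WG hs b hb v _ ω) (Nat.cast_nonneg _)
  have := hsq.add hω
  simpa using this

omit [MeasurableSpace Ω] in
lemma SG_succ_add (b : ℕ → ℝ) (v : ℕ → ℕ) (N : ℕ) (ω : Ω) :
    SG ξ b v (N + 1) ω = SG ξ b v N ω + b (N + 1) * mono ξ (odds (v (N + 1))) ω := by
  unfold SG
  rw [Finset.sum_Icc_succ_top (by omega)]

/-- **almost sure convergence** -/
theorem main_gen [IsProbabilityMeasure μ] (hs : Signs μ ξ) (b : ℕ → ℝ) (hb : ∀ n, |b n| ≤ 1)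
    (v : ℕ → ℕ) (D : ℝ)
    (hcard : ∀ᶠ N in atTop, ∀ p ∈ win N,
      (((Icc 1 N).filter (fun n => p ∣ v n)).card : ℝ) ≤ D * (N / p))
    (hdet : Tendsto (fun N : ℕ => (∑ n ∈ Icc 1 N, |Th μ ξ (odds (v n) ∩ win N)|) / N)
      atTop (𝓝 0)) :
    ∀ᵐ ω ∂μ, Tendsto (fun N : ℕ => SG ξ b v N ω / N) atTop (𝓝 0) := by
  set c : ℕ → ℝ := fun i => 1 + 1 / ((i : ℝ) + 1) with hc
  have hc1 : ∀ i, 1 < c i := by
    intro i
    have : (0 : ℝ) < 1 / ((i : ℝ) + 1) := by positivity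
    rw [hc]; dsimp only; linarith
  have hcl : Tendsto c atTop (𝓝 1) := by
    have := (tendsto_one_div_add_atTop_nhds_zero_nat (𝕜 := ℝ)).const_add 1
    rw [add_zero] at this
    exact this
  have hall : ∀ᵐ ω ∂μ, ∀ i, Tendsto (fun j : ℕ => SG ξ b v ⌊c i ^ j⌋₊ ω / (⌊c i ^ j⌋₊ : ℝ))
      atTop (𝓝 0) := ae_all_iff.2 (fun i => ae_geom_gen hs b hb v D hcard hdet (hc1 i))
  filter_upwards [hall] with ω hω
  set u : ℕ → ℝ := fun N => SG ξ b v N ω + N with hu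
  have hmono : Monotone u := by
    refine monotone_nat_of_le_succ (fun N => ?_)
    rw [hu]
    dsimp only
    rw [SG_succ_add]
    have h1 : |b (N + 1) * mono ξ (odds (v (N + 1))) ω| ≤ 1 := by
      rw [abs_mul, abs_mono hs, mul_one]
      exact hb _
    have h2 := (abs_le.1 h1).1
    push_cast
    linarith
  have h1 := tendsto_div_of_monotone_of_tendsto_div_floor_pow u 1 hmono c hc1 hcl (fun i => by
    have h2 := (hω i).add_const 1
    rw [zero_add] at h2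
    refine h2.congr' ?_
    have hfl : Tendsto (fun j : ℕ => ⌊c i ^ j⌋₊) atTop atTop :=
      tendsto_nat_floor_atTop.comp (tendsto_pow_atTop_atTop_of_one_lt (hc1 i))
    filter_upwards [hfl.eventually_ge_atTop 1] with j hj
    have hj0 : (⌊c i ^ j⌋₊ : ℝ) ≠ 0 := by
      have : (0 : ℝ) < (⌊c i ^ j⌋₊ : ℝ) := by exact_mod_cast hj
      exact this.ne'
    rw [hu]
    dsimp only
    rw [add_div, div_self hj0])
  have h3 := h1.sub_const 1
  rw [sub_self] at h3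
  refine h3.congr' ?_
  filter_upwards [eventually_ge_atTop 1] with N hN
  have hN0 : (N : ℝ) ≠ 0 := by
    have : (0 : ℝ) < (N : ℝ) := by exact_mod_cast hN
    exact this.ne'
  rw [hu]
  dsimp only
  rw [add_div, div_self hN0]
  ring

end Pool.Agent.H629Chowla
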