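import Pool.Agent.H629Chowla.Window

/-! Versions for an arbitrary finite set of primes. -/

set_option autoImplicit false

open MeasureTheory ProbabilityTheory Finset Filter Topology

namespace Pool.Agent.H629Chowla

/-- the number of dependent pairs -/
lemma pairs_le' {k : ℕ} (h : Fin (k + 1) → ℕ) (N Y : ℕ) (hY : 1 ≤ Y) (P : Finset ℕ)
    (hP : ∀ p ∈ P, p.Prime ∧ Y < p ∧ p ≤ N) :
    ((((Icc 1 N) ×ˢ (Icc 1 N)).filter (fun x => ¬ Disjoint (odds (FF h x.1) ∩ P)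
      (odds (FF h x.2) ∩ P))).card : ℝ) ≤
      4 * ((k : ℝ) + 1) ^ 2 * (N : ℝ) ^ 2 / (Y : ℝ) := by
  set S : ℕ → Finset ℕ := fun p => (Icc 1 N).filter (fun n => p ∣ FF h n) with hS
  have hsub : ((Icc 1 N) ×ˢ (Icc 1 N)).filter (fun x => ¬ Disjoint (odds (FF h x.1) ∩ P)
      (odds (FF h x.2) ∩ P)) ⊆ P.biUnion (fun p => S p ×ˢ S p) := by
    intro x hx
    rw [mem_filter, mem_product] at hx
    obtain ⟨⟨hx1, hx2⟩, hd⟩ := hx
    rw [not_disjoint_iff] at hd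
    obtain ⟨p, hp1, hp2⟩ := hd
    rw [mem_inter] at hp1 hp2
    rw [mem_biUnion]
    refine ⟨p, hp1.2, ?_⟩
    rw [mem_product, hS]
    have d1 : p ∣ FF h x.1 := by
      have := hp1.1
      unfold odds at this
      exact Nat.dvd_of_mem_primeFactors (mem_filter.1 this).1
    have d2 : p ∣ FF h x.2 := by
      have := hp2.1
      unfold odds at this
      exact Nat.dvd_of_mem_primeFactors (mem_filter.1 this).1
    exact ⟨mem_filter.2 ⟨hx1, d1⟩, mem_filter.2 ⟨hx2, d2⟩⟩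
  have h1 : ((((Icc 1 N) ×ˢ (Icc 1 N)).filter (fun x => ¬ Disjoint (odds (FF h x.1) ∩ P)
      (odds (FF h x.2) ∩ P))).card : ℝ) ≤ ∑ p ∈ P, ((S p).card : ℝ) * (S p).card := by
    have := (card_le_card hsub).trans card_biUnion_le
    simp_rw [card_product] at this
    exact_mod_cast this
  refine h1.trans ?_
  have h2 : ∀ p ∈ P, ((S p).card : ℝ) * (S p).card ≤
      4 * ((k : ℝ) + 1) ^ 2 * (N : ℝ) ^ 2 * (1 / (p : ℝ) ^ 2) := by
    intro p hp
    have hm := hP p hp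
    have hc := card_dvd_FF h N p hm.1 hm.2.2
    have h0 : (0 : ℝ) ≤ (S p).card := Nat.cast_nonneg _
    calc ((S p).card : ℝ) * (S p).card ≤ (2 * (k + 1) * (N / p)) * (2 * (k + 1) * (N / p)) :=
          mul_le_mul hc hc h0 (h0.trans hc)
      _ = _ := by ring
  refine (sum_le_sum h2).trans ?_
  rw [← mul_sum]
  have h3 := sum_inv_sq P Y hY (fun p hp => (hP p hp).2.1)
  calc 4 * ((k : ℝ) + 1) ^ 2 * (N : ℝ) ^ 2 * ∑ p ∈ P, (1 : ℝ) / (p : ℝ) ^ 2
      ≤ 4 * ((k : ℝ) + 1) ^ 2 * (N : ℝ) ^ 2 * (1 / (Y : ℝ)) :=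
        mul_le_mul_of_nonneg_left h3 (by positivity)
    _ = _ := by ring

variable {Ω : Type*} [MeasurableSpace Ω] {μ : Measure Ω} {ξ : ℕ → Ω → ℝ}

lemma Th_bound' [IsProbabilityMeasure μ] (hs : Signs μ ξ) {k : ℕ} (h : Fin (k + 1) → ℕ)
    (hinj : Function.Injective h) {H : ℕ} (P : Finset ℕ) (hH : ∀ i, h i ≤ H)
    (hP : ∀ p ∈ P, p.Prime ∧ H < p)
    {n : ℕ} (hn : 1 ≤ n) (hsq : ∀ p ∈ P, ¬ p ^ 2 ∣ n + h 0) :
    |Th μ ξ (odds (FF h n) ∩ P)| ≤
      ∏ p ∈ P, (1 - if p ∣ n + h 0 then 1 - |th μ ξ p| else 0) := by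
  have hsub : P.filter (fun p => p ∣ n + h 0) ⊆ odds (FF h n) ∩ P := by
    intro p hp
    rw [mem_filter] at hp
    have hm := hP p hp.1
    have hf := factorization_FF h hinj hn hm.1 hH hm.2 hp.2 (hsq p hp.1)
    rw [mem_inter]
    refine ⟨?_, hp.1⟩
    unfold odds
    rw [mem_filter, Nat.mem_primeFactors]
    refine ⟨⟨hm.1, ?_, FF_ne_zero h hn⟩, ?_⟩
    · exact dvd_trans hp.2 (dvd_prod_of_mem (fun i => n + h i) (mem_univ 0))
    · rw [hf]; exact odd_one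
  unfold Th
  rw [Finset.abs_prod]
  calc ∏ p ∈ odds (FF h n) ∩ P, |th μ ξ p|
      ≤ ∏ p ∈ P.filter (fun p => p ∣ n + h 0), |th μ ξ p| :=
        Finset.prod_le_prod_of_subset_of_le_one hsub (fun p _ => abs_nonneg _)
          (fun p _ _ => abs_th_le hs p)
    _ = ∏ p ∈ P, (1 - if p ∣ n + h 0 then 1 - |th μ ξ p| else 0) := by
        rw [Finset.prod_filter]
        refine prod_congr rfl (fun p _ => ?_)
        split_ifs <;> ring

/-- the correlation sum, its centred part for the set `P` of primes -/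
noncomputable def W2 (μ : Measure Ω) (ξ : ℕ → Ω → ℝ) (b : ℕ → ℝ) {k : ℕ} (h : Fin (k + 1) → ℕ)
    (P : Finset ℕ) (N : ℕ) (ω : Ω) : ℝ :=
  ∑ n ∈ Icc 1 N, b n * cen μ ξ (odds (FF h n) ∩ P) (odds (FF h n) \ P) ω

lemma S_sub_W2 (hs : Signs μ ξ) (b : ℕ → ℝ) {k : ℕ}
    (h : Fin (k + 1) → ℕ) (P : Finset ℕ) (N : ℕ) (ω : Ω) :
    |(∑ n ∈ Icc 1 N, b n * mono ξ (odds (FF h n)) ω) - W2 μ ξ b h P N ω| ≤
      ∑ n ∈ Icc 1 N, |b n| * |Th μ ξ (odds (FF h n) ∩ P)| := by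
  unfold W2
  rw [← sum_sub_distrib]
  refine (abs_sum_le_sum_abs _ _).trans (sum_le_sum (fun n _ => ?_))
  have e : mono ξ (odds (FF h n)) ω =
      mono ξ (odds (FF h n) ∩ P) ω * mono ξ (odds (FF h n) \ P) ω := by
    unfold mono
    exact (Finset.prod_inter_mul_prod_sdiff _ _ _).symm
  unfold cen
  rw [e]
  have e2 : b n * (mono ξ (odds (FF h n) ∩ P) ω * mono ξ (odds (FF h n) \ P) ω) -
      b n * (mono ξ (odds (FF h n) \ P) ω *
        (mono ξ (odds (FF h n) ∩ P) ω - Th μ ξ (odds (FF h n) ∩ P))) =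
      b n * (mono ξ (odds (FF h n) \ P) ω * Th μ ξ (odds (FF h n) ∩ P)) := by ring
  rw [e2, abs_mul, abs_mul, abs_mono hs, one_mul]

lemma W2_meas (hs : Signs μ ξ) (b : ℕ → ℝ) {k : ℕ} (h : Fin (k + 1) → ℕ) (P : Finset ℕ) (N : ℕ) :
    Measurable (W2 μ ξ b h P N) := by
  unfold W2
  exact Finset.measurable_fun_sum _ (fun n _ => (cen_meas hs _ _).const_mul _)

lemma W2_second [IsProbabilityMeasure μ] (hs : Signs μ ξ) (b : ℕ → ℝ) {k : ℕ}
    (h : Fin (k + 1) → ℕ) (N Y : ℕ) (B : ℝ) (hB : 0 < B) (hb : ∀ n ∈ Icc 1 N, |b n| ≤ B)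
    (hY : 1 ≤ Y) (P : Finset ℕ) (hP : ∀ p ∈ P, p.Prime ∧ Y < p ∧ p ≤ N) :
    Integrable (fun ω => (W2 μ ξ b h P N ω) ^ 2) μ ∧
    ∫ ω, (W2 μ ξ b h P N ω) ^ 2 ∂μ ≤
      B ^ 2 * (16 * ((k : ℝ) + 1) ^ 2 * (N : ℝ) ^ 2 / (Y : ℝ)) := by
  set b' : ℕ → ℝ := fun n => if n ∈ Icc 1 N then b n / B else 0 with hb'
  have hb1 : ∀ n, |b' n| ≤ 1 := by
    intro n
    rw [hb']
    dsimp only
    split_ifs with hn
    · rw [abs_div, abs_of_pos hB, div_le_one hB]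
      exact hb n hn
    · simp
  have e : ∀ ω, W2 μ ξ b h P N ω =
      B * ∑ n ∈ Icc 1 N, b' n * cen μ ξ (odds (FF h n) ∩ P) (odds (FF h n) \ P) ω := by
    intro ω
    unfold W2
    rw [mul_sum]
    refine sum_congr rfl (fun n hn => ?_)
    rw [hb']
    dsimp only
    rw [if_pos hn]
    field_simp
  have h1 := second_moment hs (Icc 1 N) b' hb1 (fun n => odds (FF h n) ∩ P)
    (fun n => odds (FF h n) \ P) (fun n _ m _ => by
      rw [disjoint_left]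
      intro a ha ha2
      rw [mem_inter] at ha
      rw [Finset.mem_sdiff] at ha2
      exact ha2.2 ha.2)
  have h2 := pairs_le' h N Y hY P hP
  constructor
  · refine Integrable.of_bound ((W2_meas hs b h P N).pow_const 2).aestronglyMeasurable
      ((B * (2 * N)) ^ 2) (Filter.Eventually.of_forall (fun ω => ?_))
    rw [Real.norm_eq_abs, abs_pow]
    apply pow_le_pow_left₀ (abs_nonneg _)
    rw [e ω, abs_mul, abs_of_pos hB]
    apply mul_le_mul_of_nonneg_left _ hB.le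
    refine (abs_sum_le_sum_abs _ _).trans ?_
    calc ∑ n ∈ Icc 1 N, |b' n * cen μ ξ (odds (FF h n) ∩ P) (odds (FF h n) \ P) ω|
        ≤ ∑ n ∈ Icc 1 N, (2 : ℝ) := by
          refine sum_le_sum (fun n _ => ?_)
          rw [abs_mul]
          calc |b' n| * |cen μ ξ (odds (FF h n) ∩ P) (odds (FF h n) \ P) ω| ≤ 1 * 2 :=
                mul_le_mul (hb1 n) (abs_cen_le hs _ _ ω) (abs_nonneg _) (by norm_num)
            _ = 2 := by norm_num
      _ = 2 * N := by simp; ring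
  · simp_rw [e, mul_pow]
    rw [integral_const_mul]
    apply mul_le_mul_of_nonneg_left _ (by positivity)
    refine h1.trans ((mul_le_mul_of_nonneg_left h2 (by norm_num)).trans (le_of_eq ?_))
    ring

end Pool.Agent.H629Chowla
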