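import Pool.Agent.H629Chowla.General
import Pool.Agent.H629Chowla.Asym2

/-! Joint correlations with the von Mangoldt function: almost sure convergence. -/

set_option autoImplicit false

open MeasureTheory ProbabilityTheory Finset Filter Topology

namespace Pool.Agent.H629Chowla

variable {Ω : Type*} [MeasurableSpace Ω] {μ : Measure Ω} {ξ : ℕ → Ω → ℝ}

/-- almost sure convergence from summable second moments, along the cofinite filter -/
lemma ae_tendsto_cofinite {ι : Type} [Countable ι] (W : ι → Ω → ℝ) (hm : ∀ j, Measurable (W j))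
    (hi : ∀ j, Integrable (fun ω => W j ω ^ 2) μ)
    (hs : Summable (fun j => ∫ ω, W j ω ^ 2 ∂μ)) :
    ∀ᵐ ω ∂μ, Tendsto (fun j => W j ω) cofinite (𝓝 0) := by
  have h1 : ∫⁻ ω, ∑' j, ENNReal.ofReal (W j ω ^ 2) ∂μ ≠ ⊤ := by
    rw [lintegral_tsum (fun j => ((hm j).pow_const 2).ennreal_ofReal.aemeasurable)]
    have e : ∀ j, ∫⁻ ω, ENNReal.ofReal (W j ω ^ 2) ∂μ = ENNReal.ofReal (∫ ω, W j ω ^ 2 ∂μ) := by
      intro j
      rw [ofReal_integral_eq_lintegral_ofReal (hi j)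
        (Filter.Eventually.of_forall (fun ω => sq_nonneg _))]
    simp_rw [e]
    exact hs.tsum_ofReal_ne_top
  have h2 := ae_lt_top' (AEMeasurable.tsum
    (fun j => ((hm j).pow_const 2).ennreal_ofReal.aemeasurable)) h1
  filter_upwards [h2] with ω hω
  have h3 := ENNReal.tendsto_cofinite_zero_of_tsum_ne_top hω.ne
  have h4 : Tendsto (fun j => (ENNReal.ofReal (W j ω ^ 2)).toReal) cofinite (𝓝 0) := by
    have := (ENNReal.tendsto_toReal ENNReal.zero_ne_top).comp h3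
    simpa [Function.comp_def] using this
  have h5 : Tendsto (fun j => W j ω ^ 2) cofinite (𝓝 0) := by
    refine h4.congr (fun j => ?_)
    rw [ENNReal.toReal_ofReal (sq_nonneg _)]
  have h6 : Tendsto (fun j => Real.sqrt (W j ω ^ 2)) cofinite (𝓝 0) := by
    have := (Real.continuous_sqrt.tendsto 0).comp h5
    simpa [Function.comp_def] using this
  rw [tendsto_zero_iff_abs_tendsto_zero]
  refine h6.congr (fun j => ?_)
  rw [Real.sqrt_sq_eq_abs]
  rfl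

lemma l1_ge (N : ℕ) (hN : 16 ≤ N) : Real.log N ≤ 2 * l1 N := by
  have hN0 : (0 : ℝ) < N := by
    have : 0 < N := by omega
    exact_mod_cast this
  have h5 : (N : ℝ) < 2 ^ (Nat.log 2 N + 1) := by
    exact_mod_cast Nat.lt_pow_succ_log_self (by norm_num) N
  have h6 := Real.log_le_log hN0 h5.le
  rw [Real.log_pow] at h6
  push_cast at h6
  have h7 : Real.log 2 < 0.6931471808 := Real.log_two_lt_d9
  have h8 : (4 : ℝ) ≤ (Nat.log 2 N : ℕ) := by
    have : 4 ≤ Nat.log 2 N := Nat.le_log_of_pow_le (by norm_num) (by omega)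
    exact_mod_cast this
  unfold l1
  nlinarith

lemma l1_le (N : ℕ) (hN : 1 ≤ N) : l1 N ≤ 2 * Real.log N := by
  have h1 : (2 : ℝ) ^ (Nat.log 2 N) ≤ N := by
    exact_mod_cast Nat.pow_log_le_self 2 (by omega)
  have h2 := Real.log_le_log (by positivity) h1
  rw [Real.log_pow] at h2
  have h7 : 0.6931471803 < Real.log 2 := Real.log_two_gt_d9
  have h8 : (0 : ℝ) ≤ (Nat.log 2 N : ℕ) := Nat.cast_nonneg _
  unfold l1
  nlinarith

/-- size of the weights -/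
lemma LL_le (A : Finset ℕ) : ∀ᶠ N : ℕ in atTop, ∀ n ∈ Icc 1 N, LL A n ≤ (4 * l1 N) ^ A.card := by
  obtain ⟨M, hM⟩ : ∃ M, ∀ a ∈ A, a ≤ M := ⟨A.sup id, fun a ha => le_sup (f := id) ha⟩
  filter_upwards [eventually_ge_atTop (M + 16), l1_tendsto.eventually_ge_atTop 1] with N hN hl n hn
  rw [mem_Icc] at hn
  have hN0 : (0 : ℝ) < N := by
    have : 0 < N := by omega
    exact_mod_cast this
  unfold LL
  rw [← prod_const]
  refine prod_le_prod (fun a _ => ArithmeticFunction.vonMangoldt_nonneg) (fun a ha => ?_)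
  refine ArithmeticFunction.vonMangoldt_le_log.trans ?_
  have h1 : ((n + a : ℕ) : ℝ) ≤ 2 * N := by
    have := hM a ha
    have : n + a ≤ 2 * N := by omega
    exact_mod_cast this
  have h0 : (0 : ℝ) < ((n + a : ℕ) : ℝ) := by
    have : 0 < n + a := by omega
    exact_mod_cast this
  calc Real.log ((n + a : ℕ) : ℝ) ≤ Real.log (2 * N) := Real.log_le_log h0 h1
    _ = Real.log 2 + Real.log N := Real.log_mul (by norm_num) hN0.ne'
    _ ≤ 1 + 2 * l1 N := by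
        have := l1_ge N (by omega)
        have h7 : Real.log 2 < 0.6931471808 := Real.log_two_lt_d9
        linarith
    _ ≤ 4 * l1 N := by linarith

lemma Pf_prop {k P0 N p : ℕ} (hN : 1 ≤ N) (hp : p ∈ Pf k P0 N) :
    p.Prime ∧ P0 < p ∧ Yf k N < p ∧ p ≤ N := by
  unfold Pf at hp
  rw [mem_filter, mem_Icc] at hp
  refine ⟨hp.2.1, hp.2.2.1, hp.2.2.2, ?_⟩
  calc p ≤ yf k N := hp.1.2
    _ ≤ 2 ^ (Nat.log 2 N / 4) := yf_le k N
    _ ≤ 2 ^ (Nat.log 2 N) := Nat.pow_le_pow_right (by norm_num) (Nat.div_le_self _ _)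
    _ ≤ N := Nat.pow_log_le_self 2 (by omega)

/-- the deterministic part -/
lemma det_bound [IsProbabilityMeasure μ] (hs : Signs μ ξ) (A : Finset ℕ) {m : ℕ}
    (h : Fin (m + 1) → ℕ) (hinj : Function.Injective h) (hA : h 0 ∉ A) (P0 : ℕ)
    (hAP : ∀ a ∈ A, a ≤ P0) (hh : ∀ i, h i ≤ P0) :
    ∀ᶠ N : ℕ in atTop, (∑ n ∈ Icc 1 N, LL A n * |Th μ ξ (odds (FF h n) ∩ Pf A.card P0 N)|) / N ≤
      RB A.card P0 (fun p => 1 - |th μ ξ p|) N := by
  filter_upwards [LL_le A, eventually_ge_atTop 1, log_tendsto.eventually_ge_atTop 1,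
    l1_tendsto.eventually_ge_atTop 1] with N hL hN hlog hl
  have hN0 : (0 : ℝ) < N := by exact_mod_cast hN
  have hN1 : (1 : ℝ) ≤ N := by exact_mod_cast hN
  set k := A.card with hk
  set κ : ℕ → ℝ := fun p => 1 - |th μ ξ p| with hκ
  have hY : 1 ≤ Yf k N := Nat.one_le_pow _ _ hlog
  have hts := tuple_sum A (h 0) (Pf k P0 N) κ
    (fun p => by rw [hκ]; have := abs_th_le hs p; dsimp only; linarith)
    (fun p => by rw [hκ]; have := abs_nonneg (th μ ξ p); dsimp only; linarith) hA hAP (hh 0)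
    (Tf k P0 N) (yf k N) (rf k N) (yf_pos k N) ⟨_, rfl⟩
    (fun p hp => by
      unfold Tf at hp
      rw [mem_filter, mem_Icc] at hp
      exact ⟨hp.2.1, hp.1.2, hp.2.2⟩)
    (fun p hp => by
      unfold Pf at hp
      unfold Tf
      rw [mem_filter] at hp ⊢
      exact ⟨hp.1, hp.2.1, hp.2.2.1⟩)
    (Real.exp 2) (Real.exp_pos 2) N (Yf k N) hY (fun p hp => (Pf_prop hN hp).2.2.1)
    (fun n => |Th μ ξ (odds (FF h n) ∩ Pf k P0 N)|) (fun n => abs_nonneg _)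
    (fun n => abs_Th_le hs _)
    (fun n hn hq => Th_bound' hs h hinj (Pf k P0 N) hh
      (fun p hp => ⟨(Pf_prop hN hp).1, (Pf_prop hN hp).2.1⟩) (mem_Icc.1 hn).1 hq)
    ((4 * l1 N) ^ k) (by positivity) hL
  rw [div_le_iff₀ hN0]
  refine hts.trans ?_
  unfold RB
  rw [← hk]
  set E1 := Real.exp (-(k * ∑ p ∈ Tf k P0 N, (1 : ℝ) / p + MM (Pf k P0 N) κ)) with hE1
  set E2 := ((Real.exp 2)⁻¹) ^ (rf k N) *
    Real.exp (Real.exp 2 * ((k + 1) * ∑ p ∈ Tf k P0 N, (1 : ℝ) / p)) with hE2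
  have hE1p : 0 ≤ E1 := (Real.exp_pos _).le
  have hE2p : 0 ≤ E2 := by rw [hE2]; positivity
  set B := (4 * l1 N) ^ k with hB
  have hB0 : 0 ≤ B := by rw [hB]; positivity
  have e : (B * (1 / ((Yf k N : ℕ) : ℝ)) +
      B * (((yf k N : ℕ) : ℝ) / N + k * (yf k N : ℕ) * ((Nat.log 2 (N + P0) : ℕ) + 1) / N +
      3 * ((yf k N : ℕ) : ℝ) ^ (2 * rf k N) / N) + B * (2 * E1) + B * (2 * E2)) * N =
      B * ((N / (Yf k N : ℕ) + (yf k N : ℕ)) + k * (yf k N : ℕ) * ((Nat.log 2 (N + P0) : ℕ) + 1) +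
        (2 * N * (E1 + E2) + 3 * ((yf k N : ℕ) : ℝ) ^ (2 * rf k N))) := by
    field_simp
    ring
  rw [e]
  apply mul_le_mul_of_nonneg_left _ hB0
  nlinarith [mul_nonneg (by linarith : (0 : ℝ) ≤ N - 1) (add_nonneg hE1p hE2p)]

/-- the grid points -/
def GG (m : ℕ) (i t : ℕ) : ℕ := 2 ^ i + (2 ^ i * t) / i ^ m

lemma log_GG (m i t : ℕ) : i ≤ Nat.log 2 (GG m i t) := by
  apply Nat.le_log_of_pow_le (by norm_num)
  unfold GG
  exact Nat.le_add_right _ _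

/-- the index of `N` -/
def tt (m N : ℕ) : ℕ := (N - 2 ^ (Nat.log 2 N)) * (Nat.log 2 N) ^ m / 2 ^ (Nat.log 2 N)

lemma tt_lt (m N : ℕ) : tt m N < (Nat.log 2 N) ^ m + 1 := by
  unfold tt
  rw [Nat.lt_succ_iff]
  apply Nat.div_le_of_le_mul
  apply Nat.mul_le_mul_right
  have := Nat.lt_pow_succ_log_self (b := 2) (by norm_num) N
  rw [pow_succ] at this
  omega

lemma GG_le (m N : ℕ) (hN : 1 ≤ N) : GG m (Nat.log 2 N) (tt m N) ≤ N := by
  have h1 := Nat.pow_log_le_self 2 (x := N) (by omega)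
  unfold GG
  have h2 : 2 ^ (Nat.log 2 N) * tt m N / (Nat.log 2 N) ^ m ≤ N - 2 ^ (Nat.log 2 N) := by
    apply Nat.div_le_of_le_mul
    unfold tt
    have := Nat.mul_div_le ((N - 2 ^ (Nat.log 2 N)) * (Nat.log 2 N) ^ m) (2 ^ (Nat.log 2 N))
    linarith [mul_comm (N - 2 ^ (Nat.log 2 N)) ((Nat.log 2 N) ^ m)]
  omega

lemma sub_GG_le (m N : ℕ) (hN : 2 ≤ N) :
    (N : ℝ) - GG m (Nat.log 2 N) (tt m N) ≤ N / l1 N ^ m + 1 := by
  set i := Nat.log 2 N with hi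
  have hi1 : 1 ≤ i := by
    rw [hi]; exact Nat.le_log_of_pow_le (by norm_num) (by omega)
  have hD : 0 < i ^ m := pow_pos hi1 m
  have hDr : (0 : ℝ) < (i : ℝ) ^ m := by exact_mod_cast hD
  have h1 : 2 ^ i ≤ N := Nat.pow_log_le_self 2 (x := N) (by omega)
  have h1r : (2 : ℝ) ^ i ≤ N := by exact_mod_cast h1
  have h2r : (0 : ℝ) < (2 : ℝ) ^ i := by positivity
  have e1 : (GG m i (tt m N) : ℝ) = 2 ^ i + ((2 ^ i * tt m N / i ^ m : ℕ) : ℝ) := by
    unfold GG; push_cast; ring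
  have e2 := div_ge (2 ^ i * tt m N) (i ^ m) hD
  have e3 := div_ge ((N - 2 ^ i) * i ^ m) (2 ^ i) (by positivity)
  have e4 : ((tt m N : ℕ) : ℝ) = (((N - 2 ^ i) * i ^ m / 2 ^ i : ℕ) : ℝ) := by
    unfold tt; rw [← hi]
  rw [← e4] at e3
  push_cast [Nat.cast_sub h1] at e2 e3
  have e5 : (2 : ℝ) ^ i * (((N : ℝ) - 2 ^ i) * (i : ℝ) ^ m / 2 ^ i - 1) / (i : ℝ) ^ m ≤
      (2 : ℝ) ^ i * (tt m N : ℕ) / (i : ℝ) ^ m := by
    apply div_le_div_of_nonneg_right _ hDr.le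
    exact mul_le_mul_of_nonneg_left e3 h2r.le
  have e6 : (2 : ℝ) ^ i * (((N : ℝ) - 2 ^ i) * (i : ℝ) ^ m / 2 ^ i - 1) / (i : ℝ) ^ m =
      (N : ℝ) - 2 ^ i - 2 ^ i / (i : ℝ) ^ m := by
    field_simp
  have e7 : (2 : ℝ) ^ i / (i : ℝ) ^ m ≤ N / (i : ℝ) ^ m := div_le_div_of_nonneg_right h1r hDr.le
  have e8 : l1 N = (i : ℝ) := rfl
  rw [e8, e1]
  linarith

end Pool.Agent.H629Chowla
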