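import Pool.Agent.H629Chowla.Joint

/-! Joint correlations with the von Mangoldt function: the theorem. -/

set_option autoImplicit false

open MeasureTheory ProbabilityTheory Finset Filter Topology

namespace Pool.Agent.H629Chowla

variable {Ω : Type*} [MeasurableSpace Ω] {μ : Measure Ω} {ξ : ℕ → Ω → ℝ}

/-- admissible `N` -/
def Good (A : Finset ℕ) (N : ℕ) : Prop :=
  1 ≤ N ∧ 1 ≤ Nat.log 2 N ∧ ∀ n ∈ Icc 1 N, LL A n ≤ (4 * l1 N) ^ A.card

lemma good_eventually (A : Finset ℕ) : ∀ᶠ N : ℕ in atTop, Good A N := by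
  filter_upwards [LL_le A, eventually_ge_atTop 1, log_tendsto.eventually_ge_atTop 1] with N h1 h2 h3
  exact ⟨h2, h3, h1⟩

/-- the second moment at an admissible `N` -/
lemma second_good [IsProbabilityMeasure μ] (hs : Signs μ ξ) (A : Finset ℕ) {m : ℕ}
    (h : Fin (m + 1) → ℕ) (P0 : ℕ) (b : ℕ → ℝ) (hb : ∀ n, |b n| ≤ LL A n) (N : ℕ)
    (hG : Good A N) :
    Integrable (fun ω => (W2 μ ξ b h (Pf A.card P0 N) N ω / N) ^ 2) μ ∧
    ∫ ω, (W2 μ ξ b h (Pf A.card P0 N) N ω / N) ^ 2 ∂μ ≤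
      16 ^ A.card * (16 * ((m : ℝ) + 1) ^ 2) / l1 N ^ (A.card + 5) := by
  obtain ⟨hN, hlog, hL⟩ := hG
  set k := A.card with hk
  have hN0 : (0 : ℝ) < N := by exact_mod_cast hN
  have hl : 1 ≤ l1 N := by unfold l1; exact_mod_cast hlog
  have hl0 : 0 < l1 N := by linarith
  have h2 := W2_second hs b h N (Yf k N) ((4 * l1 N) ^ k) (by positivity)
    (fun n hn => (hb n).trans (hL n hn)) (Nat.one_le_pow _ _ hlog) (Pf k P0 N)
    (fun p hp => ⟨(Pf_prop hN hp).1, (Pf_prop hN hp).2.2⟩)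
  simp_rw [div_pow]
  constructor
  · exact h2.1.div_const _
  · rw [integral_div, div_le_iff₀ (by positivity)]
    refine h2.2.trans (le_of_eq ?_)
    have e : ((Yf k N : ℕ) : ℝ) = l1 N ^ (3 * k + 5) := by
      unfold Yf l1; push_cast; rfl
    rw [e]
    have e2 : l1 N ^ (3 * k + 5) = l1 N ^ (2 * k) * l1 N ^ (k + 5) := by
      rw [← pow_add]; congr 1; ring
    have e3 : ((4 * l1 N) ^ k) ^ 2 = 16 ^ k * l1 N ^ (2 * k) := by
      rw [← pow_mul, mul_pow, mul_comm k 2, pow_mul 4 2 k]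
      norm_num
    rw [e2, e3]
    have h5 : l1 N ^ (2 * k) ≠ 0 := (pow_pos hl0 _).ne'
    have h6 : l1 N ^ (k + 5) ≠ 0 := (pow_pos hl0 _).ne'
    field_simp

/-- **almost sure convergence of the joint correlations** -/
theorem joint_ae [IsProbabilityMeasure μ] (hs : Signs μ ξ) (A : Finset ℕ) {m : ℕ}
    (h : Fin (m + 1) → ℕ) (hinj : Function.Injective h) (hA : h 0 ∉ A) (P0 : ℕ)
    (hAP : ∀ a ∈ A, a ≤ P0) (hh : ∀ i, h i ≤ P0)
    (hM : Tendsto (fun N => MM (Pf A.card P0 N) (fun p => 1 - |th μ ξ p|) -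
      A.card * Real.log (Real.log (l1 N))) atTop atTop)
    (b : ℕ → ℝ) (hb : ∀ n, |b n| ≤ LL A n) :
    ∀ᵐ ω ∂μ, Tendsto (fun N : ℕ => (∑ n ∈ Icc 1 N, b n * mono ξ (odds (FF h n)) ω) / N)
      atTop (𝓝 0) := by
  classical
  set k := A.card with hk
  set κ : ℕ → ℝ := fun p => 1 - |th μ ξ p| with hκ
  set ι := Σ i : ℕ, Fin (i ^ (k + 1) + 1) with hι
  set g : ι → ℕ := fun x => GG (k + 1) x.1 (x.2 : ℕ) with hg
  set V : ι → Ω → ℝ := fun x ω => if Good A (g x) then
    W2 μ ξ b h (Pf k P0 (g x)) (g x) ω / (g x : ℕ) else 0 with hV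
  set C0 : ℝ := 16 ^ k * (16 * ((m : ℝ) + 1) ^ 2) with hC0
  have hC0p : 0 ≤ C0 := by positivity
  have hVm : ∀ x, Measurable (V x) := by
    intro x
    rw [hV]
    dsimp only
    split_ifs
    · exact (W2_meas hs b h _ _).div_const _
    · exact measurable_const
  have hVi : ∀ x, Integrable (fun ω => V x ω ^ 2) μ := by
    intro x
    rw [hV]
    dsimp only
    split_ifs with hG
    · exact (second_good hs A h P0 b hb (g x) hG).1
    · simp
  have hVs : ∀ x : ι, ∫ ω, V x ω ^ 2 ∂μ ≤ C0 / (x.1 : ℝ) ^ (k + 5) := by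
    intro x
    rw [hV]
    dsimp only
    split_ifs with hG
    · have h2 := (second_good hs A h P0 b hb (g x) hG).2
      rcases Nat.eq_zero_or_pos x.1 with hx | hx
      · exfalso
        have h3 := hG.2.1
        have h4 : g x = 1 := by
          have hz : ∀ i t, i = 0 → GG (k + 1) i t = 1 := by
            intro i t hi
            subst hi
            unfold GG
            simp
          exact hz _ _ hx
        rw [h4] at h3
        simp at h3
      · refine h2.trans ?_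
        have hx0 : (0 : ℝ) < (x.1 : ℝ) := by exact_mod_cast hx
        apply div_le_div_of_nonneg_left hC0p (by positivity)
        apply pow_le_pow_left₀ hx0.le
        unfold l1
        exact_mod_cast log_GG (k + 1) x.1 x.2
    · simp only [ne_eq, OfNat.ofNat_ne_zero, not_false_eq_true, zero_pow, integral_zero]
      positivity
  have hVn : ∀ x : ι, 0 ≤ ∫ ω, V x ω ^ 2 ∂μ := fun x => integral_nonneg (fun ω => sq_nonneg _)
  have hsum : Summable (fun x : ι => ∫ ω, V x ω ^ 2 ∂μ) := by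
    rw [summable_sigma_of_nonneg hVn]
    refine ⟨fun i => Summable.of_finite, ?_⟩
    have hgs : Summable (fun i : ℕ => 2 * C0 * (1 / (i : ℝ) ^ 4)) :=
      (Real.summable_one_div_nat_pow.2 (by norm_num)).mul_left _
    refine Summable.of_nonneg_of_le (fun i => tsum_nonneg (fun t => hVn ⟨i, t⟩)) (fun i => ?_) hgs
    rw [tsum_fintype]
    calc ∑ t : Fin (i ^ (k + 1) + 1), ∫ ω, V ⟨i, t⟩ ω ^ 2 ∂μ
        ≤ ∑ t : Fin (i ^ (k + 1) + 1), C0 / (i : ℝ) ^ (k + 5) :=
          sum_le_sum (fun t _ => hVs ⟨i, t⟩)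
      _ = ((i : ℝ) ^ (k + 1) + 1) * (C0 / (i : ℝ) ^ (k + 5)) := by simp
      _ ≤ 2 * C0 * (1 / (i : ℝ) ^ 4) := by
          rcases Nat.eq_zero_or_pos i with hi | hi
          · rw [hi]; simp
          · have hi1 : (1 : ℝ) ≤ i := by exact_mod_cast hi
            have hi0 : (0 : ℝ) < i := by linarith
            have h1 : (i : ℝ) ^ (k + 1) + 1 ≤ 2 * (i : ℝ) ^ (k + 1) := by
              have := one_le_pow₀ hi1 (n := k + 1)
              linarith
            calc ((i : ℝ) ^ (k + 1) + 1) * (C0 / (i : ℝ) ^ (k + 5))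
                ≤ 2 * (i : ℝ) ^ (k + 1) * (C0 / (i : ℝ) ^ (k + 5)) :=
                  mul_le_mul_of_nonneg_right h1 (by positivity)
              _ = 2 * C0 * (1 / (i : ℝ) ^ 4) := by
                  have e : (i : ℝ) ^ (k + 5) = (i : ℝ) ^ (k + 1) * (i : ℝ) ^ 4 := by
                    rw [← pow_add]
                  rw [e]
                  field_simp
  have hdet := det_bound hs A h hinj hA P0 hAP hh
  rw [← hk] at hdet
  have hRB := RB_tendsto k P0 κ hM
  -- the index map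
  set idx : ℕ → ι := fun N => ⟨Nat.log 2 N, ⟨tt (k + 1) N, tt_lt (k + 1) N⟩⟩ with hidx
  have hidx_t : Tendsto idx atTop cofinite := by
    rw [Tendsto, le_cofinite_iff_eventually_ne]
    intro x
    rw [eventually_map]
    filter_upwards [log_tendsto.eventually_gt_atTop x.1] with N hN hcon
    rw [← hcon] at hN
    exact lt_irrefl _ hN
  set G : ℕ → ℕ := fun N => g (idx N) with hGdef
  have hGt : Tendsto G atTop atTop := by
    refine tendsto_atTop_mono (fun N => ?_) (tendsto_pow_atTop_atTop_of_one_lt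
      (r := 2) (by norm_num) |>.comp log_tendsto)
    rw [hGdef, hg, hidx]
    dsimp only [Function.comp]
    unfold GG
    exact Nat.le_add_right _ _
  have hgoodG := hGt.eventually (good_eventually A)
  have hdetG := hGt.eventually hdet
  have hRBG := hRB.comp hGt
  have hinv : Tendsto (fun N => (4 : ℝ) ^ k / l1 N) atTop (𝓝 0) :=
    tendsto_const_nhds.div_atTop l1_tendsto
  filter_upwards [ae_tendsto_cofinite V hVm hVi hsum] with ω hω
  have hVG := hω.comp hidx_t
  set S : ℕ → ℝ := fun N => ∑ n ∈ Icc 1 N, b n * mono ξ (odds (FF h n)) ω with hS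
  -- bound of S at the grid points
  have hlim : Tendsto (fun N => |V (idx N) ω| + RB k P0 κ (G N) +
      ((4 : ℝ) ^ k / l1 N + RB k P0 κ N)) atTop (𝓝 0) := by
    have h1 := ((hVG.abs).add hRBG).add (hinv.add hRB)
    simpa using h1
  refine squeeze_zero_norm' ?_ hlim
  filter_upwards [hgoodG, hdetG, good_eventually A, eventually_ge_atTop 2,
    l1_tendsto.eventually_ge_atTop 1] with N hgG hdG hgN hN2 hl1
  have hN0 : (0 : ℝ) < N := by
    have : 0 < N := by omega
    exact_mod_cast this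
  have hG1 : 1 ≤ G N := hgG.1
  have hG0 : (0 : ℝ) < (G N : ℕ) := by exact_mod_cast hG1
  have hGN : G N ≤ N := GG_le (k + 1) N (by omega)
  have hGNr : ((G N : ℕ) : ℝ) ≤ N := by exact_mod_cast hGN
  have hl0 : 0 < l1 N := by linarith
  -- S at G
  have a1 : |S (G N)| ≤ (|V (idx N) ω| + RB k P0 κ (G N)) * (G N : ℕ) := by
    have h1 := S_sub_W2 hs b h (Pf k P0 (G N)) (G N) ω
    have h2 : |V (idx N) ω| * (G N : ℕ) = |W2 μ ξ b h (Pf k P0 (G N)) (G N) ω| := by
      have hx : Good A (g (idx N)) := hgG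
      rw [hV]
      dsimp only
      rw [if_pos hx, abs_div, Nat.abs_cast]
      exact div_mul_cancel₀ _ hG0.ne'
    have h3 : ∑ n ∈ Icc 1 (G N), |b n| * |Th μ ξ (odds (FF h n) ∩ Pf k P0 (G N))| ≤
        RB k P0 κ (G N) * (G N : ℕ) := by
      rw [← div_le_iff₀ hG0]
      refine le_trans ?_ hdG
      apply div_le_div_of_nonneg_right _ hG0.le
      exact sum_le_sum (fun n _ => mul_le_mul_of_nonneg_right (hb n) (abs_nonneg _))
    have h4 : |S (G N)| ≤ |S (G N) - W2 μ ξ b h (Pf k P0 (G N)) (G N) ω| +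
        |W2 μ ξ b h (Pf k P0 (G N)) (G N) ω| := by
      have := abs_add_le (S (G N) - W2 μ ξ b h (Pf k P0 (G N)) (G N) ω)
        (W2 μ ξ b h (Pf k P0 (G N)) (G N) ω)
      simpa using this
    rw [add_mul, h2]
    linarith [h1.trans h3]
  -- the difference
  have a2 : |S N - S (G N)| ≤ (4 * l1 N) ^ k * (N - (G N : ℕ)) := by
    have e : S N - S (G N) = ∑ n ∈ Ioc (G N) N, b n * mono ξ (odds (FF h n)) ω := by
      rw [hS]
      dsimp only
      have hsplit : Icc 1 N = Icc 1 (G N) ∪ Ioc (G N) N := by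
        ext x
        rw [mem_union, mem_Icc, mem_Icc, mem_Ioc]
        omega
      have hdis : Disjoint (Icc 1 (G N)) (Ioc (G N) N) := by
        rw [disjoint_left]
        intro x hx hx2
        rw [mem_Icc] at hx
        rw [mem_Ioc] at hx2
        omega
      rw [hsplit, sum_union hdis]
      ring
    rw [e]
    refine (abs_sum_le_sum_abs _ _).trans ?_
    calc ∑ n ∈ Ioc (G N) N, |b n * mono ξ (odds (FF h n)) ω|
        ≤ ∑ n ∈ Ioc (G N) N, (4 * l1 N) ^ k := by
          refine sum_le_sum (fun n hn => ?_)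
          rw [mem_Ioc] at hn
          rw [abs_mul, abs_mono hs, mul_one]
          exact (hb n).trans (hgN.2.2 n (mem_Icc.2 ⟨by omega, hn.2⟩))
      _ = (4 * l1 N) ^ k * (N - (G N : ℕ)) := by
          rw [sum_const, Nat.card_Ioc, nsmul_eq_mul, Nat.cast_sub hGN]
          ring
  have a3 : (N : ℝ) - (G N : ℕ) ≤ N / l1 N ^ (k + 1) + 1 := sub_GG_le (k + 1) N hN2
  have a4 : (4 * l1 N) ^ k * (N / l1 N ^ (k + 1) + 1) ≤ ((4 : ℝ) ^ k / l1 N + RB k P0 κ N) * N := by
    have e1 : (4 * l1 N) ^ k * (N / l1 N ^ (k + 1)) = (4 : ℝ) ^ k / l1 N * N := by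
      rw [mul_pow, pow_succ]
      field_simp
    have e2 : (4 * l1 N) ^ k * 1 ≤ RB k P0 κ N * N := by
      have hy : (1 : ℝ) ≤ (yf k N : ℕ) := by exact_mod_cast yf_pos k N
      have hBp : (0 : ℝ) ≤ (4 * l1 N) ^ k := by positivity
      have h1 : (4 * l1 N) ^ k * (1 / N) ≤ RB k P0 κ N := by
        unfold RB
        have r1 : 0 ≤ (4 * l1 N) ^ k * (1 / ((Yf k N : ℕ) : ℝ)) := by positivity
        have r3 : 0 ≤ (4 * l1 N) ^ k * (2 * Real.exp (-(k * ∑ p ∈ Tf k P0 N, (1 : ℝ) / p +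
            MM (Pf k P0 N) κ))) := by positivity
        have r4 : 0 ≤ (4 * l1 N) ^ k * (2 * (((Real.exp 2)⁻¹) ^ (rf k N) *
            Real.exp (Real.exp 2 * ((k + 1) * ∑ p ∈ Tf k P0 N, (1 : ℝ) / p)))) := by positivity
        have r2 : (4 * l1 N) ^ k * (1 / N) ≤ (4 * l1 N) ^ k * (((yf k N : ℕ) : ℝ) / N +
            k * (yf k N : ℕ) * ((Nat.log 2 (N + P0) : ℕ) + 1) / N +
            3 * ((yf k N : ℕ) : ℝ) ^ (2 * rf k N) / N) := by
          apply mul_le_mul_of_nonneg_left _ hBp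
          have s1 : (1 : ℝ) / N ≤ ((yf k N : ℕ) : ℝ) / N := div_le_div_of_nonneg_right hy hN0.le
          have s2 : 0 ≤ k * (yf k N : ℕ) * (((Nat.log 2 (N + P0) : ℕ) : ℝ) + 1) / N := by positivity
          have s3 : 0 ≤ 3 * ((yf k N : ℕ) : ℝ) ^ (2 * rf k N) / N := by positivity
          linarith
        linarith
      have h2 := mul_le_mul_of_nonneg_right h1 hN0.le
      have e3 : (4 * l1 N) ^ k * (1 / N) * N = (4 * l1 N) ^ k * 1 := by field_simp
      linarith
    rw [mul_add, add_mul, e1]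
    linarith
  have a5 : (4 * l1 N) ^ k * (N - (G N : ℕ)) ≤ (4 * l1 N) ^ k * (N / l1 N ^ (k + 1) + 1) :=
    mul_le_mul_of_nonneg_left a3 (by positivity)
  have a6 : |S N| ≤ |S (G N)| + |S N - S (G N)| := by
    have := abs_add_le (S (G N)) (S N - S (G N))
    simpa using this
  have hpos : 0 ≤ |V (idx N) ω| + RB k P0 κ (G N) := by
    by_contra hcon
    push Not at hcon
    have := mul_neg_of_neg_of_pos hcon hG0
    linarith [abs_nonneg (S (G N))]
  have a7 : (|V (idx N) ω| + RB k P0 κ (G N)) * (G N : ℕ) ≤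
      (|V (idx N) ω| + RB k P0 κ (G N)) * N := mul_le_mul_of_nonneg_left hGNr hpos
  rw [Real.norm_eq_abs, abs_div, Nat.abs_cast, div_le_iff₀ hN0]
  rw [add_mul]
  linarith

end Pool.Agent.H629Chowla
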