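import Pool.Agent.H629Chowla.GenMain

/-! Values of polynomials divisible by a prime. -/

set_option autoImplicit false

open Finset Polynomial

namespace Pool.Agent.H629Chowla

lemma nat_add_dvd_iff (p n : ℕ) [NeZero p] (r : ZMod p) :
    p ∣ n + (-r).val ↔ (n : ZMod p) = r := by
  rw [← ZMod.natCast_eq_zero_iff]
  push_cast
  rw [ZMod.natCast_zmod_val]
  constructor
  · intro h
    have : (n : ZMod p) - r = 0 := by rw [← h]; ring
    exact sub_eq_zero.1 this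
  · intro h
    rw [h]; ring

/-- number of `n ≤ N` with `p ∣ G(n)` -/
lemma card_poly (G : ℤ[X]) (p N : ℕ) (hp : p.Prime) (hpN : p ≤ N)
    (h0 : G.map (Int.castRingHom (ZMod p)) ≠ 0) :
    (((Icc 1 N).filter (fun n : ℕ => p ∣ (G.eval (n : ℤ)).natAbs)).card : ℝ) ≤
      (2 * G.natDegree : ℝ) * (N / p) := by
  classical
  haveI := Fact.mk hp
  haveI : NeZero p := ⟨hp.ne_zero⟩
  set φ := Int.castRingHom (ZMod p) with hφ
  set R : Finset (ZMod p) := (G.map φ).roots.toFinset with hR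
  have hsub : (Icc 1 N).filter (fun n : ℕ => p ∣ (G.eval (n : ℤ)).natAbs) ⊆
      R.biUnion (fun r => (Icc 1 N).filter (fun n => p ∣ n + (-r).val)) := by
    intro n hn
    rw [mem_filter] at hn
    rw [mem_biUnion]
    refine ⟨(n : ZMod p), ?_, mem_filter.2 ⟨hn.1, (nat_add_dvd_iff p n _).2 rfl⟩⟩
    rw [hR, Multiset.mem_toFinset, mem_roots h0, IsRoot]
    have := eval_natCast_map φ G n
    rw [this, hφ, eq_intCast, ZMod.intCast_zmod_eq_zero_iff_dvd]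
    exact Int.natCast_dvd.2 hn.2
  have h1 : (((Icc 1 N).filter (fun n : ℕ => p ∣ (G.eval (n : ℤ)).natAbs)).card : ℝ) ≤
      ∑ r ∈ R, (((Icc 1 N).filter (fun n => p ∣ n + (-r).val)).card : ℝ) := by
    have := (card_le_card hsub).trans card_biUnion_le
    exact_mod_cast this
  have hp0 : (0 : ℝ) < p := by exact_mod_cast hp.pos
  have hNp : (1 : ℝ) ≤ N / p := by
    rw [le_div_iff₀ hp0, one_mul]
    exact_mod_cast hpN
  have hRc : (R.card : ℝ) ≤ G.natDegree := by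
    have : R.card ≤ G.natDegree :=
      (Multiset.toFinset_card_le _).trans ((card_roots' _).trans natDegree_map_le)
    exact_mod_cast this
  calc (((Icc 1 N).filter (fun n : ℕ => p ∣ (G.eval (n : ℤ)).natAbs)).card : ℝ)
      ≤ ∑ r ∈ R, (((Icc 1 N).filter (fun n => p ∣ n + (-r).val)).card : ℝ) := h1
    _ ≤ ∑ r ∈ R, (2 * ((N : ℝ) / p)) :=
        sum_le_sum (fun i _ => (card_le N _ p hp.pos).trans (by linarith))
    _ = R.card * (2 * ((N : ℝ) / p)) := by rw [sum_const, nsmul_eq_mul]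
    _ ≤ G.natDegree * (2 * ((N : ℝ) / p)) := mul_le_mul_of_nonneg_right hRc (by positivity)
    _ = _ := by ring

/-- a simple root modulo `p` lifts to a root modulo `p ^ 2` -/
lemma hensel (G : ℤ[X]) (p : ℕ) (hp : p.Prime) (r0 : ℤ) (h0 : (p : ℤ) ∣ G.eval r0)
    (h1 : ¬ (p : ℤ) ∣ (derivative G).eval r0) :
    ∃ r : ℕ, ((p : ℤ) ^ 2 ∣ G.eval (r : ℤ)) ∧ ¬ (p : ℤ) ∣ (derivative G).eval (r : ℤ) := by
  obtain ⟨a, ha⟩ := h0
  have hpZ : Prime (p : ℤ) := Nat.prime_iff_prime_int.1 hp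
  have hcop : IsCoprime ((derivative G).eval r0) (p : ℤ) :=
    ((Prime.coprime_iff_not_dvd hpZ).2 h1).symm
  obtain ⟨e, f, hef⟩ := hcop
  -- r1 = r0 + p * s, s = - a * e
  obtain ⟨k, hk⟩ := binomExpansion G r0 ((p : ℤ) * (-(a * e)))
  have e1 : (p : ℤ) ^ 2 ∣ G.eval (r0 + (p : ℤ) * (-(a * e))) := by
    rw [hk, ha]
    refine ⟨a * f + k * (a * e) ^ 2, ?_⟩
    have : a * ((derivative G).eval r0 * e) = a * (1 - f * p) := by
      rw [← hef]; ring
    linear_combination (-(p : ℤ)) * this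
  have hp0 : (0 : ℤ) < (p : ℤ) ^ 2 := by
    have := hp.pos
    positivity
  set r1 := r0 + (p : ℤ) * (-(a * e)) with hr1
  refine ⟨(r1 % (p : ℤ) ^ 2).toNat, ?_, ?_⟩
  · rw [Int.toNat_of_nonneg (Int.emod_nonneg _ hp0.ne')]
    have h2 := sub_dvd_eval_sub (r1 % (p : ℤ) ^ 2) r1 G
    have h3 : (p : ℤ) ^ 2 ∣ r1 % (p : ℤ) ^ 2 - r1 := by
      have := Int.emod_add_mul_ediv r1 ((p : ℤ) ^ 2)
      exact ⟨-(r1 / (p : ℤ) ^ 2), by linear_combination this⟩
    have h4 := h3.trans h2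
    exact (dvd_sub_left e1).1 h4
  · rw [Int.toNat_of_nonneg (Int.emod_nonneg _ hp0.ne')]
    intro hc
    apply h1
    have h2 := sub_dvd_eval_sub (r1 % (p : ℤ) ^ 2) r0 (derivative G)
    have h3 : (p : ℤ) ∣ r1 % (p : ℤ) ^ 2 - r0 := by
      have := Int.emod_add_mul_ediv r1 ((p : ℤ) ^ 2)
      exact ⟨-((p : ℤ) * (r1 / (p : ℤ) ^ 2)) + (-(a * e)), by
        linear_combination this + hr1⟩
    have h4 := h3.trans h2
    exact (dvd_sub_right hc).1 h4

/-- near a root modulo `p ^ 2` the prime divides exactly once -/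
lemma exact_one (G : ℤ[X]) (p : ℕ) (hp : p.Prime) (r n : ℤ) (h0 : (p : ℤ) ^ 2 ∣ G.eval r)
    (h1 : ¬ (p : ℤ) ∣ (derivative G).eval r) (hn : (p : ℤ) ∣ n - r)
    (hn2 : ¬ (p : ℤ) ^ 2 ∣ n - r) : (p : ℤ) ∣ G.eval n ∧ ¬ (p : ℤ) ^ 2 ∣ G.eval n := by
  obtain ⟨t, ht⟩ := hn
  have hpZ : Prime (p : ℤ) := Nat.prime_iff_prime_int.1 hp
  have hnr : n = r + (p : ℤ) * t := by linear_combination ht
  obtain ⟨k, hk⟩ := binomExpansion G r ((p : ℤ) * t)
  rw [← hnr] at hk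
  have hp0 : (p : ℤ) ≠ 0 := hpZ.ne_zero
  constructor
  · rw [hk]
    have hd : (p : ℤ) ∣ G.eval r := (dvd_pow_self _ two_ne_zero).trans h0
    refine dvd_add (dvd_add hd ?_) ?_
    · exact ⟨(derivative G).eval r * t, by ring⟩
    · exact ⟨k * (p * t ^ 2), by ring⟩
  · intro hc
    rw [hk] at hc
    obtain ⟨u, hu⟩ := h0
    obtain ⟨w, hw⟩ := hc
    have : (p : ℤ) ∣ (derivative G).eval r * t := by
      refine ⟨w - u - k * t ^ 2, ?_⟩
      have h2 : (p : ℤ) * ((derivative G).eval r * t) = p * (p * (w - u - k * t ^ 2)) := by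
        rw [hu] at hw
        linear_combination hw
      exact mul_left_cancel₀ hp0 h2
    rcases hpZ.dvd_or_dvd this with h | h
    · exact h1 h
    · apply hn2
      obtain ⟨s, hs⟩ := h
      exact ⟨s, by rw [ht, hs]; ring⟩

/-- one shift for all primes -/
lemma crt_shift (P : Finset ℕ) (hP : ∀ p ∈ P, p.Prime) (r : ℕ → ℕ) :
    ∃ h : ℕ, ∀ p ∈ P, (p : ℤ) ^ 2 ∣ (h : ℤ) + r p := by
  have hne : ∀ p ∈ P, p ^ 2 ≠ 0 := fun p hp => pow_ne_zero 2 (hP p hp).ne_zero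
  have hpw : (P : Set ℕ).Pairwise (Function.onFun Nat.Coprime (fun p => p ^ 2)) := by
    intro p hp q hq hpq
    exact Nat.Coprime.pow 2 2 ((Nat.coprime_primes (hP p hp) (hP q hq)).2 hpq)
  obtain ⟨h, hh⟩ := Nat.chineseRemainderOfFinset (fun p => p ^ 2 * r p - r p) (fun p => p ^ 2) P hne hpw
  refine ⟨h, fun p hp => ?_⟩
  have h1 := hh p hp
  have h2 : h + r p ≡ (p ^ 2 * r p - r p) + r p [MOD p ^ 2] := Nat.ModEq.add_right _ h1
  have h3 : (p ^ 2 * r p - r p) + r p = p ^ 2 * r p := by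
    apply Nat.sub_add_cancel
    exact Nat.le_mul_of_pos_left _ (pow_pos (hP p hp).pos 2)
  rw [h3] at h2
  have h4 : p ^ 2 ∣ h + r p := by
    have h5 : p ^ 2 * r p ≡ 0 [MOD p ^ 2] := (Nat.modEq_zero_iff_dvd).2 (dvd_mul_right _ _)
    exact (Nat.modEq_zero_iff_dvd).1 (h2.trans h5)
  exact_mod_cast h4

end Pool.Agent.H629Chowla
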