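import Pool.Agent.H629Chowla.PolyCount

/-! The deterministic part for polynomials. -/

set_option autoImplicit false

open MeasureTheory ProbabilityTheory Finset Filter Topology Polynomial

namespace Pool.Agent.H629Chowla

variable {Ω : Type*} [MeasurableSpace Ω] {μ : Measure Ω} {ξ : ℕ → Ω → ℝ}

open Classical in
/-- the primes of the window which divide some value of `G` -/
noncomputable def winG (G : ℤ[X]) (N : ℕ) : Finset ℕ :=
  (win N).filter (fun p => ∃ r : ℤ, (p : ℤ) ∣ G.eval r)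

open Classical in
lemma mem_winG {G : ℤ[X]} {N p : ℕ} :
    p ∈ winG G N ↔ p ∈ win N ∧ ∃ r : ℤ, (p : ℤ) ∣ G.eval r := by
  unfold winG
  rw [mem_filter]

lemma winG_sub (G : ℤ[X]) (N : ℕ) : winG G N ⊆ win N := fun _ hp => (mem_winG.1 hp).1

lemma not_dvd_of_lt {D : ℤ} (hD : D ≠ 0) {p : ℕ} (h : D.natAbs < p) : ¬ (p : ℤ) ∣ D := by
  intro hc
  have h1 := Int.natCast_dvd.1 hc
  have := Nat.le_of_dvd (Int.natAbs_pos.2 hD) h1
  omega

lemma map_ne_zero_of_bez (G A B : ℤ[X]) (D : ℤ) (hbez : A * G + B * derivative G = C D) {p : ℕ}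
    (hp : ¬ (p : ℤ) ∣ D) : G.map (Int.castRingHom (ZMod p)) ≠ 0 := by
  intro h0
  apply hp
  have h1 := congrArg (Polynomial.map (Int.castRingHom (ZMod p))) hbez
  rw [Polynomial.map_add, Polynomial.map_mul, Polynomial.map_mul, ← derivative_map, h0,
    derivative_zero, mul_zero, mul_zero, add_zero, map_C] at h1
  have h2 : (Int.castRingHom (ZMod p)) D = 0 := by
    have := congrArg (fun q => coeff q 0) h1
    simpa using this.symm
  rw [eq_intCast, ZMod.intCast_zmod_eq_zero_iff_dvd] at h2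
  exact h2

lemma exists_shift (G A B : ℤ[X]) (D : ℤ) (hbez : A * G + B * derivative G = C D)
    (P : Finset ℕ) (hP : ∀ p ∈ P, p.Prime ∧ ¬ (p : ℤ) ∣ D ∧ ∃ r : ℤ, (p : ℤ) ∣ G.eval r) :
    ∃ h : ℕ, ∀ p ∈ P, ∀ n : ℕ, p ∣ n + h → ¬ p ^ 2 ∣ n + h →
      (p : ℤ) ∣ G.eval (n : ℤ) ∧ ¬ (p : ℤ) ^ 2 ∣ G.eval (n : ℤ) := by
  have hex : ∀ p : ℕ, ∃ r : ℕ, p ∈ P → ((p : ℤ) ^ 2 ∣ G.eval (r : ℤ)) ∧
      ¬ (p : ℤ) ∣ (derivative G).eval (r : ℤ) := by
    intro p
    by_cases hp : p ∈ P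
    · obtain ⟨h1, h2, r0, h3⟩ := hP p hp
      have h4 : ¬ (p : ℤ) ∣ (derivative G).eval r0 := by
        intro hc
        apply h2
        have := congrArg (fun q => eval r0 q) hbez
        simp only [eval_add, eval_mul, eval_C] at this
        rw [← this]
        exact dvd_add (dvd_mul_of_dvd_right h3 _) (dvd_mul_of_dvd_right hc _)
      obtain ⟨r, hr⟩ := hensel G p h1 r0 h3 h4
      exact ⟨r, fun _ => hr⟩
    · exact ⟨0, fun h => absurd h hp⟩
  choose r hr using hex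
  obtain ⟨h, hh⟩ := crt_shift P (fun p hp => (hP p hp).1) r
  refine ⟨h, fun p hp n h1 h2 => ?_⟩
  have hrp := hr p hp
  have hhp := hh p hp
  refine exact_one G p (hP p hp).1 (r p) n hrp.1 hrp.2 ?_ ?_
  · have e1 : (p : ℤ) ∣ (n : ℤ) + h := by exact_mod_cast h1
    have e2 : (p : ℤ) ∣ (h : ℤ) + r p := (dvd_pow_self _ two_ne_zero).trans hhp
    have e3 := dvd_sub e1 e2
    have e4 : (n : ℤ) + h - ((h : ℤ) + r p) = n - r p := by ring
    rwa [e4] at e3
  · intro hc
    apply h2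
    have e3 := dvd_add hc hhp
    have e4 : (n : ℤ) - r p + ((h : ℤ) + r p) = n + h := by ring
    rw [e4] at e3
    exact_mod_cast e3

lemma Th_bound_poly [IsProbabilityMeasure μ] (hs : Signs μ ξ) (G : ℤ[X]) (N h n : ℕ)
    (hh : ∀ p ∈ winG G N, p ∣ n + h → ¬ p ^ 2 ∣ n + h →
      (p : ℤ) ∣ G.eval (n : ℤ) ∧ ¬ (p : ℤ) ^ 2 ∣ G.eval (n : ℤ))
    (hsq : ∀ p ∈ winG G N, ¬ p ^ 2 ∣ n + h) :
    |Th μ ξ (odds (G.eval (n : ℤ)).natAbs ∩ win N)| ≤
      Real.exp (-gg (winG G N) (fun p => 1 - |th μ ξ p|) h n) := by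
  have hsub : (winG G N).filter (fun p => p ∣ n + h) ⊆
      odds (G.eval (n : ℤ)).natAbs ∩ win N := by
    intro p hp
    rw [mem_filter] at hp
    have hw := winG_sub G N hp.1
    have hm := mem_win.1 hw
    obtain ⟨h1, h2⟩ := hh p hp.1 hp.2 (hsq p hp.1)
    have hne : (G.eval (n : ℤ)).natAbs ≠ 0 := by
      intro h0
      apply h2
      rw [Int.natAbs_eq_zero] at h0
      rw [h0]
      exact dvd_zero _
    have h1' : p ∣ (G.eval (n : ℤ)).natAbs := Int.natCast_dvd.1 h1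
    have h2' : ¬ p ^ 2 ∣ (G.eval (n : ℤ)).natAbs := by
      intro hc
      apply h2
      have := Int.natCast_dvd.2 hc
      exact_mod_cast this
    have f1 : 1 ≤ ((G.eval (n : ℤ)).natAbs).factorization p :=
      (hm.2.1.dvd_iff_one_le_factorization hne).1 h1'
    have f2 : ¬ 2 ≤ ((G.eval (n : ℤ)).natAbs).factorization p := fun hc =>
      h2' ((hm.2.1.pow_dvd_iff_le_factorization hne).2 hc)
    have hf : ((G.eval (n : ℤ)).natAbs).factorization p = 1 := by omega
    rw [mem_inter]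
    refine ⟨?_, hw⟩
    unfold odds
    rw [mem_filter, Nat.mem_primeFactors]
    refine ⟨⟨hm.2.1, h1', hne⟩, ?_⟩
    rw [hf]; exact odd_one
  unfold Th
  rw [Finset.abs_prod]
  calc ∏ p ∈ odds (G.eval (n : ℤ)).natAbs ∩ win N, |th μ ξ p|
      ≤ ∏ p ∈ (winG G N).filter (fun p => p ∣ n + h), |th μ ξ p| :=
        Finset.prod_le_prod_of_subset_of_le_one hsub (fun p _ => abs_nonneg _)
          (fun p _ _ => abs_th_le hs p)
    _ ≤ ∏ p ∈ (winG G N).filter (fun p => p ∣ n + h), Real.exp (-(1 - |th μ ξ p|)) := by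
        refine Finset.prod_le_prod (fun p _ => abs_nonneg _) (fun p _ => ?_)
        have := Real.add_one_le_exp (-(1 - |th μ ξ p|))
        linarith
    _ = Real.exp (-gg (winG G N) (fun p => 1 - |th μ ξ p|) h n) := by
        rw [← Real.exp_sum, sum_neg_distrib]
        congr 2
        unfold gg
        rw [sum_filter]

/-- the deterministic part tends to zero -/
lemma det_poly [IsProbabilityMeasure μ] (hs : Signs μ ξ) (G A B : ℤ[X]) (D : ℤ) (hD0 : D ≠ 0)
    (hbez : A * G + B * derivative G = C D)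
    (hD : Tendsto (fun N => MM (winG G N) (fun p => 1 - |th μ ξ p|)) atTop atTop) :
    Tendsto (fun N : ℕ => (∑ n ∈ Icc 1 N, |Th μ ξ (odds (G.eval (n : ℤ)).natAbs ∩ win N)|) / N)
      atTop (𝓝 0) := by
  set κ : ℕ → ℝ := fun p => 1 - |th μ ξ p| with hκ
  have hlog := log_tendsto
  have hlogR : Tendsto (fun N : ℕ => (((Nat.log 2 N) ^ 2 : ℕ) : ℝ)) atTop atTop := by
    apply tendsto_natCast_atTop_atTop.comp
    exact (tendsto_pow_atTop (by norm_num)).comp hlog
  have hM2 : Tendsto (fun N : ℕ => MM (winG G N) κ ^ 2) atTop atTop :=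
    (tendsto_pow_atTop (by norm_num)).comp hD
  have hsqrt : Tendsto (fun N : ℕ => Real.sqrt N) atTop atTop :=
    Real.tendsto_sqrt_atTop.comp tendsto_natCast_atTop_atTop
  have hlim : Tendsto (fun N : ℕ => 1 / (((Nat.log 2 N) ^ 2 : ℕ) : ℝ) + 1 / Real.sqrt N +
      Real.exp (-(MM (winG G N) κ / 2)) + (4 / MM (winG G N) κ + 12 / MM (winG G N) κ ^ 2)) atTop
      (𝓝 (0 + 0 + 0 + (0 + 0))) := by
    refine ((((tendsto_const_nhds.div_atTop hlogR)).add (tendsto_const_nhds.div_atTop hsqrt)).add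
      ?_).add ((tendsto_const_nhds.div_atTop hD).add (tendsto_const_nhds.div_atTop hM2))
    refine Real.tendsto_exp_neg_atTop_nhds_zero.comp ?_
    exact hD.atTop_div_const (by norm_num)
  simp only [add_zero] at hlim
  refine squeeze_zero' (Filter.Eventually.of_forall (fun N => by positivity)) ?_ hlim
  filter_upwards [eventually_ge_atTop 1, hD.eventually_gt_atTop 0,
    (tendsto_pow_atTop (two_ne_zero)).comp hlog |>.eventually_ge_atTop (D.natAbs + 1)]
    with N hN hM hY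
  have hY' : D.natAbs + 1 ≤ (Nat.log 2 N) ^ 2 := hY
  obtain ⟨h, hh⟩ := exists_shift G A B D hbez (winG G N) (fun p hp => by
    have hw := mem_win.1 (winG_sub G N hp)
    exact ⟨hw.2.1, not_dvd_of_lt hD0 (by omega), (mem_winG.1 hp).2⟩)
  exact avg_le N h ((Nat.log 2 N) ^ 2) hN (by omega) (winG G N)
    (fun p hp => (mem_win.1 (winG_sub G N hp)).2.1)
    (fun p hp => (mem_win.1 (winG_sub G N hp)).2.2.1)
    ((Nat.pow_le_pow_left (card_le_card (winG_sub G N)) 2).trans (win_card_sq N)) κ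
    (fun p => by rw [hκ]; have := abs_th_le hs p; dsimp only; linarith)
    (fun p => by rw [hκ]; have := abs_nonneg (th μ ξ p); dsimp only; linarith) hM
    (fun n => |Th μ ξ (odds (G.eval (n : ℤ)).natAbs ∩ win N)|) (fun n => abs_Th_le hs _)
    (fun n hn hq => Th_bound_poly hs G N h n (fun p hp => hh p hp n) hq)

/-- almost sure convergence for the values of `G` -/
theorem poly_ae [IsProbabilityMeasure μ] (hs : Signs μ ξ) (G A B : ℤ[X]) (D : ℤ) (hD0 : D ≠ 0)
    (hbez : A * G + B * derivative G = C D)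
    (hD : Tendsto (fun N => MM (winG G N) (fun p => 1 - |th μ ξ p|)) atTop atTop)
    (b : ℕ → ℝ) (hb : ∀ n, |b n| ≤ 1) :
    ∀ᵐ ω ∂μ, Tendsto (fun N : ℕ =>
      (∑ n ∈ Icc 1 N, b n * mono ξ (odds (G.eval (n : ℤ)).natAbs) ω) / N) atTop (𝓝 0) := by
  have h1 := main_gen hs b hb (fun n => (G.eval (n : ℤ)).natAbs) (2 * G.natDegree : ℝ) (by
    filter_upwards [(tendsto_pow_atTop (two_ne_zero)).comp log_tendsto
      |>.eventually_ge_atTop (D.natAbs + 1)] with N hY p hp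
    have hY' : D.natAbs + 1 ≤ (Nat.log 2 N) ^ 2 := hY
    have hw := mem_win.1 hp
    exact card_poly G p N hw.2.1 hw.1.2
      (map_ne_zero_of_bez G A B D hbez (not_dvd_of_lt hD0 (by omega))))
    (det_poly hs G A B D hD0 hbez hD)
  exact h1

end Pool.Agent.H629Chowla
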