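import Mathlib

/-! Polynomials which are not a constant times a square. -/

set_option autoImplicit false

open Polynomial

namespace Pool.Agent.H629Chowla

lemma clear_den (q : ℚ[X]) : ∃ (m : ℤ) (Q : ℤ[X]), m ≠ 0 ∧
    Q.map (Int.castRingHom ℚ) = C (m : ℚ) * q := by
  obtain ⟨b, hb, h⟩ := IsLocalization.integerNormalization_spec (nonZeroDivisors ℤ) q
  refine ⟨b, IsLocalization.integerNormalization (nonZeroDivisors ℤ) q,
    nonZeroDivisors.ne_zero hb, ?_⟩
  have e : algebraMap ℤ ℚ = Int.castRingHom ℚ := rfl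
  rw [e] at h
  rw [h, zsmul_eq_mul]
  congr 1

lemma map_inj : Function.Injective (Polynomial.map (Int.castRingHom ℚ)) :=
  Polynomial.map_injective _ Int.cast_injective

lemma square_descent (f : ℤ[X]) (c0 : ℚ) (h : ℚ[X])
    (hF : f.map (Int.castRingHom ℚ) = C c0 * h ^ 2) :
    ∃ (c : ℤ) (g : ℤ[X]), f = C c * g ^ 2 := by
  obtain ⟨m, H, hm, hH⟩ := clear_den h
  set k := H.content with hk
  set P := H.primPart with hP
  have hHP : H = C k * P := eq_C_content_mul_primPart H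
  have hPp : P.IsPrimitive := isPrimitive_primPart H
  set u := c0.num with hu
  set v : ℤ := ((c0.den : ℕ) : ℤ) with hv
  have hv0 : v ≠ 0 := by
    rw [hv]; exact_mod_cast c0.den_nz
  have huv : (u : ℚ) = c0 * v := by
    rw [hu, hv]
    have := Rat.mul_den_eq_num c0
    rw [← this]; push_cast; rfl
  have key : C (v * m ^ 2) * f = C (u * k ^ 2) * P ^ 2 := by
    apply map_inj
    rw [Polynomial.map_mul, Polynomial.map_mul, map_C, map_C, Polynomial.map_pow, hF]
    have e1 : (C (k : ℚ) : ℚ[X]) * P.map (Int.castRingHom ℚ) = C (m : ℚ) * h := by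
      rw [← hH, hHP, Polynomial.map_mul, map_C]
      simp
    simp only [eq_intCast, Int.cast_mul, Int.cast_pow, huv]
    have e2 : (C ((v : ℚ) * (m : ℚ) ^ 2) : ℚ[X]) * (C c0 * h ^ 2) =
        C c0 * C (v : ℚ) * (C (m : ℚ) * h) ^ 2 := by
      rw [C_mul, C_pow]; ring
    have e3 : (C (c0 * (v : ℚ) * (k : ℚ) ^ 2) : ℚ[X]) * (P.map (Int.castRingHom ℚ)) ^ 2 =
        C c0 * C (v : ℚ) * (C (k : ℚ) * P.map (Int.castRingHom ℚ)) ^ 2 := by
      rw [C_mul, C_mul, C_pow]; ring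
    rw [e2, e3, e1]
  have hdvd : v * m ^ 2 ∣ u * k ^ 2 := by
    have h1 := congrArg content key
    rw [content_C_mul, content_C_mul, pow_two P, (hPp.mul hPp).content_eq_one, mul_one] at h1
    have h2 : normalize (v * m ^ 2) ∣ normalize (u * k ^ 2) := ⟨_, h1.symm⟩
    rwa [normalize_dvd_iff, dvd_normalize_iff] at h2
  obtain ⟨w, hw⟩ := hdvd
  refine ⟨w, P, ?_⟩
  have hne : (C (v * m ^ 2) : ℤ[X]) ≠ 0 := by
    rw [Ne, C_eq_zero]
    exact mul_ne_zero hv0 (pow_ne_zero 2 hm)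
  apply mul_left_cancel₀ hne
  rw [key, hw, C_mul (a := v * m ^ 2)]
  ring

/-- the decomposition into a square and a separable part -/
lemma decompose (f : ℤ[X]) (hf : ¬ ∃ (c : ℤ) (g : ℤ[X]), f = C c * g ^ 2) :
    ∃ (m : ℤ) (H G A B : ℤ[X]) (D : ℤ), m ≠ 0 ∧ D ≠ 0 ∧ 0 < G.natDegree ∧
      C m * f = H ^ 2 * G ∧ A * G + B * derivative G = C D := by
  have hf0 : f ≠ 0 := by
    rintro rfl
    exact hf ⟨0, 0, by simp⟩
  set F := f.map (Int.castRingHom ℚ) with hF
  have hF0 : F ≠ 0 := by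
    rw [hF, Ne, Polynomial.map_eq_zero_iff Int.cast_injective]
    exact hf0
  set S : Set ℕ := {d | ∃ h : ℚ[X], h ^ 2 ∣ F ∧ h.natDegree = d} with hS
  have hSne : S.Nonempty := ⟨0, 1, by simp, by simp⟩
  have hSb : BddAbove S := by
    refine ⟨F.natDegree, ?_⟩
    rintro d ⟨h, h1, h2⟩
    have h3 := natDegree_le_of_dvd h1 hF0
    rw [natDegree_pow] at h3
    omega
  obtain ⟨h, ⟨g, hg⟩, hd⟩ := Nat.sSup_mem hSne hSb
  have hh0 : h ≠ 0 := by
    rintro rfl
    apply hF0
    rw [hg]; ring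
  have hg0 : g ≠ 0 := by
    rintro rfl
    apply hF0
    rw [hg]; ring
  have hsq : Squarefree g := by
    rintro x ⟨y, hy⟩
    have hx0 : x ≠ 0 := by
      rintro rfl
      apply hg0
      rw [hy]; ring
    have h1 : (h * x) ^ 2 ∣ F := ⟨y, by rw [hg, hy]; ring⟩
    have h2 : (h * x).natDegree ≤ sSup S := le_csSup hSb ⟨h * x, h1, rfl⟩
    rw [natDegree_mul hh0 hx0] at h2
    have h3 : x.natDegree = 0 := by omega
    rw [isUnit_iff_degree_eq_zero, degree_eq_natDegree hx0, h3]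
    rfl
  have hsep : g.Separable := PerfectField.separable_iff_squarefree.2 hsq
  obtain ⟨a, b, hab⟩ := hsep
  have hgd : 0 < g.natDegree := by
    by_contra hcon
    have h0 : g.natDegree = 0 := by omega
    rw [natDegree_eq_zero] at h0
    obtain ⟨c0, hc0⟩ := h0
    apply hf
    apply square_descent f c0 h
    rw [← hF, hg, ← hc0]; ring
  obtain ⟨m1, H, hm1, hH⟩ := clear_den h
  obtain ⟨m2, G, hm2, hG⟩ := clear_den g
  obtain ⟨m3, A1, hm3, hA1⟩ := clear_den a
  obtain ⟨m4, B1, hm4, hB1⟩ := clear_den b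
  have hm2' : (m2 : ℚ) ≠ 0 := by exact_mod_cast hm2
  refine ⟨m1 ^ 2 * m2, H, G, C m4 * A1, C m3 * B1, m2 * m3 * m4,
    mul_ne_zero (pow_ne_zero 2 hm1) hm2, mul_ne_zero (mul_ne_zero hm2 hm3) hm4, ?_, ?_, ?_⟩
  · have h1 : (G.map (Int.castRingHom ℚ)).natDegree = G.natDegree :=
      natDegree_map_eq_of_injective Int.cast_injective G
    rw [← h1, hG, natDegree_C_mul hm2']
    exact hgd
  · apply map_inj
    rw [Polynomial.map_mul, Polynomial.map_mul, map_C, Polynomial.map_pow, ← hF, hG, hH, hg]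
    simp only [eq_intCast, Int.cast_mul, Int.cast_pow, C_mul, C_pow]
    ring
  · apply map_inj
    rw [Polynomial.map_add, Polynomial.map_mul, Polynomial.map_mul, Polynomial.map_mul,
      Polynomial.map_mul, map_C, map_C, map_C, ← derivative_map, hG, hA1, hB1, derivative_C_mul]
    simp only [eq_intCast, Int.cast_mul, C_mul]
    linear_combination (C (m2 : ℚ) * C (m3 : ℚ) * C (m4 : ℚ)) * hab

end Pool.Agent.H629Chowla
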