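import Pool.Agent.H629Chowla.PolyMass
import Pool.Agent.H629Chowla.PolyRed

/-! Chowla's conjecture at polynomial values after random sign changes. -/

set_option autoImplicit false

open MeasureTheory ProbabilityTheory Finset Filter Topology Polynomial

namespace Pool.Agent.H629Chowla

/-- extension to all integers, `0` at `0` -/
noncomputable def lamZ (Q : Set ℕ) (m : ℤ) : ℝ := if m = 0 then 0 else lam Q m.natAbs

lemma countable_poly : Countable ℤ[X] := by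
  rw [← Cardinal.mk_le_aleph0_iff]
  exact Polynomial.cardinalMk_le_max.trans (by simp)

variable {Ω : Type*} [MeasurableSpace Ω] {μ : Measure Ω}

lemma MM_winG_tendsto [IsProbabilityMeasure μ] (Q : Ω → Set ℕ)
    (hm : ∀ p, MeasurableSet {ω | p ∈ Q ω})
    (δ : ℕ → ℝ) (hδ : Antitone δ) (h0 : ∀ n, 0 ≤ δ n)
    (hlim : Tendsto (fun N : ℕ => δ N * Real.log (Real.log N)) atTop atTop)
    (he : ∀ p : ℕ, p.Prime → δ p ≤ μ.real {ω | p ∈ Q ω} ∧ μ.real {ω | p ∈ Q ω} ≤ 1 - δ p)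
    (G : ℤ[X]) (hG : 0 < G.natDegree) :
    Tendsto (fun N => MM (winG G N) (fun p => 1 - |th μ (fun p ω => sg (Q ω) p) p|))
      atTop atTop := by
  obtain ⟨c, hc, hev⟩ := window_sum_poly G hG
  have h1 : Tendsto (fun N : ℕ => (2 * c) * (δ N * Real.log (Real.log N))) atTop atTop :=
    hlim.const_mul_atTop (by positivity)
  refine tendsto_atTop_mono' _ ?_ h1
  filter_upwards [hev] with N hN
  calc (2 * c) * (δ N * Real.log (Real.log N)) = (2 * δ N) * (c * Real.log (Real.log N)) := by ring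
    _ ≤ (2 * δ N) * ∑ p ∈ winG G N, (1 : ℝ) / p :=
        mul_le_mul_of_nonneg_left hN (by linarith [h0 N])
    _ = ∑ p ∈ winG G N, (2 * δ N) * (1 / p) := by rw [mul_sum]
    _ ≤ MM (winG G N) (fun p => 1 - |th μ (fun p ω => sg (Q ω) p) p|) := by
        unfold MM
        refine sum_le_sum (fun p hp => ?_)
        have hm' := mem_win.1 (winG_sub G N hp)
        have hp0 : (0 : ℝ) < p := by exact_mod_cast hm'.2.1.pos
        have h2 : δ N ≤ δ p := hδ hm'.1.2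
        have h3 := he p hm'.2.1
        have h4 : 1 - |th μ (fun p ω => sg (Q ω) p) p| =
            2 * min (μ.real {ω | p ∈ Q ω}) (1 - μ.real {ω | p ∈ Q ω}) := by
          rw [th_eq Q hm, one_sub_abs]
        rw [mul_one_div]
        apply div_le_div_of_nonneg_right _ hp0.le
        dsimp only
        rw [h4]
        have h5 : δ N ≤ min (μ.real {ω | p ∈ Q ω}) (1 - μ.real {ω | p ∈ Q ω}) :=
          le_min (by linarith) (by linarith)
        linarith

/-- one polynomial -/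
theorem poly_one [IsProbabilityMeasure μ] (Q : Ω → Set ℕ)
    (hm : ∀ p, MeasurableSet {ω | p ∈ Q ω}) (hi : iIndepSet (fun p => {ω | p ∈ Q ω}) μ)
    (δ : ℕ → ℝ) (hδ : Antitone δ) (h0 : ∀ n, 0 ≤ δ n)
    (hlim : Tendsto (fun N : ℕ => δ N * Real.log (Real.log N)) atTop atTop)
    (he : ∀ p : ℕ, p.Prime → δ p ≤ μ.real {ω | p ∈ Q ω} ∧ μ.real {ω | p ∈ Q ω} ≤ 1 - δ p)
    (w : ℕ → ℝ) (hw : ∀ n, |w n| ≤ 1) (f : ℤ[X])
    (hf : ¬ ∃ (c : ℤ) (g : ℤ[X]), f = C c * g ^ 2) :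
    ∀ᵐ ω ∂μ, Tendsto (fun N : ℕ => (∑ n ∈ Icc 1 N, w n * lamZ (Q ω) (f.eval (n : ℤ))) / N)
      atTop (𝓝 0) := by
  obtain ⟨m, H, G, A, B, D, hm0, hD0, hGd, hrel, hbez⟩ := decompose f hf
  set ξ : ℕ → Ω → ℝ := fun p ω => sg (Q ω) p with hξ
  have hs : Signs μ ξ := signs_of_set Q hm hi
  have hD := MM_winG_tendsto Q hm δ hδ h0 hlim he G hGd
  set b : ℕ → ℝ := fun n => (if f.eval (n : ℤ) = 0 then 0 else w n) *
    (-1) ^ ((G.eval (n : ℤ)).natAbs.primeFactorsList.length) with hb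
  have hb1 : ∀ n, |b n| ≤ 1 := by
    intro n
    rw [hb]
    dsimp only
    rw [abs_mul, abs_pow, abs_neg, abs_one, one_pow, mul_one]
    split_ifs
    · simp
    · exact hw n
  filter_upwards [poly_ae hs G A B D hD0 hbez hD b hb1] with ω hω
  have h1 := hω.const_mul (lam (Q ω) m.natAbs)
  rw [mul_zero] at h1
  refine h1.congr (fun N => ?_)
  rw [← mul_div_assoc]
  congr 1
  rw [mul_sum]
  refine sum_congr rfl (fun n hn => ?_)
  rw [hb]
  dsimp only
  unfold lamZ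
  by_cases hfn : f.eval (n : ℤ) = 0
  · rw [if_pos hfn, if_pos hfn]; ring
  · rw [if_neg hfn, if_neg hfn]
    have key : lam (Q ω) (f.eval (n : ℤ)).natAbs =
        lam (Q ω) m.natAbs * lam (Q ω) (G.eval (n : ℤ)).natAbs := by
      have e := congrArg (fun q => (q.eval (n : ℤ)).natAbs) hrel
      simp only [eval_mul, eval_C, eval_pow, Int.natAbs_mul, Int.natAbs_pow] at e
      have hfn' : (f.eval (n : ℤ)).natAbs ≠ 0 := Int.natAbs_ne_zero.2 hfn
      have hm' : m.natAbs ≠ 0 := Int.natAbs_ne_zero.2 hm0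
      have hprod : (H.eval (n : ℤ)).natAbs ^ 2 * (G.eval (n : ℤ)).natAbs ≠ 0 := by
        rw [← e]; exact mul_ne_zero hm' hfn'
      have hH' : (H.eval (n : ℤ)).natAbs ≠ 0 := by
        intro h; apply hprod; rw [h]; ring
      have hG' : (G.eval (n : ℤ)).natAbs ≠ 0 := by
        intro h; apply hprod; rw [h]; ring
      have e2 := congrArg (lam (Q ω)) e
      rw [lam_mul _ hm' hfn', lam_mul _ (pow_ne_zero 2 hH') hG', pow_two,
        lam_mul _ hH' hH'] at e2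
      rcases lam_sign (Q ω) m.natAbs with h | h <;>
        rcases lam_sign (Q ω) (H.eval (n : ℤ)).natAbs with h' | h' <;>
        rw [h, h'] at e2 <;> rw [h] <;> linarith
    rw [key, lam_eq (Q ω) (G.eval (n : ℤ)).natAbs]
    unfold mono
    rw [hξ]
    ring

/-- all polynomials -/
theorem poly_all [IsProbabilityMeasure μ] (Q : Ω → Set ℕ)
    (hm : ∀ p, MeasurableSet {ω | p ∈ Q ω}) (hi : iIndepSet (fun p => {ω | p ∈ Q ω}) μ)
    (δ : ℕ → ℝ) (hδ : Antitone δ) (h0 : ∀ n, 0 ≤ δ n)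
    (hlim : Tendsto (fun N : ℕ => δ N * Real.log (Real.log N)) atTop atTop)
    (he : ∀ p : ℕ, p.Prime → δ p ≤ μ.real {ω | p ∈ Q ω} ∧ μ.real {ω | p ∈ Q ω} ≤ 1 - δ p)
    (w : ℕ → ℝ) (hw : ∀ n, |w n| ≤ 1) :
    ∀ᵐ ω ∂μ, ∀ f : ℤ[X], (¬ ∃ (c : ℤ) (g : ℤ[X]), f = C c * g ^ 2) →
      Tendsto (fun N : ℕ => (∑ n ∈ Icc 1 N, w n * lamZ (Q ω) (f.eval (n : ℤ))) / N)
      atTop (𝓝 0) := by
  have := countable_poly
  rw [ae_all_iff]
  intro f
  by_cases hf : ∃ (c : ℤ) (g : ℤ[X]), f = C c * g ^ 2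
  · exact Filter.Eventually.of_forall (fun ω h => absurd hf h)
  · filter_upwards [poly_one Q hm hi δ hδ h0 hlim he w hw f hf] with ω hω _
    exact hω

end Pool.Agent.H629Chowla
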