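import Pool.Agent.H629Chowla.Suff
import Pool.Agent.H629Chowla.PolyDet
import Pool.Agent.H692R2.USS.SplitField
import Pool.Agent.H692R2.USS.T5
import Pool.Agent.H692R2.USS.T1

/-! The reciprocal sum of the primes which divide some value of a polynomial. -/

set_option autoImplicit false

open Finset Filter Topology Polynomial

namespace Pool.Agent.H629Chowla

open Pool.Agent.H692R2.USS in
/-- a prime which splits the normalisation has a root of `G` -/
lemma root_of_split (G : ℤ[X]) (hG : 0 < G.natDegree) : ∃ k : ℕ, ∀ p : ℕ, p.Prime →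
    ¬ (p : ℤ) ∣ G.leadingCoeff → SplitAll k p → ∃ r : ℤ, (p : ℤ) ∣ G.eval r := by
  set M := G.integralNormalization with hMdef
  have hG0 : G ≠ 0 := by rintro rfl; simp at hG
  have hM : M.Monic := monic_integralNormalization hG0
  have hMd : M.natDegree = G.natDegree := natDegree_integralNormalization
  set k := max M.natDegree ((M.support).sup (fun i => (M.coeff i).natAbs)) with hk
  refine ⟨k, fun p hp hpa hs => ?_⟩
  have := Fact.mk hp
  have h1 := hs M hM (le_max_left _ _) (fun i => by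
    by_cases hi : i ∈ M.support
    · have h2 := Finset.le_sup (f := fun i => (M.coeff i).natAbs) hi
      have h3 : (M.coeff i).natAbs ≤ k := h2.trans (le_max_right _ _)
      rw [Int.abs_eq_natAbs]
      exact_mod_cast h3
    · rw [notMem_support_iff.1 hi]; simp)
  set φ := Int.castRingHom (ZMod p) with hφ
  have hdeg : (M.map φ).degree ≠ 0 := by
    rw [hM.degree_map, degree_eq_natDegree hM.ne_zero, hMd]
    exact_mod_cast hG.ne'
  obtain ⟨y, hy⟩ := h1.exists_eval_eq_zero hdeg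
  have ha : φ G.leadingCoeff ≠ 0 := by
    rw [hφ, eq_intCast, Ne, ZMod.intCast_zmod_eq_zero_iff_dvd]; exact hpa
  have h2 := integralNormalization_eval₂_leadingCoeff_mul (p := G) hG φ (y / φ G.leadingCoeff)
  have e : φ G.leadingCoeff * (y / φ G.leadingCoeff) = y := by field_simp
  rw [e] at h2
  rw [eval_map] at hy
  rw [← hMdef, hy] at h2
  have h3 : eval₂ φ (y / φ G.leadingCoeff) G = 0 := by
    rcases mul_eq_zero.1 h2.symm with h | h
    · exact absurd h (pow_ne_zero _ ha)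
    · exact h
  refine ⟨((y / φ G.leadingCoeff).val : ℤ), ?_⟩
  rw [← ZMod.intCast_zmod_eq_zero_iff_dvd]
  have h4 := eval_natCast_map φ G (y / φ G.leadingCoeff).val
  rw [ZMod.natCast_zmod_val, eval_map, h3] at h4
  rw [← eq_intCast (Int.castRingHom (ZMod p))]
  exact h4.symm

open Classical in
/-- the primes which divide some value of `G` -/
noncomputable def PG (G : ℤ[X]) (L : ℕ) : Finset ℕ :=
  (range (2 ^ L)).filter (fun p => p.Prime ∧ ∃ r : ℤ, (p : ℤ) ∣ G.eval r)

open Pool.Agent.H692R2.USS in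
lemma mass_poly (G : ℤ[X]) (hG : 0 < G.natDegree) : ∃ c C : ℝ, 0 < c ∧ ∀ L : ℕ, 1 ≤ L →
    c * Real.log L - C ≤ ∑ p ∈ PG G L, (1 : ℝ) / p := by
  classical
  have hG0 : G ≠ 0 := by rintro rfl; simp at hG
  have hl0 : G.leadingCoeff ≠ 0 := leadingCoeff_ne_zero.2 hG0
  obtain ⟨k, hk⟩ := root_of_split G hG
  obtain ⟨K, _, _, hK⟩ := splitField k
  obtain ⟨c, C, hc, hm⟩ := massK bt K
  set a := G.leadingCoeff.natAbs with ha
  refine ⟨c, C + (a + 1), hc, fun L hL => ?_⟩
  have h1 := hm L hL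
  have hsub : (range (2 ^ L)).filter (fun p => p.Prime ∧ HasDegOne K p) ⊆
      PG G L ∪ (Icc 1 a) := by
    intro p hp
    rw [mem_filter] at hp
    rw [mem_union]
    by_cases hpa : (p : ℤ) ∣ G.leadingCoeff
    · right
      rw [mem_Icc]
      exact ⟨hp.2.1.one_le, Nat.le_of_dvd (Int.natAbs_pos.2 hl0) (Int.natCast_dvd.1 hpa)⟩
    · left
      unfold PG
      rw [mem_filter]
      exact ⟨hp.1, hp.2.1, hk p hp.2.1 hpa (hK p hp.2.1 hp.2.2)⟩
  have h2 : ∑ p ∈ (range (2 ^ L)).filter (fun p => p.Prime ∧ HasDegOne K p), (1 : ℝ) / p ≤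
      ∑ p ∈ PG G L, (1 : ℝ) / p + ∑ p ∈ Icc 1 a, (1 : ℝ) / p := by
    refine (sum_le_sum_of_subset_of_nonneg hsub (fun p _ _ => by positivity)).trans ?_
    have := sum_union_inter (s₁ := PG G L) (s₂ := Icc 1 a) (f := fun p : ℕ => (1 : ℝ) / p)
    have h3 : 0 ≤ ∑ p ∈ PG G L ∩ Icc 1 a, (1 : ℝ) / p := sum_nonneg (fun p _ => by positivity)
    linarith
  have h4 : ∑ p ∈ Icc 1 a, (1 : ℝ) / p ≤ a := by
    calc ∑ p ∈ Icc 1 a, (1 : ℝ) / p ≤ ∑ p ∈ Icc 1 a, (1 : ℝ) := by
          refine sum_le_sum (fun p hp => ?_)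
          have : (1 : ℝ) ≤ p := by exact_mod_cast (mem_Icc.1 hp).1
          rw [div_le_one (by linarith)]
          exact this
      _ = a := by simp
  have h5 : c * Real.log L - C ≤ ∑ p ∈ (range (2 ^ L)).filter
      (fun p => p.Prime ∧ HasDegOne K p), (1 : ℝ) / p := by
    convert h1 using 2
  linarith

lemma window_sum_poly (G : ℤ[X]) (hG : 0 < G.natDegree) : ∃ c : ℝ, 0 < c ∧
    ∀ᶠ N : ℕ in atTop, c * Real.log (Real.log N) ≤ ∑ p ∈ winG G N, (1 : ℝ) / p := by
  classical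
  obtain ⟨c, C1, hc, hm⟩ := mass_poly G hG
  obtain ⟨C, hC⟩ := Pool.Agent.Helper601.Mertens.mertens_inv
  refine ⟨c / 4, by positivity, ?_⟩
  have hl2 : 0 < Real.log 2 := Real.log_pos (by norm_num)
  have hlit : Tendsto (fun L : ℕ => Real.log (L : ℝ)) atTop atTop :=
    Real.tendsto_log_atTop.comp tendsto_natCast_atTop_atTop
  have hlo : ∀ᶠ L : ℕ in atTop, 2 * Real.log (L : ℝ) ≤ (L : ℝ) ^ (c / 4 : ℝ) := by
    have h := (isLittleO_log_rpow_atTop (r := c / 4) (by positivity)).def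
      (c := 1 / 2) (by norm_num)
    have h2 := tendsto_natCast_atTop_atTop (R := ℝ) |>.eventually h
    filter_upwards [h2, eventually_ge_atTop 1] with L hL hL1
    have hL1' : (1 : ℝ) ≤ L := by exact_mod_cast hL1
    rw [Real.norm_of_nonneg (Real.log_nonneg hL1'),
      Real.norm_of_nonneg (Real.rpow_nonneg (by linarith) _)] at hL
    linarith
  have hbig : ∀ᶠ L : ℕ in atTop, (2 / c) * (c * Real.log 8 + C1 + C + c * Real.log 2) ≤
      Real.log (L : ℝ) := hlit.eventually_ge_atTop _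
  have hL := log_tendsto.eventually (hlo.and (hbig.and (eventually_ge_atTop 16)))
  filter_upwards [hL, eventually_ge_atTop 16] with N hN hN16
  obtain ⟨h1, h2, h3⟩ := hN
  set L := Nat.log 2 N with hLdef
  have hLr : (16 : ℝ) ≤ L := by exact_mod_cast h3
  have hLpos : (0 : ℝ) < L := by linarith
  have hlogL : 1 < Real.log (L : ℝ) := by
    rw [Real.lt_log_iff_exp_lt hLpos]
    have := Real.exp_one_lt_d9
    linarith
  set R := 2 ^ (L / 4) with hR
  have hR4 : R ^ 4 ≤ N := by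
    calc R ^ 4 = 2 ^ (L / 4 * 4) := by rw [hR, ← pow_mul]
      _ ≤ 2 ^ L := Nat.pow_le_pow_right (by norm_num) (Nat.div_mul_le_self L 4)
      _ ≤ N := Nat.pow_log_le_self 2 (by omega)
  have hY3 : 3 ≤ L ^ 2 := by nlinarith
  have hsub : PG G (L / 4) \ ((Icc 1 (L ^ 2)).filter Nat.Prime) ⊆ winG G N := by
    intro p hp
    unfold PG at hp
    rw [Finset.mem_sdiff, mem_filter, mem_range, mem_filter, mem_Icc] at hp
    obtain ⟨⟨a1, a2, a3⟩, a4⟩ := hp
    have hp4 : p ^ 4 ≤ N := (Nat.pow_le_pow_left a1.le 4).trans hR4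
    rw [mem_winG, mem_win]
    refine ⟨⟨⟨a2.one_le, ?_⟩, a2, ?_, hp4⟩, a3⟩
    · calc p = p ^ 1 := (pow_one p).symm
        _ ≤ p ^ 4 := Nat.pow_le_pow_right a2.one_le (by norm_num)
        _ ≤ N := hp4
    · by_contra hcon
      exact a4 ⟨⟨a2.one_le, not_lt.1 hcon⟩, a2⟩
  have hge : ∑ p ∈ PG G (L / 4), (1 : ℝ) / p -
      ∑ p ∈ (Icc 1 (L ^ 2)).filter Nat.Prime, (1 : ℝ) / p ≤ ∑ p ∈ winG G N, (1 : ℝ) / p := by
    have hx := sum_le_sum_of_subset_of_nonneg (f := fun p : ℕ => (1 : ℝ) / p) hsub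
      (fun p _ _ => by positivity)
    have hy : ∑ p ∈ PG G (L / 4), (1 : ℝ) / p ≤
        ∑ p ∈ PG G (L / 4) \ ((Icc 1 (L ^ 2)).filter Nat.Prime), (1 : ℝ) / p +
          ∑ p ∈ (Icc 1 (L ^ 2)).filter Nat.Prime, (1 : ℝ) / p := by
      rw [← sum_union (sdiff_disjoint)]
      refine sum_le_sum_of_subset_of_nonneg ?_ (fun p _ _ => by positivity)
      intro p hp
      by_cases hq : p ∈ (Icc 1 (L ^ 2)).filter Nat.Prime
      · exact mem_union_right _ hq
      · exact mem_union_left _ (Finset.mem_sdiff.2 ⟨hp, hq⟩)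
    linarith
  have m1 := hm (L / 4) (by omega)
  have m2 := (abs_le.1 (hC (L ^ 2) hY3)).2
  have e2 : Real.log (((L ^ 2 : ℕ)) : ℝ) = 2 * Real.log L := by
    push_cast; rw [Real.log_pow]; norm_num
  have hq : (L : ℝ) / 8 ≤ ((L / 4 : ℕ) : ℝ) := by
    have h4 : L ≤ 8 * (L / 4) := by omega
    have : (L : ℝ) ≤ 8 * ((L / 4 : ℕ) : ℝ) := by exact_mod_cast h4
    linarith
  have l1 : Real.log L - Real.log 8 ≤ Real.log ((L / 4 : ℕ) : ℝ) := by
    rw [← Real.log_div hLpos.ne' (by norm_num)]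
    exact Real.log_le_log (by positivity) hq
  have l2 : Real.log (Real.log ((L ^ 2 : ℕ) : ℝ)) ≤ (c / 4) * Real.log L := by
    rw [e2]
    calc Real.log (2 * Real.log L) ≤ Real.log ((L : ℝ) ^ (c / 4 : ℝ)) :=
          Real.log_le_log (by linarith) h1
      _ = (c / 4) * Real.log L := Real.log_rpow hLpos _
  have hN0 : (0 : ℝ) < N := by
    have : 0 < N := by omega
    exact_mod_cast this
  have l3 : Real.log N ≤ 2 * L := by
    have h5 : (N : ℝ) < 2 ^ (L + 1) := by
      exact_mod_cast Nat.lt_pow_succ_log_self (by norm_num) N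
    have h6 := Real.log_le_log hN0 h5.le
    rw [Real.log_pow] at h6
    push_cast at h6
    have h7 : Real.log 2 < 0.6931471808 := Real.log_two_lt_d9
    nlinarith
  have hlogN : 0 < Real.log N := Real.log_pos (by
    have : 1 < N := by omega
    exact_mod_cast this)
  have l4 : Real.log (Real.log N) ≤ Real.log 2 + Real.log L := by
    rw [← Real.log_mul (by norm_num) hLpos.ne']
    exact Real.log_le_log hlogN l3
  -- collect
  have h2' : c * Real.log 8 + C1 + C + c * Real.log 2 ≤ (c / 2) * Real.log L := by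
    have := mul_le_mul_of_nonneg_left h2 (by positivity : (0 : ℝ) ≤ c / 2)
    have e : (c / 2) * ((2 / c) * (c * Real.log 8 + C1 + C + c * Real.log 2)) =
        c * Real.log 8 + C1 + C + c * Real.log 2 := by field_simp
    linarith
  have l1' := mul_le_mul_of_nonneg_left l1 hc.le
  have l4' := mul_le_mul_of_nonneg_left l4 (by positivity : (0 : ℝ) ≤ c / 4)
  have hc2 : 0 ≤ c * Real.log 2 := by positivity
  nlinarith

end Pool.Agent.H629Chowla
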