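import Pool.Agent.H629Chowla.PolyMain

/-! Sign patterns along several polynomials. -/

set_option autoImplicit false

open MeasureTheory ProbabilityTheory Finset Filter Topology Polynomial

namespace Pool.Agent.H629Chowla

lemma lamZ_one (Q : Set ℕ) : lamZ Q 1 = 1 := by
  unfold lamZ
  rw [if_neg one_ne_zero]
  exact lam_one Q

lemma lamZ_mul (Q : Set ℕ) (a b : ℤ) : lamZ Q (a * b) = lamZ Q a * lamZ Q b := by
  unfold lamZ
  by_cases ha : a = 0
  · rw [ha]; simp
  · by_cases hb : b = 0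
    · rw [hb]; simp
    · rw [if_neg ha, if_neg hb, if_neg (mul_ne_zero ha hb), Int.natAbs_mul]
      exact lam_mul Q (Int.natAbs_ne_zero.2 ha) (Int.natAbs_ne_zero.2 hb)

lemma lamZ_prod (Q : Set ℕ) {ι : Type*} (s : Finset ι) (f : ι → ℤ) :
    lamZ Q (∏ i ∈ s, f i) = ∏ i ∈ s, lamZ Q (f i) := by
  classical
  induction s using Finset.induction_on with
  | empty => simp [lamZ_one]
  | insert a s ha ih => rw [prod_insert ha, prod_insert ha, lamZ_mul, ih]

lemma lamZ_sq (Q : Set ℕ) (m : ℤ) : lamZ Q m * lamZ Q m = if m = 0 then 0 else 1 := by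
  unfold lamZ
  split_ifs with h
  · simp
  · rcases lam_sign Q m.natAbs with h | h <;> rw [h] <;> norm_num

/-- almost all values of a nonzero polynomial are nonzero -/
lemma nonzero_density (F : ℤ[X]) (hF : F ≠ 0) :
    Tendsto (fun N : ℕ => (∑ n ∈ Icc 1 N, if F.eval (n : ℤ) = 0 then (0 : ℝ) else 1) / N)
      atTop (𝓝 1) := by
  classical
  have hfin : {n : ℕ | F.eval (n : ℤ) = 0}.Finite := by
    have h1 : ((F.roots.toFinset : Set ℤ)).Finite := Finset.finite_toSet _
    refine (h1.preimage (f := fun n : ℕ => (n : ℤ)) (Nat.cast_injective.injOn)).subset ?_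
    intro n hn
    have hn' : F.eval (n : ℤ) = 0 := hn
    rw [Set.mem_preimage, Finset.mem_coe, Multiset.mem_toFinset, mem_roots hF]
    exact hn'
  set K := hfin.toFinset.card with hK
  have hlow : ∀ N : ℕ, (N : ℝ) - K ≤ ∑ n ∈ Icc 1 N, if F.eval (n : ℤ) = 0 then (0 : ℝ) else 1 := by
    intro N
    have e : ∀ n : ℕ, (if F.eval (n : ℤ) = 0 then (0 : ℝ) else 1) =
        1 - if F.eval (n : ℤ) = 0 then (1 : ℝ) else 0 := by
      intro n; split_ifs <;> norm_num
    simp_rw [e]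
    rw [sum_sub_distrib]
    have h1 : ∑ n ∈ Icc 1 N, (if F.eval (n : ℤ) = 0 then (1 : ℝ) else 0) ≤ K := by
      rw [← sum_filter, sum_const, nsmul_eq_mul, mul_one]
      have : (Icc 1 N).filter (fun n : ℕ => F.eval (n : ℤ) = 0) ⊆ hfin.toFinset := by
        intro n hn
        rw [mem_filter] at hn
        rw [Set.Finite.mem_toFinset]
        exact hn.2
      exact_mod_cast card_le_card this
    have h2 : ∑ n ∈ Icc 1 N, (1 : ℝ) = N := by simp
    linarith
  have hup : ∀ N : ℕ, ∑ n ∈ Icc 1 N, (if F.eval (n : ℤ) = 0 then (0 : ℝ) else 1) ≤ N := by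
    intro N
    calc ∑ n ∈ Icc 1 N, (if F.eval (n : ℤ) = 0 then (0 : ℝ) else 1) ≤ ∑ n ∈ Icc 1 N, (1 : ℝ) :=
          sum_le_sum (fun n _ => by split_ifs <;> norm_num)
      _ = N := by simp
  have hl : Tendsto (fun N : ℕ => 1 - (K : ℝ) / N) atTop (𝓝 (1 - 0)) :=
    tendsto_const_nhds.sub (tendsto_const_nhds.div_atTop tendsto_natCast_atTop_atTop)
  rw [sub_zero] at hl
  refine tendsto_of_tendsto_of_tendsto_of_le_of_le' hl tendsto_const_nhds ?_ ?_
  · filter_upwards [eventually_ge_atTop 1] with N hN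
    have hN0 : (0 : ℝ) < N := by exact_mod_cast hN
    rw [le_div_iff₀ hN0]
    have : (1 - (K : ℝ) / N) * N = N - K := by field_simp
    rw [this]
    exact hlow N
  · filter_upwards [eventually_ge_atTop 1] with N hN
    have hN0 : (0 : ℝ) < N := by exact_mod_cast hN
    rw [div_le_one hN0]
    exact hup N

variable {Ω : Type*} [MeasurableSpace Ω] {μ : Measure Ω}

/-- sign patterns -/
theorem poly_patterns [IsProbabilityMeasure μ] (Q : Ω → Set ℕ)
    (hm : ∀ p, MeasurableSet {ω | p ∈ Q ω}) (hi : iIndepSet (fun p => {ω | p ∈ Q ω}) μ)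
    (δ : ℕ → ℝ) (hδ : Antitone δ) (h0 : ∀ n, 0 ≤ δ n)
    (hlim : Tendsto (fun N : ℕ => δ N * Real.log (Real.log N)) atTop atTop)
    (he : ∀ p : ℕ, p.Prime → δ p ≤ μ.real {ω | p ∈ Q ω} ∧ μ.real {ω | p ∈ Q ω} ≤ 1 - δ p) :
    ∀ᵐ ω ∂μ, ∀ (k : ℕ) (f : Fin k → ℤ[X]), (∀ T : Finset (Fin k), T.Nonempty →
      ¬ ∃ (c : ℤ) (g : ℤ[X]), ∏ i ∈ T, f i = C c * g ^ 2) →
      ∀ s : Fin k → ℝ, (∀ i, s i = 1 ∨ s i = -1) →
        Tendsto (fun N : ℕ => (((Icc 1 N).filter
          (fun n : ℕ => ∀ i, lamZ (Q ω) ((f i).eval (n : ℤ)) = s i)).card : ℝ) / N)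
          atTop (𝓝 ((1 / 2) ^ k)) := by
  have := countable_poly
  rw [ae_all_iff]
  intro k
  rw [ae_all_iff]
  intro f
  by_cases hf : ∀ T : Finset (Fin k), T.Nonempty →
      ¬ ∃ (c : ℤ) (g : ℤ[X]), ∏ i ∈ T, f i = C c * g ^ 2
  swap
  · exact Filter.Eventually.of_forall (fun ω h => absurd h hf)
  set w : Finset (Fin k) → ℕ → ℝ := fun T n =>
    if ∏ i ∈ univ \ T, (f i).eval (n : ℤ) = 0 then 0 else 1 with hw
  have hw1 : ∀ T n, |w T n| ≤ 1 := by
    intro T n
    rw [hw]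
    dsimp only
    split_ifs <;> norm_num
  have hall : ∀ᵐ ω ∂μ, ∀ T : Finset (Fin k), T.Nonempty →
      Tendsto (fun N : ℕ => (∑ n ∈ Icc 1 N, w T n *
        lamZ (Q ω) ((∏ i ∈ T, f i).eval (n : ℤ))) / N) atTop (𝓝 0) := by
    rw [ae_all_iff]
    intro T
    by_cases hT : T.Nonempty
    · filter_upwards [poly_one Q hm hi δ hδ h0 hlim he (w T) (hw1 T) (∏ i ∈ T, f i) (hf T hT)]
        with ω hω _
      exact hω
    · exact Filter.Eventually.of_forall (fun ω h => absurd h hT)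
  filter_upwards [hall] with ω hω _ s hs
  classical
  have hF0 : ∏ i, f i ≠ 0 := by
    rcases (univ : Finset (Fin k)).eq_empty_or_nonempty with h | h
    · rw [h]; simp
    · intro hc
      exact hf univ h ⟨0, 0, by rw [hc]; simp⟩
  have hind : ∀ n : ℕ, (if ∀ i, lamZ (Q ω) ((f i).eval (n : ℤ)) = s i then (1 : ℝ) else 0) =
      ∑ T ∈ (univ : Finset (Fin k)).powerset, ((1 / 2) ^ k * ∏ i ∈ T, s i) *
        (w T n * lamZ (Q ω) ((∏ i ∈ T, f i).eval (n : ℤ))) := by
    intro n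
    set x : Fin k → ℝ := fun i => lamZ (Q ω) ((f i).eval (n : ℤ)) with hx
    have h1 : ∏ i, ((1 / 2) * (s i * x i + x i * x i)) =
        if ∀ i, lamZ (Q ω) ((f i).eval (n : ℤ)) = s i then (1 : ℝ) else 0 := by
      split_ifs with hc
      · apply prod_eq_one
        intro i _
        have : x i = s i := hc i
        rw [this]
        rcases hs i with h | h <;> rw [h] <;> norm_num
      · push Not at hc
        obtain ⟨i, hne⟩ := hc
        apply prod_eq_zero (mem_univ i)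
        have hne' : x i ≠ s i := hne
        have hx3 : x i = 0 ∨ x i = 1 ∨ x i = -1 := by
          rw [hx]
          dsimp only
          unfold lamZ
          split_ifs
          · left; rfl
          · right; exact lam_sign _ _
        rcases hs i with h | h <;> rcases hx3 with h' | h' | h' <;>
          rw [h, h'] at hne' ⊢ <;> first | exact absurd rfl hne' | norm_num
    rw [← h1, prod_mul_distrib, prod_const, card_univ, Fintype.card_fin, prod_add, mul_sum]
    refine sum_congr rfl (fun T _ => ?_)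
    have e1 : ∏ i ∈ univ \ T, x i * x i = w T n := by
      rw [hw]
      dsimp only
      rw [prod_mul_distrib, hx, ← lamZ_prod, lamZ_sq]
    have e2 : ∏ i ∈ T, s i * x i = (∏ i ∈ T, s i) *
        lamZ (Q ω) ((∏ i ∈ T, f i).eval (n : ℤ)) := by
      rw [prod_mul_distrib, hx, ← lamZ_prod, eval_prod]
    rw [e1, e2]
    ring
  have hcount : ∀ N : ℕ, (((Icc 1 N).filter
      (fun n : ℕ => ∀ i, lamZ (Q ω) ((f i).eval (n : ℤ)) = s i)).card : ℝ) / N =
      ∑ T ∈ (univ : Finset (Fin k)).powerset, ((1 / 2) ^ k * ∏ i ∈ T, s i) *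
        ((∑ n ∈ Icc 1 N, w T n * lamZ (Q ω) ((∏ i ∈ T, f i).eval (n : ℤ))) / N) := by
    intro N
    have h1 : (((Icc 1 N).filter
        (fun n : ℕ => ∀ i, lamZ (Q ω) ((f i).eval (n : ℤ)) = s i)).card : ℝ) =
        ∑ n ∈ Icc 1 N, if ∀ i, lamZ (Q ω) ((f i).eval (n : ℤ)) = s i then (1 : ℝ) else 0 := by
      rw [← sum_filter, sum_const, nsmul_eq_mul, mul_one]
    rw [h1]
    simp_rw [hind]
    rw [sum_comm, sum_div]
    refine sum_congr rfl (fun T _ => ?_)
    rw [← mul_sum, mul_div_assoc]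
  have hlim' : Tendsto (fun N : ℕ => ∑ T ∈ (univ : Finset (Fin k)).powerset,
      ((1 / 2) ^ k * ∏ i ∈ T, s i) *
        ((∑ n ∈ Icc 1 N, w T n * lamZ (Q ω) ((∏ i ∈ T, f i).eval (n : ℤ))) / N)) atTop
      (𝓝 (∑ T ∈ (univ : Finset (Fin k)).powerset, if T = ∅ then (1 / 2 : ℝ) ^ k else 0)) := by
    refine tendsto_finsetSum _ (fun T _ => ?_)
    by_cases hT : T = ∅
    · rw [if_pos hT, hT]
      have h2 := (nonzero_density (∏ i, f i) hF0).const_mul ((1 / 2 : ℝ) ^ k)
      rw [mul_one] at h2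
      refine h2.congr (fun N => ?_)
      rw [prod_empty, mul_one]
      congr 2
      refine sum_congr rfl (fun n _ => ?_)
      rw [prod_empty, eval_one, lamZ_one, mul_one, hw]
      dsimp only
      rw [eval_prod, Finset.sdiff_empty]
    · rw [if_neg hT]
      have := (hω T (Finset.nonempty_iff_ne_empty.2 hT)).const_mul
        ((1 / 2) ^ k * ∏ i ∈ T, s i)
      rw [mul_zero] at this
      exact this
  have hval : (∑ T ∈ (univ : Finset (Fin k)).powerset,
      if T = ∅ then (1 / 2 : ℝ) ^ k else 0) = (1 / 2) ^ k := by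
    rw [Finset.sum_ite_eq' (univ : Finset (Fin k)).powerset]
    simp
  rw [hval] at hlim'
  exact hlim'.congr (fun N => (hcount N).symm)

end Pool.Agent.H629Chowla
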