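import Pool.Agent.H629Chowla.Count
import Pool.Agent.Helper742.Brun

/-! An upper bound sieve for tuples of prime powers with multiplicative weights. -/

set_option autoImplicit false

open Finset

namespace Pool.Agent.H629Chowla

open Classical in
/-- the local weights -/
noncomputable def uu (A : Finset ℕ) (h0 : ℕ) (P : Finset ℕ) (κ : ℕ → ℝ) (p n : ℕ) : ℝ :=
  if ∃ a ∈ A, p ∣ n + a then 1 else if p ∈ P ∧ p ∣ n + h0 then κ p else 0

section
variable (A : Finset ℕ) (h0 : ℕ) (P : Finset ℕ) (κ : ℕ → ℝ) (k0 : ∀ p, 0 ≤ κ p) (k1 : ∀ p, κ p ≤ 1)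

include k0 in
lemma uu_nonneg (p n : ℕ) : 0 ≤ uu A h0 P κ p n := by
  unfold uu
  split_ifs
  · norm_num
  · exact k0 p
  · norm_num

include k1 in
lemma uu_le_one (p n : ℕ) : uu A h0 P κ p n ≤ 1 := by
  unfold uu
  split_ifs
  · norm_num
  · exact k1 p
  · norm_num

lemma dvd_mod_add (p n a : ℕ) : p ∣ n % p + a ↔ p ∣ n + a := by
  rw [Nat.dvd_iff_mod_eq_zero, Nat.dvd_iff_mod_eq_zero, Nat.mod_add_mod]

lemma uu_per (p n : ℕ) : uu A h0 P κ p (n % p) = uu A h0 P κ p n := by
  unfold uu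
  simp only [dvd_mod_add]

/-- the residue `-a` -/
lemma phi_dvd {p a : ℕ} (ha : a < p) : p ∣ (p - a) % p + a := by
  rw [dvd_mod_add]
  rw [Nat.sub_add_cancel ha.le]

lemma phi_inj {p a b : ℕ} (ha : a < p) (hb : b < p) (h : (p - a) % p = (p - b) % p) : a = b := by
  have h1 := phi_dvd ha
  have h2 := phi_dvd hb
  rw [← h] at h2
  rcases le_total a b with hab | hab
  · have h3 := (Nat.dvd_sub h2 h1)
    have h4 : (p - a) % p + b - ((p - a) % p + a) = b - a := by omega
    rw [h4] at h3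
    rcases Nat.eq_zero_or_pos (b - a) with h5 | h5
    · omega
    · have := Nat.le_of_dvd h5 h3
      omega
  · have h3 := (Nat.dvd_sub h1 h2)
    have h4 : (p - a) % p + a - ((p - a) % p + b) = a - b := by omega
    rw [h4] at h3
    rcases Nat.eq_zero_or_pos (a - b) with h5 | h5
    · omega
    · have := Nat.le_of_dvd h5 h3
      omega

include k0 k1 in
lemma mean_ge (hA : h0 ∉ A) {p P0 : ℕ} (hAP : ∀ a ∈ A, a ≤ P0) (hh : h0 ≤ P0) (hp : P0 < p) :
    ((A.card : ℝ) + if p ∈ P then κ p else 0) / p ≤ Helper742.mean (uu A h0 P κ) p := by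
  have hp0 : (0 : ℝ) < p := by
    have : 0 < p := by omega
    exact_mod_cast this
  unfold Helper742.mean
  apply div_le_div_of_nonneg_right _ hp0.le
  set φ : ℕ → ℕ := fun a => (p - a) % p with hφ
  have hinj : Set.InjOn φ ((insert h0 A : Finset ℕ) : Set ℕ) := by
    intro a ha b hb hab
    have ha' : a < p := by
      rcases mem_insert.1 (Finset.mem_coe.1 ha) with h | h
      · omega
      · have := hAP a h; omega
    have hb' : b < p := by
      rcases mem_insert.1 (Finset.mem_coe.1 hb) with h | h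
      · omega
      · have := hAP b h; omega
    exact phi_inj ha' hb' hab
  have hsub : (insert h0 A).image φ ⊆ range p := by
    intro x hx
    obtain ⟨a, _, rfl⟩ := mem_image.1 hx
    exact mem_range.2 (Nat.mod_lt _ (by omega))
  calc (A.card : ℝ) + (if p ∈ P then κ p else 0)
      ≤ ∑ a ∈ A, uu A h0 P κ p (φ a) + uu A h0 P κ p (φ h0) := by
        have h1 : ∑ a ∈ A, uu A h0 P κ p (φ a) = A.card := by
          have : ∀ a ∈ A, uu A h0 P κ p (φ a) = 1 := by
            intro a ha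
            unfold uu
            rw [if_pos ⟨a, ha, phi_dvd (by have := hAP a ha; omega)⟩]
          rw [sum_congr rfl this]
          simp
        have h2 : (if p ∈ P then κ p else 0) ≤ uu A h0 P κ p (φ h0) := by
          by_cases hpP : p ∈ P
          · rw [if_pos hpP]
            unfold uu
            split_ifs with c1 c2
            · exact k1 p
            · exact le_rfl
            · exact absurd ⟨hpP, phi_dvd (by omega)⟩ c2
          · rw [if_neg hpP]
            exact uu_nonneg A h0 P κ k0 _ _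
        linarith
    _ = ∑ a ∈ insert h0 A, uu A h0 P κ p (φ a) := by rw [sum_insert hA]; ring
    _ = ∑ n ∈ (insert h0 A).image φ, uu A h0 P κ p n := by
        rw [sum_image hinj]
    _ ≤ ∑ n ∈ range p, uu A h0 P κ p n :=
        sum_le_sum_of_subset_of_nonneg hsub (fun n _ _ => uu_nonneg A h0 P κ k0 p n)

include k1 in
lemma mean_le {p : ℕ} (hp : 0 < p) :
    Helper742.mean (uu A h0 P κ) p ≤ ((A.card : ℝ) + 1) / p := by
  have hp0 : (0 : ℝ) < p := by exact_mod_cast hp
  unfold Helper742.mean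
  apply div_le_div_of_nonneg_right _ hp0.le
  have h1 : ∀ n ∈ range p, uu A h0 P κ p n ≤
      ∑ a ∈ insert h0 A, if p ∣ n + a then (1 : ℝ) else 0 := by
    intro n _
    by_cases hc : ∃ a ∈ insert h0 A, p ∣ n + a
    · obtain ⟨a, ha, hd⟩ := hc
      refine (uu_le_one A h0 P κ k1 p n).trans ?_
      calc (1 : ℝ) = if p ∣ n + a then (1 : ℝ) else 0 := by rw [if_pos hd]
        _ ≤ _ := single_le_sum (f := fun a => if p ∣ n + a then (1 : ℝ) else 0)
            (fun q _ => by split_ifs <;> norm_num) ha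
    · push Not at hc
      have e : uu A h0 P κ p n = 0 := by
        unfold uu
        rw [if_neg, if_neg]
        · exact fun hx => hc h0 (mem_insert_self _ _) hx.2
        · rintro ⟨a, ha, hd⟩
          exact hc a (mem_insert_of_mem ha) hd
      rw [e]
      exact sum_nonneg (fun a _ => by split_ifs <;> norm_num)
  refine (sum_le_sum h1).trans ?_
  rw [sum_comm]
  have h2 : ∀ a ∈ insert h0 A, ∑ n ∈ range p, (if p ∣ n + a then (1 : ℝ) else 0) ≤ 1 := by
    intro a _
    rw [← sum_filter, sum_const, nsmul_eq_mul, mul_one]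
    have : ((range p).filter (fun n => p ∣ n + a)).card ≤ 1 := by
      rw [card_le_one]
      intro x hx y hy
      rw [mem_filter, mem_range] at hx hy
      rcases le_total x y with hxy | hxy
      · have h3 := Nat.dvd_sub hy.2 hx.2
        have h4 : y + a - (x + a) = y - x := by omega
        rw [h4] at h3
        rcases Nat.eq_zero_or_pos (y - x) with h5 | h5
        · omega
        · have := Nat.le_of_dvd h5 h3
          omega
      · have h3 := Nat.dvd_sub hx.2 hy.2
        have h4 : x + a - (y + a) = x - y := by omega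
        rw [h4] at h3
        rcases Nat.eq_zero_or_pos (x - y) with h5 | h5
        · omega
        · have := Nat.le_of_dvd h5 h3
          omega
    exact_mod_cast this
  refine (sum_le_sum h2).trans ?_
  rw [sum_const, nsmul_eq_mul, mul_one]
  have : (insert h0 A).card ≤ A.card + 1 := card_insert_le _ _
  exact_mod_cast this

include k0 k1 in
/-- Brun's pure sieve for our weights -/
lemma sifted (hA : h0 ∉ A) {P0 : ℕ} (hAP : ∀ a ∈ A, a ≤ P0) (hh : h0 ≤ P0) (T : Finset ℕ)
    (y r : ℕ) (hy : 1 ≤ y) (hr : Odd r) (hT : ∀ p ∈ T, p.Prime ∧ p ≤ y ∧ P0 < p) (hPT : P ⊆ T)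
    (K : ℝ) (hK : 0 < K) (X : ℕ) :
    ∑ n ∈ range X, ∏ p ∈ T, (1 - uu A h0 P κ p n) ≤
      X * (Real.exp (-(A.card * ∑ p ∈ T, (1 : ℝ) / p + MM P κ)) +
        (K⁻¹) ^ r * Real.exp (K * ((A.card + 1) * ∑ p ∈ T, (1 : ℝ) / p))) + 3 * (y : ℝ) ^ (2 * r) := by
  have hb := Helper742.brun T y r hy hr (fun p hp => ⟨(hT p hp).1, (hT p hp).2.1⟩) (uu A h0 P κ)
    (fun p _ n => uu_nonneg A h0 P κ k0 p n) (fun p _ n => uu_le_one A h0 P κ k1 p n)
    (fun p _ n => uu_per A h0 P κ p n) K hK X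
  refine hb.trans ?_
  have hX : (0 : ℝ) ≤ X := Nat.cast_nonneg X
  have m1 : ∀ p ∈ T, Helper742.mean (uu A h0 P κ) p ≤ 1 := by
    intro p hp
    have hpp : (0 : ℝ) < p := by exact_mod_cast (hT p hp).1.pos
    unfold Helper742.mean
    rw [div_le_one hpp]
    calc ∑ n ∈ range p, uu A h0 P κ p n ≤ ∑ n ∈ range p, (1 : ℝ) :=
          Finset.sum_le_sum (fun n _ => uu_le_one A h0 P κ k1 p n)
      _ = p := by simp
  have e1 : ∏ p ∈ T, (1 - Helper742.mean (uu A h0 P κ) p) ≤
      Real.exp (-(A.card * ∑ p ∈ T, (1 : ℝ) / p + MM P κ)) := by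
    calc ∏ p ∈ T, (1 - Helper742.mean (uu A h0 P κ) p)
        ≤ ∏ p ∈ T, Real.exp (-(((A.card : ℝ) + if p ∈ P then κ p else 0) / p)) := by
          refine Finset.prod_le_prod (fun p hp => by linarith [m1 p hp]) (fun p hp => ?_)
          have h1 := mean_ge A h0 P κ k0 k1 hA hAP hh (hT p hp).2.2
          have h2 := Real.add_one_le_exp (-(((A.card : ℝ) + if p ∈ P then κ p else 0) / p))
          linarith
      _ = Real.exp (-(A.card * ∑ p ∈ T, (1 : ℝ) / p + MM P κ)) := by
          rw [← Real.exp_sum, sum_neg_distrib]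
          congr 2
          have h3 : ∀ p ∈ T, ((A.card : ℝ) + if p ∈ P then κ p else 0) / p =
              A.card * ((1 : ℝ) / p) + if p ∈ P then κ p / p else 0 := by
            intro p _
            split_ifs <;> ring
          rw [sum_congr rfl h3, sum_add_distrib, ← mul_sum]
          congr 1
          unfold MM
          rw [← sum_filter]
          congr 1
          ext p
          rw [mem_filter]
          exact ⟨fun hx => hx.2, fun hx => ⟨hPT hx, hx⟩⟩
  have e2 : K * ∑ p ∈ T, Helper742.mean (uu A h0 P κ) p ≤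
      K * ((A.card + 1) * ∑ p ∈ T, (1 : ℝ) / p) := by
    apply mul_le_mul_of_nonneg_left _ hK.le
    rw [mul_sum]
    refine sum_le_sum (fun p hp => ?_)
    have := mean_le A h0 P κ k1 (hT p hp).1.pos
    calc Helper742.mean (uu A h0 P κ) p ≤ ((A.card : ℝ) + 1) / p := this
      _ = _ := by ring
  have e3 : (K⁻¹) ^ r * Real.exp (K * ∑ p ∈ T, Helper742.mean (uu A h0 P κ) p) ≤
      (K⁻¹) ^ r * Real.exp (K * ((A.card + 1) * ∑ p ∈ T, (1 : ℝ) / p)) :=
    mul_le_mul_of_nonneg_left (Real.exp_le_exp.2 e2) (by positivity)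
  have := mul_le_mul_of_nonneg_left (add_le_add e1 e3) hX
  linarith

end

open Classical in
/-- powers of `p` in a shifted interval -/
lemma card_powers (N a p : ℕ) (hp : 2 ≤ p) :
    ((Icc 1 N).filter (fun n => ∃ j, n + a = p ^ j)).card ≤ Nat.log 2 (N + a) + 1 := by
  have hsub : (Icc 1 N).filter (fun n => ∃ j, n + a = p ^ j) ⊆
      (range (Nat.log 2 (N + a) + 1)).image (fun j => p ^ j - a) := by
    intro n hn
    rw [mem_filter, mem_Icc] at hn
    obtain ⟨⟨h1, h2⟩, j, hj⟩ := hn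
    rw [mem_image]
    refine ⟨j, ?_, by omega⟩
    rw [mem_range, Nat.lt_succ_iff]
    apply Nat.le_log_of_pow_le (by norm_num)
    calc 2 ^ j ≤ p ^ j := Nat.pow_le_pow_left hp j
      _ = n + a := hj.symm
      _ ≤ N + a := by omega
  calc _ ≤ _ := card_le_card hsub
    _ ≤ (range (Nat.log 2 (N + a) + 1)).card := card_image_le
    _ = _ := card_range _

/-- the product of the values of the von Mangoldt function -/
noncomputable def LL (A : Finset ℕ) (n : ℕ) : ℝ := ∏ a ∈ A, ArithmeticFunction.vonMangoldt (n + a)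

lemma LL_nonneg (A : Finset ℕ) (n : ℕ) : 0 ≤ LL A n :=
  prod_nonneg (fun _ _ => ArithmeticFunction.vonMangoldt_nonneg)

/-- the weighted sum over tuples of prime powers -/
lemma tuple_sum (A : Finset ℕ) (h0 : ℕ) (P : Finset ℕ) (κ : ℕ → ℝ) (k0 : ∀ p, 0 ≤ κ p)
    (k1 : ∀ p, κ p ≤ 1) (hA : h0 ∉ A) {P0 : ℕ} (hAP : ∀ a ∈ A, a ≤ P0) (hh : h0 ≤ P0)
    (T : Finset ℕ) (y r : ℕ) (hy : 1 ≤ y) (hr : Odd r) (hT : ∀ p ∈ T, p.Prime ∧ p ≤ y ∧ P0 < p)
    (hPT : P ⊆ T) (K : ℝ) (hK : 0 < K) (N Y : ℕ) (hY : 1 ≤ Y) (hPY : ∀ p ∈ P, Y < p)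
    (v : ℕ → ℝ) (v0 : ∀ n, 0 ≤ v n) (v1 : ∀ n, v n ≤ 1)
    (hv : ∀ n ∈ Icc 1 N, (∀ p ∈ P, ¬ p ^ 2 ∣ n + h0) →
      v n ≤ ∏ p ∈ P, (1 - if p ∣ n + h0 then κ p else 0))
    (B : ℝ) (hB : 0 ≤ B) (hL : ∀ n ∈ Icc 1 N, LL A n ≤ B) :
    ∑ n ∈ Icc 1 N, LL A n * v n ≤ B * ((N / Y + y) + A.card * y * (Nat.log 2 (N + P0) + 1) +
      ((N + 1) * (Real.exp (-(A.card * ∑ p ∈ T, (1 : ℝ) / p + MM P κ)) +
        (K⁻¹) ^ r * Real.exp (K * ((A.card + 1) * ∑ p ∈ T, (1 : ℝ) / p)))
        + 3 * (y : ℝ) ^ (2 * r))) := by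
  classical
  have hpt : ∀ n ∈ Icc 1 N, LL A n * v n ≤ B * ((∑ p ∈ P, if p ^ 2 ∣ n + h0 then (1 : ℝ) else 0) +
      (∑ a ∈ A, ∑ p ∈ T, if ∃ j, n + a = p ^ j then (1 : ℝ) else 0) +
      ∏ p ∈ T, (1 - uu A h0 P κ p n)) := by
    intro n hn
    have a1 : 0 ≤ ∑ p ∈ P, if p ^ 2 ∣ n + h0 then (1 : ℝ) else 0 :=
      sum_nonneg (fun p _ => by split_ifs <;> norm_num)
    have a2 : 0 ≤ ∑ a ∈ A, ∑ p ∈ T, if ∃ j, n + a = p ^ j then (1 : ℝ) else 0 :=
      sum_nonneg (fun a _ => sum_nonneg (fun p _ => by split_ifs <;> norm_num))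
    have a3 : 0 ≤ ∏ p ∈ T, (1 - uu A h0 P κ p n) :=
      prod_nonneg (fun p _ => by linarith [uu_le_one A h0 P κ k1 p n])
    have hLv : LL A n * v n ≤ B * v n := mul_le_mul_of_nonneg_right (hL n hn) (v0 n)
    by_cases hz : LL A n = 0
    · rw [hz, zero_mul]
      positivity
    by_cases hb : ∀ p ∈ P, ¬ p ^ 2 ∣ n + h0
    swap
    · push Not at hb
      obtain ⟨p, hp, hpd⟩ := hb
      have : (1 : ℝ) ≤ ∑ p ∈ P, if p ^ 2 ∣ n + h0 then (1 : ℝ) else 0 := by
        calc (1 : ℝ) = if p ^ 2 ∣ n + h0 then (1 : ℝ) else 0 := by rw [if_pos hpd]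
          _ ≤ _ := single_le_sum (f := fun p => if p ^ 2 ∣ n + h0 then (1 : ℝ) else 0)
              (fun q _ => by split_ifs <;> norm_num) hp
      refine hLv.trans (mul_le_mul_of_nonneg_left ?_ hB)
      linarith [v1 n]
    by_cases hc : ∃ a ∈ A, ∃ p ∈ T, p ∣ n + a
    · obtain ⟨a, ha, p, hp, hpd⟩ := hc
      have hpp := (hT p hp).1
      have hne : ArithmeticFunction.vonMangoldt (n + a) ≠ 0 := by
        intro h
        exact hz (prod_eq_zero ha h)
      have hpow : IsPrimePow (n + a) := by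
        rw [ArithmeticFunction.vonMangoldt_ne_zero_iff] at hne
        exact hne
      obtain ⟨q, j, hq, hj, hqj⟩ := (isPrimePow_nat_iff _).1 hpow
      have hpq : p = q := by
        rw [← hqj] at hpd
        exact (Nat.prime_dvd_prime_iff_eq hpp hq).1 (hpp.dvd_of_dvd_pow hpd)
      have hex : ∃ j, n + a = p ^ j := ⟨j, by rw [hpq, hqj]⟩
      have : (1 : ℝ) ≤ ∑ a ∈ A, ∑ p ∈ T, if ∃ j, n + a = p ^ j then (1 : ℝ) else 0 := by
        calc (1 : ℝ) = if ∃ j, n + a = p ^ j then (1 : ℝ) else 0 := by rw [if_pos hex]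
          _ ≤ ∑ p ∈ T, if ∃ j, n + a = p ^ j then (1 : ℝ) else 0 :=
              single_le_sum (f := fun p => if ∃ j, n + a = p ^ j then (1 : ℝ) else 0)
                (fun q _ => by split_ifs <;> norm_num) hp
          _ ≤ _ := single_le_sum (f := fun a => ∑ p ∈ T, if ∃ j, n + a = p ^ j then (1 : ℝ) else 0)
                (fun q _ => sum_nonneg (fun p _ => by split_ifs <;> norm_num)) ha
      refine hLv.trans (mul_le_mul_of_nonneg_left ?_ hB)
      linarith [v1 n]
    · push Not at hc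
      have e : ∏ p ∈ T, (1 - uu A h0 P κ p n) = ∏ p ∈ P, (1 - if p ∣ n + h0 then κ p else 0) := by
        rw [← prod_subset hPT]
        · refine prod_congr rfl (fun p hp => ?_)
          unfold uu
          rw [if_neg]
          · by_cases hd : p ∣ n + h0
            · rw [if_pos ⟨hp, hd⟩, if_pos hd]
            · rw [if_neg (fun hx => hd hx.2), if_neg hd]
          · rintro ⟨a, ha, hd⟩
            exact hc a ha p (hPT hp) hd
        · intro p hp hpP
          unfold uu
          rw [if_neg, if_neg]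
          · ring
          · exact fun hx => hpP hx.1
          · rintro ⟨a, ha, hd⟩
            exact hc a ha p hp hd
      have := hv n hn hb
      refine hLv.trans (mul_le_mul_of_nonneg_left ?_ hB)
      rw [e] at a3 ⊢
      linarith
  refine (sum_le_sum hpt).trans ?_
  rw [← mul_sum, sum_add_distrib, sum_add_distrib]
  apply mul_le_mul_of_nonneg_left _ hB
  have hcT : (T.card : ℝ) ≤ y := by
    have hc : T.card ≤ y := by
      calc T.card ≤ (Finset.Icc 1 y).card := by
            apply Finset.card_le_card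
            intro p hp
            rw [Finset.mem_Icc]
            exact ⟨(hT p hp).1.one_le, (hT p hp).2.1⟩
        _ = y := by simp
    exact_mod_cast hc
  have hcP : (P.card : ℝ) ≤ y := by
    have : (P.card : ℝ) ≤ T.card := by exact_mod_cast card_le_card hPT
    linarith
  have b1 : ∑ n ∈ Icc 1 N, ∑ p ∈ P, (if p ^ 2 ∣ n + h0 then (1 : ℝ) else 0) ≤ N / Y + y := by
    rw [sum_comm]
    have : ∀ p ∈ P, ∑ n ∈ Icc 1 N, (if p ^ 2 ∣ n + h0 then (1 : ℝ) else 0) ≤
        N * (1 / (p : ℝ) ^ 2) + 1 := by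
      intro p hp
      rw [← sum_filter, sum_const, nsmul_eq_mul, mul_one]
      have := card_le N h0 (p ^ 2) (pow_pos (hT p (hPT hp)).1.pos 2)
      have e : (N : ℝ) / ((p ^ 2 : ℕ) : ℝ) = N * (1 / (p : ℝ) ^ 2) := by push_cast; ring
      linarith
    refine (sum_le_sum this).trans ?_
    rw [sum_add_distrib, ← mul_sum]
    have h2 := mul_le_mul_of_nonneg_left (sum_inv_sq P Y hY hPY) (Nat.cast_nonneg (α := ℝ) N)
    have e2 : (N : ℝ) * (1 / Y) = N / Y := by ring
    simp only [sum_const, nsmul_eq_mul, mul_one]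
    linarith
  have b2 : ∑ n ∈ Icc 1 N, ∑ a ∈ A, ∑ p ∈ T, (if ∃ j, n + a = p ^ j then (1 : ℝ) else 0) ≤
      A.card * y * (Nat.log 2 (N + P0) + 1) := by
    rw [sum_comm]
    have h1 : ∀ a ∈ A, ∑ n ∈ Icc 1 N, ∑ p ∈ T, (if ∃ j, n + a = p ^ j then (1 : ℝ) else 0) ≤
        y * (Nat.log 2 (N + P0) + 1) := by
      intro a ha
      rw [sum_comm]
      have h2 : ∀ p ∈ T, ∑ n ∈ Icc 1 N, (if ∃ j, n + a = p ^ j then (1 : ℝ) else 0) ≤
          (Nat.log 2 (N + P0) + 1 : ℕ) := by
        intro p hp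
        rw [← sum_filter, sum_const, nsmul_eq_mul, mul_one]
        have h3 := card_powers N a p (hT p hp).1.two_le
        have h4 : Nat.log 2 (N + a) ≤ Nat.log 2 (N + P0) :=
          Nat.log_mono_right (by have := hAP a ha; omega)
        exact_mod_cast h3.trans (by omega)
      refine (sum_le_sum h2).trans ?_
      rw [sum_const, nsmul_eq_mul]
      push_cast
      exact mul_le_mul_of_nonneg_right hcT (by positivity)
    refine (sum_le_sum h1).trans (le_of_eq ?_)
    rw [sum_const, nsmul_eq_mul]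
    ring
  have b3 : ∑ n ∈ Icc 1 N, ∏ p ∈ T, (1 - uu A h0 P κ p n) ≤
      ∑ n ∈ range (N + 1), ∏ p ∈ T, (1 - uu A h0 P κ p n) := by
    apply sum_le_sum_of_subset_of_nonneg
    · intro n hn
      rw [mem_Icc] at hn
      exact mem_range.2 (by omega)
    · intro n _ _
      exact prod_nonneg (fun p _ => by linarith [uu_le_one A h0 P κ k1 p n])
  have b4 := sifted A h0 P κ k0 k1 hA hAP hh T y r hy hr hT hPT K hK (N + 1)
  push_cast at b4
  linarith

end Pool.Agent.H629Chowla
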