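import Mathlib

/-! Products of independent random signs: a second moment bound. -/

set_option autoImplicit false

open MeasureTheory ProbabilityTheory Finset Filter Topology

namespace Pool.Agent.H629Chowla

variable {Ω : Type*} [MeasurableSpace Ω] {μ : Measure Ω}

/-- independent random signs -/
structure Signs (μ : Measure Ω) (ξ : ℕ → Ω → ℝ) : Prop where
  indep : iIndepFun ξ μ
  meas : ∀ p, Measurable (ξ p)
  sq : ∀ p ω, ξ p ω = 1 ∨ ξ p ω = -1

/-- product of signs -/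
noncomputable def mono (ξ : ℕ → Ω → ℝ) (B : Finset ℕ) (ω : Ω) : ℝ := ∏ p ∈ B, ξ p ω

/-- mean value of one sign -/
noncomputable def th (μ : Measure Ω) (ξ : ℕ → Ω → ℝ) (p : ℕ) : ℝ := ∫ ω, ξ p ω ∂μ

/-- product of the mean values -/
noncomputable def Th (μ : Measure Ω) (ξ : ℕ → Ω → ℝ) (B : Finset ℕ) : ℝ := ∏ p ∈ B, th μ ξ p

variable {ξ : ℕ → Ω → ℝ}

lemma mono_meas (h : Signs μ ξ) (B : Finset ℕ) : Measurable (mono ξ B) := by
  unfold mono
  exact Finset.measurable_fun_prod B (fun p _ => h.meas p)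

lemma abs_mono (h : Signs μ ξ) (B : Finset ℕ) (ω : Ω) : |mono ξ B ω| = 1 := by
  unfold mono
  rw [Finset.abs_prod]
  apply Finset.prod_eq_one
  intro p _
  rcases h.sq p ω with h1 | h1 <;> rw [h1] <;> norm_num

lemma mono_sq (h : Signs μ ξ) (B : Finset ℕ) (ω : Ω) : mono ξ B ω * mono ξ B ω = 1 := by
  have := abs_mono h B ω
  have h2 : |mono ξ B ω| * |mono ξ B ω| = 1 := by rw [this]; norm_num
  rwa [abs_mul_abs_self] at h2

omit [MeasurableSpace Ω] in
lemma mono_union (B C : Finset ℕ) (hd : Disjoint B C) (ω : Ω) :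
    mono ξ (B ∪ C) ω = mono ξ B ω * mono ξ C ω := by
  unfold mono
  exact Finset.prod_union hd

lemma mono_mul (h : Signs μ ξ) (B C : Finset ℕ) (ω : Ω) :
    mono ξ B ω * mono ξ C ω = mono ξ (B \ C ∪ C \ B) ω := by
  rw [mono_union _ _ (Finset.disjoint_left.2 (fun a ha hb => by
    rw [Finset.mem_sdiff] at ha hb; exact hb.2 ha.1))]
  have h1 : mono ξ B ω = mono ξ (B ∩ C) ω * mono ξ (B \ C) ω := by
    unfold mono
    exact (Finset.prod_inter_mul_prod_sdiff B C _).symm
  have h2 : mono ξ C ω = mono ξ (B ∩ C) ω * mono ξ (C \ B) ω := by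
    unfold mono
    rw [Finset.inter_comm B C]
    exact (Finset.prod_inter_mul_prod_sdiff C B _).symm
  have h3 := mono_sq h (B ∩ C) ω
  rw [h1, h2]
  linear_combination (mono ξ (B \ C) ω * mono ξ (C \ B) ω) * h3

lemma Th_union (B C : Finset ℕ) (hd : Disjoint B C) :
    Th μ ξ (B ∪ C) = Th μ ξ B * Th μ ξ C := by
  unfold Th
  exact Finset.prod_union hd

lemma integrable_mono [IsProbabilityMeasure μ] (h : Signs μ ξ) (B : Finset ℕ) :
    Integrable (mono ξ B) μ :=
  Integrable.of_bound (mono_meas h B).aestronglyMeasurable 1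
    (Filter.Eventually.of_forall (fun ω => by rw [Real.norm_eq_abs, abs_mono h]))

lemma integral_mono_eq [IsProbabilityMeasure μ] (h : Signs μ ξ) (B : Finset ℕ) :
    ∫ ω, mono ξ B ω ∂μ = Th μ ξ B := by
  unfold mono Th th
  have h1 : iIndepFun (fun i : B => ξ i) μ := h.indep.precomp Subtype.val_injective
  have h2 := h1.integral_fun_prod_eq_prod_integral
    (fun i => (h.meas i).aestronglyMeasurable)
  have e1 : ∀ ω, ∏ p ∈ B, ξ p ω = ∏ i : B, ξ i ω := fun ω =>
    (Finset.prod_coe_sort B (fun p => ξ p ω)).symm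
  simp_rw [e1]
  rw [h2]
  exact Finset.prod_coe_sort B (fun p => ∫ ω, ξ p ω ∂μ)

lemma abs_th_le [IsProbabilityMeasure μ] (h : Signs μ ξ) (p : ℕ) : |th μ ξ p| ≤ 1 := by
  unfold th
  have := norm_integral_le_of_norm_le_const (μ := μ) (f := ξ p) (C := 1)
    (Filter.Eventually.of_forall (fun ω => by
      rcases h.sq p ω with h1 | h1 <;> rw [h1] <;> norm_num))
  simpa using this

lemma abs_Th_le [IsProbabilityMeasure μ] (h : Signs μ ξ) (B : Finset ℕ) : |Th μ ξ B| ≤ 1 := by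
  unfold Th
  rw [Finset.abs_prod]
  exact Finset.prod_le_one (fun p _ => abs_nonneg _) (fun p _ => abs_th_le h p)

/-- one centred term -/
noncomputable def cen (μ : Measure Ω) (ξ : ℕ → Ω → ℝ) (A B : Finset ℕ) (ω : Ω) : ℝ :=
  mono ξ B ω * (mono ξ A ω - Th μ ξ A)

lemma cen_meas (h : Signs μ ξ) (A B : Finset ℕ) : Measurable (cen μ ξ A B) := by
  unfold cen
  exact (mono_meas h B).mul ((mono_meas h A).sub measurable_const)

lemma abs_cen_le [IsProbabilityMeasure μ] (h : Signs μ ξ) (A B : Finset ℕ) (ω : Ω) :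
    |cen μ ξ A B ω| ≤ 2 := by
  unfold cen
  rw [abs_mul, abs_mono h, one_mul]
  calc |mono ξ A ω - Th μ ξ A| ≤ |mono ξ A ω| + |Th μ ξ A| := abs_sub _ _
    _ ≤ 1 + 1 := add_le_add (abs_mono h A ω).le (abs_Th_le h A)
    _ = 2 := by norm_num

lemma integrable_cen_mul [IsProbabilityMeasure μ] (h : Signs μ ξ) (A B A' B' : Finset ℕ) :
    Integrable (fun ω => cen μ ξ A B ω * cen μ ξ A' B' ω) μ :=
  Integrable.of_bound ((cen_meas h A B).mul (cen_meas h A' B')).aestronglyMeasurable 4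
    (Filter.Eventually.of_forall (fun ω => by
      rw [Real.norm_eq_abs, abs_mul]
      calc |cen μ ξ A B ω| * |cen μ ξ A' B' ω| ≤ 2 * 2 :=
            mul_le_mul (abs_cen_le h A B ω) (abs_cen_le h A' B' ω) (abs_nonneg _) (by norm_num)
        _ = 4 := by norm_num))

lemma integral_cen_mul_le [IsProbabilityMeasure μ] (h : Signs μ ξ) (A B A' B' : Finset ℕ) :
    |∫ ω, cen μ ξ A B ω * cen μ ξ A' B' ω ∂μ| ≤ 4 := by
  have := norm_integral_le_of_norm_le_const (μ := μ)
    (f := fun ω => cen μ ξ A B ω * cen μ ξ A' B' ω) (C := 4)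
    (Filter.Eventually.of_forall (fun ω => by
      rw [Real.norm_eq_abs, abs_mul]
      calc |cen μ ξ A B ω| * |cen μ ξ A' B' ω| ≤ 2 * 2 :=
            mul_le_mul (abs_cen_le h A B ω) (abs_cen_le h A' B' ω) (abs_nonneg _) (by norm_num)
        _ = 4 := by norm_num))
  simpa using this

lemma integral_cen_mul_eq_zero [IsProbabilityMeasure μ] (h : Signs μ ξ) (A B A' B' : Finset ℕ)
    (hA : Disjoint A A') (h1 : Disjoint A B) (h2 : Disjoint A B') (h3 : Disjoint A' B)
    (h4 : Disjoint A' B') :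
    ∫ ω, cen μ ξ A B ω * cen μ ξ A' B' ω ∂μ = 0 := by
  set S : Finset ℕ := B \ B' ∪ B' \ B with hS
  have hSsub : S ⊆ B ∪ B' := by
    intro x hx
    rw [hS, Finset.mem_union, Finset.mem_sdiff, Finset.mem_sdiff] at hx
    rw [Finset.mem_union]
    tauto
  have dSA : Disjoint S A :=
    Disjoint.mono_left hSsub (Finset.disjoint_union_left.2 ⟨h1.symm, h2.symm⟩)
  have dSA' : Disjoint S A' :=
    Disjoint.mono_left hSsub (Finset.disjoint_union_left.2 ⟨h3.symm, h4.symm⟩)
  have dSAA' : Disjoint S (A ∪ A') := Finset.disjoint_union_right.2 ⟨dSA, dSA'⟩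
  have e1 : ∀ ω, cen μ ξ A B ω * cen μ ξ A' B' ω =
      mono ξ (S ∪ (A ∪ A')) ω - Th μ ξ A' * mono ξ (S ∪ A) ω - Th μ ξ A * mono ξ (S ∪ A') ω
        + Th μ ξ A * Th μ ξ A' * mono ξ S ω := by
    intro ω
    rw [mono_union _ _ dSAA', mono_union _ _ dSA, mono_union _ _ dSA', mono_union _ _ hA,
      hS, ← mono_mul h B B' ω]
    unfold cen
    ring
  simp_rw [e1]
  rw [integral_add, integral_sub, integral_sub, integral_const_mul, integral_const_mul,
    integral_const_mul, integral_mono_eq h, integral_mono_eq h, integral_mono_eq h,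
    integral_mono_eq h, Th_union _ _ dSAA', Th_union _ _ dSA, Th_union _ _ dSA', Th_union _ _ hA]
  · ring
  · exact integrable_mono h _
  · exact (integrable_mono h _).const_mul _
  · exact (integrable_mono h _).sub ((integrable_mono h _).const_mul _)
  · exact (integrable_mono h _).const_mul _
  · exact ((integrable_mono h _).sub ((integrable_mono h _).const_mul _)).sub
      ((integrable_mono h _).const_mul _)
  · exact (integrable_mono h _).const_mul _

/-- the second moment of a sum of centred terms -/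
lemma second_moment [IsProbabilityMeasure μ] (h : Signs μ ξ) (s : Finset ℕ) (b : ℕ → ℝ)
    (hb : ∀ n, |b n| ≤ 1) (A B : ℕ → Finset ℕ) (hAB : ∀ n ∈ s, ∀ m ∈ s, Disjoint (A n) (B m)) :
    ∫ ω, (∑ n ∈ s, b n * cen μ ξ (A n) (B n) ω) ^ 2 ∂μ ≤
      4 * (((s ×ˢ s).filter (fun x => ¬ Disjoint (A x.1) (A x.2))).card : ℝ) := by
  have e1 : ∀ ω, (∑ n ∈ s, b n * cen μ ξ (A n) (B n) ω) ^ 2 =
      ∑ x ∈ s ×ˢ s, (b x.1 * b x.2) *
        (cen μ ξ (A x.1) (B x.1) ω * cen μ ξ (A x.2) (B x.2) ω) := by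
    intro ω
    rw [pow_two, Finset.sum_mul_sum, Finset.sum_product]
    refine Finset.sum_congr rfl (fun n _ => Finset.sum_congr rfl (fun m _ => ?_))
    ring
  simp_rw [e1]
  rw [integral_finsetSum _ (fun x _ => (integrable_cen_mul h _ _ _ _).const_mul _)]
  have hle : ∀ x ∈ s ×ˢ s, ∫ ω, (b x.1 * b x.2) *
        (cen μ ξ (A x.1) (B x.1) ω * cen μ ξ (A x.2) (B x.2) ω) ∂μ ≤
      if ¬ Disjoint (A x.1) (A x.2) then (4 : ℝ) else 0 := by
    intro x hx
    rw [Finset.mem_product] at hx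
    rw [integral_const_mul]
    by_cases hd : Disjoint (A x.1) (A x.2)
    swap
    · rw [if_pos hd]
      refine (le_abs_self _).trans ?_
      rw [abs_mul, abs_mul]
      calc |b x.1| * |b x.2| * |∫ ω, cen μ ξ (A x.1) (B x.1) ω * cen μ ξ (A x.2) (B x.2) ω ∂μ|
          ≤ (1 * 1) * 4 := by
            apply mul_le_mul _ (integral_cen_mul_le h _ _ _ _) (abs_nonneg _) (by norm_num)
            exact mul_le_mul (hb _) (hb _) (abs_nonneg _) (by norm_num)
        _ = 4 := by norm_num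
    · rw [if_neg (not_not.2 hd)]
      rw [integral_cen_mul_eq_zero h _ _ _ _ hd (hAB _ hx.1 _ hx.1) (hAB _ hx.1 _ hx.2)
        (hAB _ hx.2 _ hx.1) (hAB _ hx.2 _ hx.2), mul_zero]
  refine (Finset.sum_le_sum hle).trans ?_
  rw [← Finset.sum_filter, Finset.sum_const, nsmul_eq_mul]
  linarith

/-- almost sure convergence from summable second moments -/
lemma ae_tendsto_zero (W : ℕ → Ω → ℝ) (hm : ∀ j, Measurable (W j)) (hi : ∀ j, Integrable (fun ω => W j ω ^ 2) μ)
    (hs : Summable (fun j => ∫ ω, W j ω ^ 2 ∂μ)) :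
    ∀ᵐ ω ∂μ, Tendsto (fun j => W j ω) atTop (𝓝 0) := by
  have h1 : ∫⁻ ω, ∑' j, ENNReal.ofReal (W j ω ^ 2) ∂μ ≠ ⊤ := by
    rw [lintegral_tsum (fun j => ((hm j).pow_const 2).ennreal_ofReal.aemeasurable)]
    have e : ∀ j, ∫⁻ ω, ENNReal.ofReal (W j ω ^ 2) ∂μ = ENNReal.ofReal (∫ ω, W j ω ^ 2 ∂μ) := by
      intro j
      rw [ofReal_integral_eq_lintegral_ofReal (hi j)
        (Filter.Eventually.of_forall (fun ω => sq_nonneg _))]
    simp_rw [e]
    exact hs.tsum_ofReal_ne_top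
  have h2 := ae_lt_top' (AEMeasurable.tsum
    (fun j => ((hm j).pow_const 2).ennreal_ofReal.aemeasurable)) h1
  filter_upwards [h2] with ω hω
  have h3 := ENNReal.tendsto_atTop_zero_of_tsum_ne_top hω.ne
  have h4 : Tendsto (fun j => (ENNReal.ofReal (W j ω ^ 2)).toReal) atTop (𝓝 0) := by
    have := (ENNReal.tendsto_toReal ENNReal.zero_ne_top).comp h3
    simpa [Function.comp_def] using this
  have h5 : Tendsto (fun j => W j ω ^ 2) atTop (𝓝 0) := by
    refine h4.congr (fun j => ?_)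
    rw [ENNReal.toReal_ofReal (sq_nonneg _)]
  have h6 : Tendsto (fun j => Real.sqrt (W j ω ^ 2)) atTop (𝓝 0) := by
    have := (Real.continuous_sqrt.tendsto 0).comp h5
    simpa [Function.comp_def] using this
  rw [tendsto_zero_iff_abs_tendsto_zero]
  refine h6.congr (fun j => ?_)
  rw [Real.sqrt_sq_eq_abs]
  rfl

end Pool.Agent.H629Chowla
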