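import Pool.Agent.H629Chowla.Signs
import Pool.Agent.H629Chowla.Count

/-! The window of primes and the deterministic estimates. -/

set_option autoImplicit false

open MeasureTheory ProbabilityTheory Finset Filter Topology

namespace Pool.Agent.H629Chowla

/-- the primes `p` with `(log₂ N)² < p ≤ N^(1/4)` -/
def win (N : ℕ) : Finset ℕ :=
  (Icc 1 N).filter (fun p => p.Prime ∧ (Nat.log 2 N) ^ 2 < p ∧ p ^ 4 ≤ N)

lemma mem_win {N p : ℕ} : p ∈ win N ↔
    (1 ≤ p ∧ p ≤ N) ∧ p.Prime ∧ (Nat.log 2 N) ^ 2 < p ∧ p ^ 4 ≤ N := by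
  unfold win
  rw [mem_filter, mem_Icc]

lemma win_card_sq (N : ℕ) : (win N).card ^ 2 ≤ N := by
  rcases (win N).eq_empty_or_nonempty with h | h
  · rw [h]; simp
  · set m := (win N).max' h with hm
    have hmem : m ∈ win N := max'_mem _ h
    have h4 := (mem_win.1 hmem).2.2.2
    have h1 := (mem_win.1 hmem).1.1
    have hc : (win N).card ≤ m := by
      have hs : win N ⊆ Icc 1 m := fun p hp => by
        rw [mem_Icc]
        exact ⟨(mem_win.1 hp).1.1, le_max' _ p hp⟩
      have := card_le_card hs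
      rw [Nat.card_Icc] at this
      omega
    calc (win N).card ^ 2 ≤ m ^ 2 := Nat.pow_le_pow_left hc 2
      _ ≤ m ^ 4 := Nat.pow_le_pow_right h1 (by norm_num)
      _ ≤ N := h4

/-- the product of the shifted variables -/
def FF {k : ℕ} (h : Fin (k + 1) → ℕ) (n : ℕ) : ℕ := ∏ i, (n + h i)

/-- the primes which divide `m` exactly an odd number of times -/
def odds (m : ℕ) : Finset ℕ := m.primeFactors.filter (fun p => Odd (m.factorization p))

lemma FF_ne_zero {k : ℕ} (h : Fin (k + 1) → ℕ) {n : ℕ} (hn : 1 ≤ n) : FF h n ≠ 0 := by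
  unfold FF
  rw [prod_ne_zero_iff]
  intro i _
  omega

lemma card_dvd_FF {k : ℕ} (h : Fin (k + 1) → ℕ) (N p : ℕ) (hp : p.Prime) (hpN : p ≤ N) :
    (((Icc 1 N).filter (fun n => p ∣ FF h n)).card : ℝ) ≤ 2 * (k + 1) * (N / p) := by
  have hsub : (Icc 1 N).filter (fun n => p ∣ FF h n) ⊆
      (univ : Finset (Fin (k + 1))).biUnion (fun i => (Icc 1 N).filter (fun n => p ∣ n + h i)) := by
    intro n hn
    rw [mem_filter] at hn
    rw [mem_biUnion]
    obtain ⟨i, _, hi⟩ := (hp.prime.dvd_finsetProd_iff _).1 hn.2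
    exact ⟨i, mem_univ _, mem_filter.2 ⟨hn.1, hi⟩⟩
  have h1 : (((Icc 1 N).filter (fun n => p ∣ FF h n)).card : ℝ) ≤
      ∑ i : Fin (k + 1), (((Icc 1 N).filter (fun n => p ∣ n + h i)).card : ℝ) := by
    have := (card_le_card hsub).trans card_biUnion_le
    exact_mod_cast this
  have hp0 : (0 : ℝ) < p := by exact_mod_cast hp.pos
  have hNp : (1 : ℝ) ≤ N / p := by
    rw [le_div_iff₀ hp0, one_mul]
    exact_mod_cast hpN
  calc (((Icc 1 N).filter (fun n => p ∣ FF h n)).card : ℝ)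
      ≤ ∑ i : Fin (k + 1), (((Icc 1 N).filter (fun n => p ∣ n + h i)).card : ℝ) := h1
    _ ≤ ∑ i : Fin (k + 1), (2 * ((N : ℝ) / p)) :=
        sum_le_sum (fun i _ => (card_le N (h i) p hp.pos).trans (by linarith))
    _ = 2 * (k + 1) * (N / p) := by
        simp
        ring

/-- the number of dependent pairs -/
lemma pairs_le {k : ℕ} (h : Fin (k + 1) → ℕ) (N : ℕ) (hY : 1 ≤ (Nat.log 2 N) ^ 2) :
    ((((Icc 1 N) ×ˢ (Icc 1 N)).filter (fun x => ¬ Disjoint (odds (FF h x.1) ∩ win N)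
      (odds (FF h x.2) ∩ win N))).card : ℝ) ≤
      4 * ((k : ℝ) + 1) ^ 2 * (N : ℝ) ^ 2 / ((Nat.log 2 N : ℕ) : ℝ) ^ 2 := by
  set S : ℕ → Finset ℕ := fun p => (Icc 1 N).filter (fun n => p ∣ FF h n) with hS
  have hsub : ((Icc 1 N) ×ˢ (Icc 1 N)).filter (fun x => ¬ Disjoint (odds (FF h x.1) ∩ win N)
      (odds (FF h x.2) ∩ win N)) ⊆ (win N).biUnion (fun p => S p ×ˢ S p) := by
    intro x hx
    rw [mem_filter, mem_product] at hx
    obtain ⟨⟨hx1, hx2⟩, hd⟩ := hx
    rw [not_disjoint_iff] at hd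
    obtain ⟨p, hp1, hp2⟩ := hd
    rw [mem_inter] at hp1 hp2
    rw [mem_biUnion]
    refine ⟨p, hp1.2, ?_⟩
    rw [mem_product, hS]
    have d1 : p ∣ FF h x.1 := by
      have := hp1.1
      unfold odds at this
      exact Nat.dvd_of_mem_primeFactors (mem_filter.1 this).1
    have d2 : p ∣ FF h x.2 := by
      have := hp2.1
      unfold odds at this
      exact Nat.dvd_of_mem_primeFactors (mem_filter.1 this).1
    exact ⟨mem_filter.2 ⟨hx1, d1⟩, mem_filter.2 ⟨hx2, d2⟩⟩
  have h1 : ((((Icc 1 N) ×ˢ (Icc 1 N)).filter (fun x => ¬ Disjoint (odds (FF h x.1) ∩ win N)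
      (odds (FF h x.2) ∩ win N))).card : ℝ) ≤ ∑ p ∈ win N, ((S p).card : ℝ) * (S p).card := by
    have := (card_le_card hsub).trans card_biUnion_le
    simp_rw [card_product] at this
    exact_mod_cast this
  refine h1.trans ?_
  have h2 : ∀ p ∈ win N, ((S p).card : ℝ) * (S p).card ≤
      4 * ((k : ℝ) + 1) ^ 2 * (N : ℝ) ^ 2 * (1 / (p : ℝ) ^ 2) := by
    intro p hp
    have hm := mem_win.1 hp
    have hc := card_dvd_FF h N p hm.2.1 hm.1.2
    have h0 : (0 : ℝ) ≤ (S p).card := Nat.cast_nonneg _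
    calc ((S p).card : ℝ) * (S p).card ≤ (2 * (k + 1) * (N / p)) * (2 * (k + 1) * (N / p)) :=
          mul_le_mul hc hc h0 (h0.trans hc)
      _ = _ := by ring
  refine (sum_le_sum h2).trans ?_
  rw [← mul_sum]
  have h3 := sum_inv_sq (win N) ((Nat.log 2 N) ^ 2) hY (fun p hp => (mem_win.1 hp).2.2.1)
  calc 4 * ((k : ℝ) + 1) ^ 2 * (N : ℝ) ^ 2 * ∑ p ∈ win N, (1 : ℝ) / (p : ℝ) ^ 2
      ≤ 4 * ((k : ℝ) + 1) ^ 2 * (N : ℝ) ^ 2 * (1 / (((Nat.log 2 N) ^ 2 : ℕ) : ℝ)) :=
        mul_le_mul_of_nonneg_left h3 (by positivity)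
    _ = _ := by push_cast; ring

/-- a large prime factor of the first form which divides it once divides the product once -/
lemma factorization_FF {k : ℕ} (h : Fin (k + 1) → ℕ) (hinj : Function.Injective h) {n p H : ℕ}
    (hn : 1 ≤ n) (hp : p.Prime) (hH : ∀ i, h i ≤ H) (hpH : H < p) (hd : p ∣ n + h 0)
    (hd2 : ¬ p ^ 2 ∣ n + h 0) : (FF h n).factorization p = 1 := by
  unfold FF
  rw [Nat.factorization_prod (fun i _ => by omega)]
  rw [Finsupp.finsetSum_apply]
  rw [Finset.sum_eq_single (0 : Fin (k + 1))]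
  · have h0 : n + h 0 ≠ 0 := by omega
    have h1 : 1 ≤ (n + h 0).factorization p := (hp.dvd_iff_one_le_factorization h0).1 hd
    have h2 : ¬ 2 ≤ (n + h 0).factorization p := fun hc =>
      hd2 ((hp.pow_dvd_iff_le_factorization h0).2 hc)
    omega
  · intro i _ hi
    apply Nat.factorization_eq_zero_of_not_dvd
    intro hdi
    have hne : h i ≠ h 0 := fun hc => hi (hinj hc)
    rcases lt_or_gt_of_ne hne with hlt | hlt
    · have h1 : p ∣ (n + h 0) - (n + h i) := Nat.dvd_sub hd hdi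
      have h2 : (n + h 0) - (n + h i) = h 0 - h i := by omega
      rw [h2] at h1
      have h3 := Nat.le_of_dvd (by omega) h1
      have := hH 0
      omega
    · have h1 : p ∣ (n + h i) - (n + h 0) := Nat.dvd_sub hdi hd
      have h2 : (n + h i) - (n + h 0) = h i - h 0 := by omega
      rw [h2] at h1
      have h3 := Nat.le_of_dvd (by omega) h1
      have := hH i
      omega
  · intro hc
    exact absurd (mem_univ _) hc

variable {Ω : Type*} [MeasurableSpace Ω] {μ : Measure Ω} {ξ : ℕ → Ω → ℝ}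

lemma Th_bound [IsProbabilityMeasure μ] (hs : Signs μ ξ) {k : ℕ} (h : Fin (k + 1) → ℕ)
    (hinj : Function.Injective h) {N H : ℕ} (hH : ∀ i, h i ≤ H) (hY : H ≤ (Nat.log 2 N) ^ 2)
    {n : ℕ} (hn : 1 ≤ n) (hsq : ∀ p ∈ win N, ¬ p ^ 2 ∣ n + h 0) :
    |Th μ ξ (odds (FF h n) ∩ win N)| ≤
      Real.exp (-gg (win N) (fun p => 1 - |th μ ξ p|) (h 0) n) := by
  have hsub : (win N).filter (fun p => p ∣ n + h 0) ⊆ odds (FF h n) ∩ win N := by
    intro p hp
    rw [mem_filter] at hp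
    have hm := mem_win.1 hp.1
    have hf := factorization_FF h hinj hn hm.2.1 hH (lt_of_le_of_lt hY hm.2.2.1) hp.2 (hsq p hp.1)
    rw [mem_inter]
    refine ⟨?_, hp.1⟩
    unfold odds
    rw [mem_filter, Nat.mem_primeFactors]
    refine ⟨⟨hm.2.1, ?_, FF_ne_zero h hn⟩, ?_⟩
    · exact dvd_trans hp.2 (dvd_prod_of_mem (fun i => n + h i) (mem_univ 0))
    · rw [hf]; exact odd_one
  unfold Th
  rw [Finset.abs_prod]
  calc ∏ p ∈ odds (FF h n) ∩ win N, |th μ ξ p|
      ≤ ∏ p ∈ (win N).filter (fun p => p ∣ n + h 0), |th μ ξ p| :=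
        Finset.prod_le_prod_of_subset_of_le_one hsub (fun p _ => abs_nonneg _)
          (fun p _ _ => abs_th_le hs p)
    _ ≤ ∏ p ∈ (win N).filter (fun p => p ∣ n + h 0), Real.exp (-(1 - |th μ ξ p|)) := by
        refine Finset.prod_le_prod (fun p _ => abs_nonneg _) (fun p _ => ?_)
        have := Real.add_one_le_exp (-(1 - |th μ ξ p|))
        linarith
    _ = Real.exp (-gg (win N) (fun p => 1 - |th μ ξ p|) (h 0) n) := by
        rw [← Real.exp_sum, sum_neg_distrib]
        congr 2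
        unfold gg
        rw [sum_filter]

lemma log_tendsto : Tendsto (fun N : ℕ => Nat.log 2 N) atTop atTop := by
  refine tendsto_atTop.2 (fun b => ?_)
  filter_upwards [eventually_ge_atTop (2 ^ b)] with N hN
  exact Nat.le_log_of_pow_le (by norm_num) hN

/-- the deterministic part tends to zero -/
lemma det_tendsto [IsProbabilityMeasure μ] (hs : Signs μ ξ) {k : ℕ} (h : Fin (k + 1) → ℕ)
    (hinj : Function.Injective h)
    (hD : Tendsto (fun N => MM (win N) (fun p => 1 - |th μ ξ p|)) atTop atTop) :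
    Tendsto (fun N : ℕ => (∑ n ∈ Icc 1 N, |Th μ ξ (odds (FF h n) ∩ win N)|) / N) atTop (𝓝 0) := by
  set κ : ℕ → ℝ := fun p => 1 - |th μ ξ p| with hκ
  obtain ⟨H, hH⟩ : ∃ H, ∀ i, h i ≤ H :=
    ⟨(univ : Finset (Fin (k + 1))).sup h, fun i => le_sup (f := h) (mem_univ i)⟩
  have hlog := log_tendsto
  have hlogR : Tendsto (fun N : ℕ => (((Nat.log 2 N) ^ 2 : ℕ) : ℝ)) atTop atTop := by
    apply tendsto_natCast_atTop_atTop.comp
    exact (tendsto_pow_atTop (by norm_num)).comp hlog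
  have hM2 : Tendsto (fun N : ℕ => MM (win N) κ ^ 2) atTop atTop :=
    (tendsto_pow_atTop (by norm_num)).comp hD
  have hsqrt : Tendsto (fun N : ℕ => Real.sqrt N) atTop atTop :=
    Real.tendsto_sqrt_atTop.comp tendsto_natCast_atTop_atTop
  have hlim : Tendsto (fun N : ℕ => 1 / (((Nat.log 2 N) ^ 2 : ℕ) : ℝ) + 1 / Real.sqrt N +
      Real.exp (-(MM (win N) κ / 2)) + (4 / MM (win N) κ + 12 / MM (win N) κ ^ 2)) atTop
      (𝓝 (0 + 0 + 0 + (0 + 0))) := by
    refine ((((tendsto_const_nhds.div_atTop hlogR)).add (tendsto_const_nhds.div_atTop hsqrt)).add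
      ?_).add ((tendsto_const_nhds.div_atTop hD).add (tendsto_const_nhds.div_atTop hM2))
    refine Real.tendsto_exp_neg_atTop_nhds_zero.comp ?_
    exact hD.atTop_div_const (by norm_num)
  simp only [add_zero] at hlim
  refine squeeze_zero' (Filter.Eventually.of_forall (fun N => by positivity)) ?_ hlim
  filter_upwards [eventually_ge_atTop 1, hD.eventually_gt_atTop 0,
    (tendsto_pow_atTop (two_ne_zero)).comp hlog |>.eventually_ge_atTop (H + 1)] with N hN hM hY
  have hY' : H + 1 ≤ (Nat.log 2 N) ^ 2 := hY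
  exact avg_le N (h 0) ((Nat.log 2 N) ^ 2) hN (by omega) (win N)
    (fun p hp => (mem_win.1 hp).2.1) (fun p hp => (mem_win.1 hp).2.2.1) (win_card_sq N) κ
    (fun p => by rw [hκ]; have := abs_th_le hs p; dsimp only; linarith)
    (fun p => by rw [hκ]; have := abs_nonneg (th μ ξ p); dsimp only; linarith) hM
    (fun n => |Th μ ξ (odds (FF h n) ∩ win N)|) (fun n => abs_Th_le hs _)
    (fun n hn hq => Th_bound hs h hinj hH (by omega) (mem_Icc.1 hn).1 hq)

end Pool.Agent.H629Chowla
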